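import Mathlib
import Pool.Agent.H630R2.LA.Defs

set_option autoImplicit false

/-! # Unambiguous 1-limited automata -/

namespace Pool.Agent.U593.UA

open Pool.Agent.H630R2.LA

variable {A : Type}

/-- The list `l` of configurations is a computation of `M` on the input `w` that ends by moving past
the right end-marker in a state of `S`. -/
def Comput (strict : Prop) (M : LimAut A) (S : Set M.Q) (w : List A) (l : List (Cfg M)) : Prop :=
  l.head? = some (init M w) ∧ l.IsChain (Step strict w.length) ∧
    ∃ c, l.getLast? = some c ∧ c.pos = w.length + 2 ∧ c.state ∈ S

/-- For each input at most one computation ends by moving past the right end-marker in a state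
of `S`. -/
def Unamb (strict : Prop) (M : LimAut A) (S : Set M.Q) : Prop :=
  ∀ (w : List A) (l l' : List (Cfg M)), Comput strict M S w l → Comput strict M S w l' → l = l'

end Pool.Agent.U593.UA
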