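import Mathlib
import Pool.Agent.U593.UA.Defs
import Pool.Agent.U593.SV.Upper

set_option autoImplicit false

/-! # The lower bound for unambiguous 1-limited automata -/

namespace Pool.Agent.U593.UA

open Pool.Agent.H630R2.LA Pool.Agent.U593.SV Relation

section lists

variable {α : Type} {R : α → α → Prop}

theorem chain_of_rtg {a b : α} (h : ReflTransGen R a b) :
    ∃ l, (a :: l).IsChain R ∧ (a :: l).getLast? = some b := by
  induction h using ReflTransGen.head_induction_on with
  | refl => exact ⟨[], List.isChain_singleton _, rfl⟩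
  | @head a c h _ ih =>
    obtain ⟨l, h1, h2⟩ := ih
    refine ⟨c :: l, List.isChain_cons_cons.2 ⟨h, h1⟩, ?_⟩
    rw [List.getLast?_cons_cons]
    exact h2

/-- A list through a given element. -/
theorem chain_through {a c b : α} (h : ReflTransGen R a c) (h' : ReflTransGen R c b) :
    ∃ l, (a :: l).IsChain R ∧ (a :: l).getLast? = some b ∧ c ∈ a :: l := by
  induction h using ReflTransGen.head_induction_on with
  | refl =>
    obtain ⟨l, h1, h2⟩ := chain_of_rtg h'
    exact ⟨l, h1, h2, List.mem_cons_self ..⟩
  | @head a d h _ ih =>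
    obtain ⟨l, h1, h2, h3⟩ := ih
    refine ⟨d :: l, List.isChain_cons_cons.2 ⟨h, h1⟩, ?_, List.mem_cons_of_mem _ h3⟩
    rw [List.getLast?_cons_cons]
    exact h2

end lists

variable {A : Type} {strict : Prop} {M : LimAut A}

theorem seen_chain {n : ℕ} (l : List (Cfg M)) : ∀ a, (a :: l).IsChain (Step strict n) →
    ∀ c ∈ l, insert a.pos a.seen ⊆ c.seen := by
  induction l with
  | nil =>
    intro a _ c hc
    exact absurd hc (by simp)
  | cons d l ih =>
    intro a h c hc
    rw [List.isChain_cons_cons] at h
    have h1 : d.seen = insert a.pos a.seen := by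
      obtain ⟨_, _, _, _, _, _, _, _, _, h, _⟩ := h.1
      exact h
    rcases List.mem_cons.1 hc with rfl | hc
    · exact h1.symm.subset
    · refine Set.Subset.trans ?_ (ih d h.2 c hc)
      rw [← h1]
      exact Set.subset_insert _ _

/-- The first visit of a cell is unique. -/
theorem first_unique {n x : ℕ} (l : List (Cfg M)) (h : l.IsChain (Step strict n)) {c c' : Cfg M}
    (hc : c ∈ l) (hc' : c' ∈ l) (h1 : c.pos = x) (h2 : x ∉ c.seen) (h1' : c'.pos = x)
    (h2' : x ∉ c'.seen) : c = c' := by
  induction l with
  | nil => exact absurd hc (by simp)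
  | cons a l ih =>
    rcases List.mem_cons.1 hc with e | hc
    · rcases List.mem_cons.1 hc' with e' | hc'
      · rw [e, e']
      · exfalso
        apply h2'
        apply seen_chain l a h c' hc'
        rw [← e, h1]
        exact Set.mem_insert _ _
    · rcases List.mem_cons.1 hc' with e' | hc'
      · exfalso
        apply h2
        apply seen_chain l a h c hc
        rw [← e', h1']
        exact Set.mem_insert _ _
      · exact ih (by
          cases l with
          | nil => exact List.isChain_nil
          | cons b l => exact (List.isChain_cons_cons.1 h).2) hc hc'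

/-- The configuration `c` is the first visit of the cell `m + 1` on the input `w`, and the table
automaton is in the state `x`. -/
structure FVis (strict : Prop) (w : List A) (m : ℕ) (x : Set (M.Q × M.Q) × M.Q) (c : Cfg M) :
    Prop where
  hp : c.pos = m + 1
  hs : c.state = x.2
  hT : Tab strict M c.tape m = x.1
  hS : ∀ i, 1 ≤ i → (i ∈ c.seen ↔ i ≤ m)
  hτ : ∀ i, m < i → c.tape i = initTape M w i
  h0 : c.tape 0 = .lm

/-- One step of the table automaton is made by the machine. -/
theorem FVis.step {w : List A} {m : ℕ} (hm : m + 1 ≤ w.length + 1)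
    {x y : Set (M.Q × M.Q) × M.Q} {c : Cfg M} (h : FVis strict w m x c)
    (hxy : nstep strict M (initTape M w (m + 1)) x y) :
    ∃ c', FVis strict w (m + 1) y c' ∧ ReflTransGen (Step strict w.length) c c' := by
  classical
  obtain ⟨st, ps, τ, S⟩ := c
  obtain ⟨hp, hs, hT, hS, hτ, h0⟩ := h
  simp only at hp hs hT hS hτ h0
  subst hp
  subst hs
  obtain ⟨q, b, d, hδ, hR, hr, hl⟩ := hxy
  set τ' : ℕ → Sym M.W := Function.update τ (m + 1) ((τ (m + 1)).rewrite b) with hτ'
  have hagree : ∀ i, i ≤ m → τ' i = τ i := by
    intro i hi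
    rw [hτ', Function.update_of_ne]
    omega
  have hnew : τ' (m + 1) = (initTape M w (m + 1)).rewrite b := by
    rw [hτ', Function.update_self, hτ _ (by omega)]
  have htab : Tab strict M τ' (m + 1) = y.1 := by
    rw [Tab_succ, hnew, Tab.congr hagree, hT, hR]
  have hnot : m + 1 ∉ S := by
    intro h
    have := (hS (m + 1) (by omega)).1 h
    omega
  have hS1 : ∀ i, 1 ≤ i → (i ∈ insert (m + 1) S ↔ i ≤ m + 1) := by
    intro i hi
    rw [Set.mem_insert_iff, hS i hi]
    omega
  have h0' : τ' 0 = .lm := by rw [hagree 0 (by omega)]; exact h0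
  have hτ2 : ∀ i, m + 1 < i → τ' i = initTape M w i := by
    intro i hi
    rw [hτ', Function.update_of_ne (by omega)]
    exact hτ i (by omega)
  have hδ' : (q, b, d) ∈ M.δ x.2 (τ (m + 1)) := by rw [hτ _ (by omega)]; exact hδ
  cases d
  · obtain ⟨s, hs1, hs2⟩ := hl rfl
    have hstep : Step strict w.length (⟨x.2, m + 1, τ, S⟩ : Cfg M)
        ⟨q, m, τ', insert (m + 1) S⟩ :=
      ⟨hm, q, b, false, hδ', fun _ h => absurd h hnot, rfl, fun h => absurd h hnot,
        fun _ => rfl, rfl, by simp, by simp⟩
    have hpath : ReflTransGen (Fr strict M τ' (m + 1)) (q, m) (y.2, m + 2) := by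
      have h1 : ReflTransGen (Fr strict M τ m) (q, m) (s, m + 1) := by
        have := hs1
        rw [← hT] at this
        exact this
      have h2 : ReflTransGen (Fr strict M τ' (m + 1)) (q, m) (s, m + 1) :=
        FrS.mono (Nat.le_succ m) (FrS.congr (fun i hi => (hagree i hi).symm) h1)
      refine h2.trans ?_
      have := hs2
      rw [← htab] at this
      exact this
    obtain ⟨S', hS', hlift⟩ := lift hm h0' hpath _ hS1
    exact ⟨⟨y.2, m + 2, τ', S'⟩, ⟨rfl, rfl, htab, hS', hτ2, h0'⟩, ReflTransGen.head hstep hlift⟩
  · have hq := hr rfl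
    have hstep : Step strict w.length (⟨x.2, m + 1, τ, S⟩ : Cfg M)
        ⟨q, m + 2, τ', insert (m + 1) S⟩ :=
      ⟨hm, q, b, true, hδ', fun _ h => absurd h hnot, rfl, fun h => absurd h hnot,
        fun _ => rfl, rfl, by simp, by simp⟩
    exact ⟨⟨q, m + 2, τ', insert (m + 1) S⟩, ⟨rfl, hq.symm, htab, hS1, hτ2, h0'⟩,
      ReflTransGen.single hstep⟩

theorem FVis.runs {v : List A} : ∀ {u : List A} {x y : Set (M.Q × M.Q) × M.Q} {c : Cfg M},
    FVis strict (u ++ v) u.length x c → runs strict M v x y →
    ∃ c', FVis strict (u ++ v) (u ++ v).length y c' ∧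
      ReflTransGen (Step strict (u ++ v).length) c c' := by
  induction v with
  | nil =>
    intro u x y c h hr
    have h1 : x = y := hr
    subst h1
    refine ⟨c, ?_, ReflTransGen.refl⟩
    rw [List.append_nil] at h ⊢
    exact h
  | cons a v ih =>
    intro u x y c h hr
    obtain ⟨z, h1, h2⟩ := hr
    have hcell : initTape M (u ++ a :: v) (u.length + 1) = .sym (M.inp a) := by
      have h3 : (u ++ a :: v)[u.length]? = some a := by simp
      simp only [initTape, h3]
    obtain ⟨c1, h3, h4⟩ := h.step (y := z) (by simp) (by rw [hcell]; exact h1)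
    have h5 : u ++ a :: v = (u ++ [a]) ++ v := by simp
    have h6 : (u ++ [a]).length = u.length + 1 := by simp
    rw [h5] at h3 h4 ⊢
    rw [← h6] at h3
    obtain ⟨c', h7, h8⟩ := ih h3 h2
    exact ⟨c', h7, h4.trans h8⟩

/-- The final part. -/
theorem FVis.fin {w : List A} {y : Set (M.Q × M.Q) × M.Q} {c : Cfg M}
    (h : FVis strict w w.length y c) (hf : finX strict M y) :
    ∃ c' : Cfg M, ReflTransGen (Step strict w.length) c c' ∧ c'.pos = w.length + 2 ∧
      c'.state ∈ M.F := by
  obtain ⟨z, h1, h2⟩ := hf
  have hcell : initTape M w (w.length + 1) = .rm := by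
    simp only [initTape, List.getElem?_eq_none (le_refl w.length)]
  obtain ⟨c', h3, h4⟩ := h.step (y := z) le_rfl (by rw [hcell]; exact h1)
  exact ⟨c', h4, h3.hp, by rw [h3.hs]; exact h2⟩

theorem FVis.init (w : List A) : FVis strict w 0 (x0 strict M) (init M w) := by
  refine ⟨rfl, rfl, ?_, ?_, fun _ _ => rfl, rfl⟩
  · rw [Tab_zero]
    rfl
  · intro i hi
    have h1 : i ∉ (∅ : Set ℕ) := Set.notMem_empty _
    constructor
    · intro h
      exact absurd h h1
    · intro h
      omega

/-- **An unambiguous machine has at most one state between two parts of an accepted input.** -/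
theorem unamb_mid (hM : Unamb strict M M.F) {u v : List A} {z z' : Set (M.Q × M.Q) × M.Q}
    (h1 : runs strict M u (x0 strict M) z) (h2 : ∃ y, runs strict M v z y ∧ finX strict M y)
    (h1' : runs strict M u (x0 strict M) z')
    (h2' : ∃ y, runs strict M v z' y ∧ finX strict M y) : z = z' := by
  have key : ∀ z, runs strict M u (x0 strict M) z →
      (∃ y, runs strict M v z y ∧ finX strict M y) → ∃ l c, Comput strict M M.F (u ++ v) l ∧
        c ∈ l ∧ FVis strict (u ++ v) u.length z c := by
    rintro z h1 ⟨y, h2, h3⟩
    -- the first part, on the input `u ++ v`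
    have hfirst : ∀ (t : ℕ), t ≤ u.length → ∀ x, runs strict M (u.take t) (x0 strict M) x →
        ∃ c, FVis strict (u ++ v) t x c ∧
          ReflTransGen (Step strict (u ++ v).length) (H630R2.LA.init M (u ++ v)) c := by
      intro t
      induction t with
      | zero =>
        intro _ x hx
        have hx' : x0 strict M = x := hx
        subst hx'
        exact ⟨_, FVis.init _, ReflTransGen.refl⟩
      | succ t ih =>
        intro ht x hx
        rw [List.take_succ_eq_append_getElem (by omega), runs_append] at hx
        obtain ⟨x', h4, x'', h5, h6⟩ := hx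
        have h6' : x'' = x := h6
        subst h6'
        obtain ⟨c, h7, h8⟩ := ih (by omega) x' h4
        have hcell : initTape M (u ++ v) (t + 1) = .sym (M.inp u[t]) := by
          have h9 : (u ++ v)[t]? = some u[t] := by
            rw [List.getElem?_append_left (by omega)]
            exact List.getElem?_eq_getElem (by omega)
          simp only [initTape, h9]
        obtain ⟨c', h9, h10⟩ := h7.step (y := x'')
          (by rw [List.length_append]; omega) (by rw [hcell]; exact h5)
        exact ⟨c', h9, h8.trans h10⟩
    obtain ⟨c, h4, h5⟩ := hfirst u.length le_rfl z (by rw [List.take_length]; exact h1)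
    obtain ⟨c1, h6, h7⟩ := h4.runs h2
    obtain ⟨c2, h8, h9, h10⟩ := h6.fin h3
    obtain ⟨l, h11, h12, h13⟩ := chain_through h5 (h7.trans h8)
    exact ⟨_, c, ⟨rfl, h11, c2, h12, h9, h10⟩, h13, h4⟩
  obtain ⟨l, c, k1, k2, k3⟩ := key z h1 h2
  obtain ⟨l', c', k1', k2', k3'⟩ := key z' h1' h2'
  have h3 := hM _ _ _ k1 k1'
  subst h3
  have hn : ∀ {z : Set (M.Q × M.Q) × M.Q} {c : Cfg M}, FVis strict (u ++ v) u.length z c →
      u.length + 1 ∉ c.seen := by
    intro z c h h'
    have := (h.hS _ (by omega)).1 h'
    omega
  have h4 := first_unique l k1.2.1 k2 k2' k3.hp (hn k3) k3'.hp (hn k3')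
  subst h4
  refine Prod.ext ?_ ?_
  · rw [← k3.hT, ← k3'.hT]
  · rw [← k3.hs, ← k3'.hs]

section matrix

/-- The rank argument: the matrix `[¬ G ⊆ H]` needs many rectangles. -/
theorem rank_bound {X Z : Type} [Finite X] [Finite Z] (P : Set X → Z → Prop)
    (S : Z → Set X → Prop)
    (h1 : ∀ G H, (∃ x, x ∈ G ∧ x ∉ H) → ∃ z, P G z ∧ S z H)
    (h2 : ∀ G H z, P G z → S z H → ∃ x, x ∈ G ∧ x ∉ H)
    (h3 : ∀ G H z z', P G z → S z H → P G z' → S z' H → z = z') :
    Nat.card (Set X) ≤ Nat.card Z + 1 := by
  classical
  have := Fintype.ofFinite X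
  have := Fintype.ofFinite Z
  have := Fintype.ofFinite (Set X)
  -- the linear map
  let Φ : (Set X → ℚ) →ₗ[ℚ] (Option Z → ℚ) :=
    { toFun := fun f o => match o with
        | none => ∑ H, f H
        | some z => ∑ H, (if S z H then 1 else 0) * f H
      map_add' := by
        intro f g
        funext o
        cases o with
        | none =>
          show ∑ H, (f H + g H) = ∑ H, f H + ∑ H, g H
          exact Finset.sum_add_distrib
        | some z =>
          show ∑ H, (if S z H then (1 : ℚ) else 0) * (f H + g H) =
            ∑ H, (if S z H then 1 else 0) * f H + ∑ H, (if S z H then 1 else 0) * g H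
          rw [← Finset.sum_add_distrib]
          exact Finset.sum_congr rfl fun H _ => mul_add _ _ _
      map_smul' := by
        intro r f
        funext o
        cases o with
        | none =>
          show ∑ H, (r * f H) = r * ∑ H, f H
          rw [Finset.mul_sum]
        | some z =>
          show ∑ H, (if S z H then (1 : ℚ) else 0) * (r * f H) =
            r * ∑ H, (if S z H then 1 else 0) * f H
          rw [Finset.mul_sum]
          exact Finset.sum_congr rfl fun H _ => by ring }
  have hinj : Function.Injective Φ := by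
    rw [← LinearMap.ker_eq_bot, LinearMap.ker_eq_bot']
    intro f hf
    have k0 : ∑ H, f H = 0 := congrFun hf none
    have kz : ∀ z, ∑ H, (if S z H then (1 : ℚ) else 0) * f H = 0 := fun z => congrFun hf (some z)
    -- the sums over the supersets vanish
    have key : ∀ G : Set X, ∑ H, (if G ⊆ H then f H else 0) = 0 := by
      intro G
      have h4 : ∀ H, (if G ⊆ H then f H else 0) =
          f H - ∑ z, (if P G z then (1 : ℚ) else 0) * ((if S z H then 1 else 0) * f H) := by
        intro H
        by_cases hGH : G ⊆ H
        · rw [if_pos hGH]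
          have h5 : ∑ z, (if P G z then (1 : ℚ) else 0) * ((if S z H then 1 else 0) * f H) = 0 := by
            apply Finset.sum_eq_zero
            intro z _
            by_cases hp : P G z
            · by_cases hs : S z H
              · obtain ⟨x, hx, hx'⟩ := h2 G H z hp hs
                exact absurd (hGH hx) hx'
              · rw [if_neg hs]
                ring
            · rw [if_neg hp]
              ring
          rw [h5]
          ring
        · rw [if_neg hGH]
          rw [Set.not_subset] at hGH
          obtain ⟨x, hx, hx'⟩ := hGH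
          obtain ⟨z, hp, hs⟩ := h1 G H ⟨x, hx, hx'⟩
          rw [Finset.sum_eq_single z]
          · rw [if_pos hp, if_pos hs]
            ring
          · intro z' _ hne
            by_cases hp' : P G z'
            · by_cases hs' : S z' H
              · exact absurd (h3 G H z' z hp' hs' hp hs) hne
              · rw [if_neg hs']
                ring
            · rw [if_neg hp']
              ring
          · intro h
            exact absurd (Finset.mem_univ _) h
      rw [Finset.sum_congr rfl fun H _ => h4 H, Finset.sum_sub_distrib, k0, Finset.sum_comm]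
      have h5 : ∑ z, ∑ H, (if P G z then (1 : ℚ) else 0) * ((if S z H then 1 else 0) * f H) =
          0 := by
        apply Finset.sum_eq_zero
        intro z _
        rw [← Finset.mul_sum, kz z, mul_zero]
      rw [h5, sub_zero]
    -- downward induction
    have hall : ∀ G : Set X, f G = 0 := by
      intro G
      induction G using WellFoundedGT.induction with
      | ind G ih =>
        have h4 := key G
        rw [Finset.sum_eq_single G] at h4
        · rw [if_pos (Set.Subset.refl G)] at h4
          exact h4
        · intro H _ hne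
          by_cases hGH : G ⊆ H
          · rw [if_pos hGH]
            exact ih H (lt_of_le_of_ne hGH (Ne.symm hne))
          · rw [if_neg hGH]
        · intro h
          exact absurd (Finset.mem_univ _) h
    exact funext hall
  have h4 := LinearMap.finrank_le_finrank_of_injective hinj
  rw [Module.finrank_fintype_fun_eq_card, Module.finrank_fintype_fun_eq_card,
    Fintype.card_option] at h4
  rw [Nat.card_eq_fintype_card, Nat.card_eq_fintype_card]
  exact h4

end matrix

section lower

open Pool.Agent.N602.FT Pool.Agent.TH705.LB Pool.Agent.R620.KV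

/-- **The lower bound for unambiguous machines.** -/
theorem lower_unamb (m : ℕ) (strict : Prop) (N : LimAut (BL Ltr)) (hU : Unamb strict N N.F)
    (hN : N.language strict = (bwit m).language strict) :
    2 ^ (m ^ 2) ≤ Nat.card N.Q * Nat.card N.Q + Nat.card N.Q := by
  have hfin := N.finQ
  have hmem : ∀ G H : Set (Mat m), (∃ z, runs strict N (lft G 0) (x0 strict N) z ∧
      ∃ y, runs strict N (rgt H 0) z y ∧ finX strict N y) ↔ ∃ Y, Y ∈ G ∧ Y ∉ H := by
    intro G H
    rw [← mem_lft_rgt (strict := strict) G H 0 0, ← hN, mem_language_runs]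
    constructor
    · rintro ⟨z, h1, y, h2, h3⟩
      exact ⟨y, (runs_append _ _ _ _).2 ⟨z, h1, h2⟩, h3⟩
    · rintro ⟨y, h1, h2⟩
      obtain ⟨z, h3, h4⟩ := (runs_append _ _ _ _).1 h1
      exact ⟨z, h3, y, h4, h2⟩
  have h1 := rank_bound (X := Mat m) (Z := Set (N.Q × N.Q) × N.Q)
    (fun G z => runs strict N (lft G 0) (x0 strict N) z)
    (fun z H => ∃ y, runs strict N (rgt H 0) z y ∧ finX strict N y)
    (fun G H h => by
      obtain ⟨z, h2, h3⟩ := (hmem G H).2 h
      exact ⟨z, h2, h3⟩)
    (fun G H z h2 h3 => (hmem G H).1 ⟨z, h2, h3⟩)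
    (fun G H z z' h2 h3 h4 h5 => unamb_mid hU h2 h3 h4 h5)
  rw [card_sets m, card_table] at h1
  have hq : 1 ≤ Nat.card N.Q := by
    have : Nonempty N.Q := ⟨N.q0⟩
    exact Nat.card_pos
  generalize Nat.card N.Q = q at *
  have h2 : 2 ^ (q * q) * q + 1 ≤ 2 ^ (q * q + q) := by
    rw [pow_add]
    have h4 : q + 1 ≤ 2 ^ q := Nat.lt_two_pow_self
    have h5 : 1 ≤ 2 ^ (q * q) := Nat.one_le_two_pow
    calc 2 ^ (q * q) * q + 1 ≤ 2 ^ (q * q) * q + 2 ^ (q * q) := by omega
      _ = 2 ^ (q * q) * (q + 1) := by ring
      _ ≤ 2 ^ (q * q) * 2 ^ q := Nat.mul_le_mul_left _ h4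
  exact (Nat.pow_le_pow_iff_right (by norm_num)).1 (h1.trans h2)

end lower

end Pool.Agent.U593.UA
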