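import Mathlib

set_option autoImplicit false

/-!
# Isolating weights for layered graphs

For every one-way automaton with the states `0, ..., B - 1` there are few weight functions such that
for every input of length `B` and every set of initial states one of them has no ties: for every
layer `o`, every state `q` and every two states `x, x'` the least weight of a path to `x` plus the
weight of the edge from `x` to `q` is different from the same sum for `x'`.
-/

namespace Pool.Agent.U593.UA

section defs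

variable {A : Type} (B : ℕ) (rel : A → ℕ → ℕ → Prop)

/-- `apw o x m`: there is a path of weight `m` with `o` edges from a source to `x`. -/
def apw (src : ℕ → Prop) (ltr : ℕ → Option A) (ω : ℕ → ℕ → ℕ → ℕ) : ℕ → ℕ → ℕ → Prop
  | 0, x, m => src x ∧ m = 0
  | o + 1, x, m => x < B ∧ ∃ y m', apw src ltr ω o y m' ∧ (∃ a, ltr o = some a ∧ rel a y x) ∧
      m = m' + ω o y x

/-- The least weight of a path. -/
noncomputable def dd (src : ℕ → Prop) (ltr : ℕ → Option A) (ω : ℕ → ℕ → ℕ → ℕ) (o x : ℕ) : ℕ :=
  sInf {m | apw B rel src ltr ω o x m}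

/-- There are no ties. -/
def NT (src : ℕ → Prop) (ltr : ℕ → Option A) (ω : ℕ → ℕ → ℕ → ℕ) : Prop :=
  ∀ o q x x', o < B → q < B → x < B → x' < B → x ≠ x' →
    dd B rel src ltr ω o x + ω o x q ≠ dd B rel src ltr ω o x' + ω o x' q

end defs

section basic

variable {A : Type} {B : ℕ} {rel : A → ℕ → ℕ → Prop} {src src' : ℕ → Prop}
variable {ltr ltr' : ℕ → Option A} {ω ω' : ℕ → ℕ → ℕ → ℕ}

theorem apw_congr (hs : ∀ x, src x ↔ src' x) (hsB : ∀ x, src x → x < B) (o : ℕ) :
    (∀ j, j < o → ltr j = ltr' j) →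
    (∀ j y x, j < o → y < B → x < B → ω j y x = ω' j y x) → ∀ x m,
    (apw B rel src ltr ω o x m ↔ apw B rel src' ltr' ω' o x m) ∧
    (apw B rel src ltr ω o x m → x < B) := by
  induction o with
  | zero =>
    intro _ _ x m
    exact ⟨and_congr_left fun _ => hs x, fun h => hsB x h.1⟩
  | succ o ih =>
    intro h1 h2 x m
    have ih' := ih (fun j hj => h1 j (by omega)) (fun j y x hj hy hx => h2 j y x (by omega) hy hx)
    refine ⟨?_, fun h => h.1⟩
    constructor
    · rintro ⟨hx, y, m', h3, h4, h5⟩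
      have hy := (ih' y m').2 h3
      refine ⟨hx, y, m', (ih' y m').1.1 h3, ?_, ?_⟩
      · rw [← h1 o (by omega)]
        exact h4
      · rw [← h2 o y x (by omega) hy hx]
        exact h5
    · rintro ⟨hx, y, m', h3, h4, h5⟩
      have h3' := (ih' y m').1.2 h3
      have hy := (ih' y m').2 h3'
      refine ⟨hx, y, m', h3', ?_, ?_⟩
      · rw [h1 o (by omega)]
        exact h4
      · rw [h2 o y x (by omega) hy hx]
        exact h5

theorem dd_congr (hs : ∀ x, src x ↔ src' x) (hsB : ∀ x, src x → x < B) (o : ℕ)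
    (h1 : ∀ j, j < o → ltr j = ltr' j)
    (h2 : ∀ j y x, j < o → y < B → x < B → ω j y x = ω' j y x) (x : ℕ) :
    dd B rel src ltr ω o x = dd B rel src' ltr' ω' o x := by
  unfold dd
  congr 1
  ext m
  exact (apw_congr hs hsB o h1 h2 x m).1

end basic

section count

variable {A : Type} {B : ℕ} {rel : A → ℕ → ℕ → Prop} {M : ℕ}

/-- Weight functions. -/
abbrev Om (B M : ℕ) : Type := Fin B × Fin B × Fin B → Fin M

/-- The extension of a weight function. -/
def xt {B M : ℕ} (ω : Om B M) (o x y : ℕ) : ℕ :=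
  if h : o < B ∧ x < B ∧ y < B then (ω (⟨o, h.1⟩, ⟨x, h.2.1⟩, ⟨y, h.2.2⟩)).val else 0

theorem xt_eq {ω : Om B M} (o x y : Fin B) : xt ω o.val x.val y.val = (ω (o, x, y)).val := by
  unfold xt
  rw [dif_pos ⟨o.isLt, x.isLt, y.isLt⟩]

open Classical in
/-- A single tie is rare. -/
theorem tie_card (src : ℕ → Prop) (ltr : ℕ → Option A) (hsB : ∀ x, src x → x < B)
    (o q x x' : Fin B) (hx : x ≠ x') :
    (Finset.univ.filter fun ω : Om B M =>
      dd B rel src ltr (xt ω) o.val x.val + xt ω o.val x.val q.val =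
        dd B rel src ltr (xt ω) o.val x'.val + xt ω o.val x'.val q.val).card * M ≤
      Fintype.card (Om B M) := by
  set F := Finset.univ.filter fun ω : Om B M =>
      dd B rel src ltr (xt ω) o.val x.val + xt ω o.val x.val q.val =
        dd B rel src ltr (xt ω) o.val x'.val + xt ω o.val x'.val q.val with hF
  have h1 : (F ×ˢ (Finset.univ : Finset (Fin M))).card ≤ (Finset.univ : Finset (Om B M)).card := by
    refine Finset.card_le_card_of_injOn (fun p => Function.update p.1 (o, x, q) p.2)
      (fun _ _ => Finset.mem_coe.2 (Finset.mem_univ _)) ?_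
    rintro ⟨ω1, v1⟩ h1 ⟨ω2, v2⟩ h2 h3
    have h1' := (Finset.mem_filter.1 (Finset.mem_product.1 (Finset.mem_coe.1 h1)).1).2
    have h2' := (Finset.mem_filter.1 (Finset.mem_product.1 (Finset.mem_coe.1 h2)).1).2
    simp only at h1' h2' h3
    have hv : v1 = v2 := by
      have := congrFun h3 (o, x, q)
      simpa using this
    have hoff : ∀ z, z ≠ (o, x, q) → ω1 z = ω2 z := by
      intro z hz
      have := congrFun h3 z
      simpa [Function.update_of_ne hz] using this
    have hxt : ∀ j y z, j < o.val → y < B → z < B → xt ω1 j y z = xt ω2 j y z := by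
      intro j y z hj hy hz
      have hj' : j < B := by have := o.isLt; omega
      rw [xt_eq ⟨j, hj'⟩ ⟨y, hy⟩ ⟨z, hz⟩, xt_eq ⟨j, hj'⟩ ⟨y, hy⟩ ⟨z, hz⟩, hoff]
      intro h
      have : j = o.val := congrArg (fun t => t.1.val) h
      omega
    have hd : ∀ z, dd B rel src ltr (xt ω1) o.val z = dd B rel src ltr (xt ω2) o.val z :=
      fun z => dd_congr (fun _ => Iff.rfl) hsB _ (fun _ _ => rfl) hxt z
    have hx' : ω1 (o, x', q) = ω2 (o, x', q) := hoff _ (by
      intro h
      exact hx (congrArg (fun t => t.2.1) h).symm)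
    rw [hd, hd, xt_eq, xt_eq, hx'] at h1'
    rw [xt_eq, xt_eq] at h2'
    have hlast : ω1 (o, x, q) = ω2 (o, x, q) := by
      apply Fin.ext
      omega
    have hω : ω1 = ω2 := by
      funext z
      by_cases hz : z = (o, x, q)
      · rw [hz]
        exact hlast
      · exact hoff z hz
    rw [hω, hv]
  rw [Finset.card_product, Finset.card_univ, Finset.card_univ, Fintype.card_fin] at h1
  exact h1

open Classical in
/-- For one instance at most half of the weight functions are bad. -/
theorem bad_card (src : ℕ → Prop) (ltr : ℕ → Option A) (hsB : ∀ x, src x → x < B)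
    (hB : 0 < B) (hM : M = 2 * B ^ 4) :
    2 * (Finset.univ.filter fun ω : Om B M => ¬ NT B rel src ltr (xt ω)).card ≤
      Fintype.card (Om B M) := by
  set G : Fin B × Fin B × Fin B × Fin B → Finset (Om B M) := fun t =>
    if t.2.2.1 ≠ t.2.2.2 then Finset.univ.filter fun ω : Om B M =>
      dd B rel src ltr (xt ω) t.1.val t.2.2.1.val + xt ω t.1.val t.2.2.1.val t.2.1.val =
        dd B rel src ltr (xt ω) t.1.val t.2.2.2.val + xt ω t.1.val t.2.2.2.val t.2.1.val
    else ∅ with hG
  have hsub : (Finset.univ.filter fun ω : Om B M => ¬ NT B rel src ltr (xt ω)) ⊆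
      (Finset.univ : Finset (Fin B × Fin B × Fin B × Fin B)).biUnion G := by
    intro ω hω
    have h1 := (Finset.mem_filter.1 hω).2
    unfold NT at h1
    push Not at h1
    obtain ⟨o, q, x, x', ho, hq, hx, hx', hne, heq⟩ := h1
    rw [Finset.mem_biUnion]
    refine ⟨(⟨o, ho⟩, ⟨q, hq⟩, ⟨x, hx⟩, ⟨x', hx'⟩), Finset.mem_univ _, ?_⟩
    rw [hG]
    simp only
    rw [if_pos (by
      intro h
      exact hne (congrArg Fin.val h)), Finset.mem_filter]
    exact ⟨Finset.mem_univ _, heq⟩
  have hcard : ∀ t, (G t).card * M ≤ Fintype.card (Om B M) := by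
    intro t
    rw [hG]
    simp only
    by_cases h : t.2.2.1 ≠ t.2.2.2
    · rw [if_pos h]
      exact tie_card src ltr hsB t.1 t.2.1 t.2.2.1 t.2.2.2 h
    · rw [if_neg h]
      simp
  have h2 := (Finset.card_le_card hsub).trans Finset.card_biUnion_le
  have h3 : (∑ t : Fin B × Fin B × Fin B × Fin B, (G t).card) * M ≤
      B ^ 4 * Fintype.card (Om B M) := by
    rw [Finset.sum_mul]
    refine (Finset.sum_le_sum fun t _ => hcard t).trans ?_
    rw [Finset.sum_const, Finset.card_univ, smul_eq_mul]
    apply Nat.mul_le_mul_right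
    simp only [Fintype.card_prod, Fintype.card_fin]
    apply le_of_eq
    ring
  have h4 : 0 < B ^ 4 := Nat.pow_pos hB
  generalize (Finset.univ.filter fun ω : Om B M => ¬ NT B rel src ltr (xt ω)).card = X at *
  generalize (∑ t : Fin B × Fin B × Fin B × Fin B, (G t).card) = Y at *
  generalize Fintype.card (Om B M) = Z at *
  have h5 : B ^ 4 * (2 * X) ≤ B ^ 4 * Z := by
    calc B ^ 4 * (2 * X) = X * M := by rw [hM]; ring
      _ ≤ Y * M := Nat.mul_le_mul_right _ h2
      _ ≤ B ^ 4 * Z := h3
  exact Nat.le_of_mul_le_mul_left h5 h4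

/-- Instances. -/
abbrev Ins (A : Type) (B : ℕ) : Type := (Fin B → Option A) × Set (Fin B)

/-- The sources of an instance. -/
def isrc {B : ℕ} (I : Ins A B) (x : ℕ) : Prop := ∃ h : x < B, (⟨x, h⟩ : Fin B) ∈ I.2

/-- The letters of an instance. -/
def iltr {B : ℕ} (I : Ins A B) (j : ℕ) : Option A := if h : j < B then I.1 ⟨j, h⟩ else none

open Classical in
/-- Few weight functions are sufficient for a finite set of instances. -/
theorem cover (hB : 0 < B) (hM : M = 2 * B ^ 4) (k : ℕ) : ∀ J : Finset (Ins A B),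
    J.card < 2 ^ k → ∃ Ws : ℕ → Om B M, ∀ I ∈ J, ∃ i, i < k ∧
      NT B rel (isrc I) (iltr I) (xt (Ws i)) := by
  have hMpos : 0 < M := by
    rw [hM]
    positivity
  have hne : Nonempty (Om B M) := ⟨fun _ => ⟨0, hMpos⟩⟩
  induction k with
  | zero =>
    intro J hJ
    have : J = ∅ := by
      rw [← Finset.card_eq_zero]
      omega
    subst this
    exact ⟨fun _ => hne.some, fun I hI => absurd hI (Finset.notMem_empty _)⟩
  | succ k ih =>
    intro J hJ
    obtain ⟨ω, _, hω⟩ : ∃ ω ∈ (Finset.univ : Finset (Om B M)),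
        2 * (J.filter fun I => ¬ NT B rel (isrc I) (iltr I) (xt ω)).card ≤ J.card := by
      apply Finset.exists_le_of_sum_le (Finset.univ_nonempty)
      rw [← Finset.mul_sum]
      simp only [Finset.card_filter]
      rw [Finset.sum_comm, Finset.mul_sum, Finset.sum_const, Finset.card_univ, smul_eq_mul,
        Nat.mul_comm (Fintype.card (Om B M)) J.card, ← smul_eq_mul, ← Finset.sum_const]
      refine Finset.sum_le_sum fun I _ => ?_
      rw [← Finset.card_filter]
      refine bad_card (isrc I) (iltr I) ?_ hB hM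
      rintro x ⟨h, _⟩
      exact h
    have h2 : (J.filter fun I => ¬ NT B rel (isrc I) (iltr I) (xt ω)).card < 2 ^ k := by
      rw [pow_succ] at hJ
      omega
    obtain ⟨Ws, hWs⟩ := ih _ h2
    refine ⟨fun i => if i = 0 then ω else Ws (i - 1), ?_⟩
    intro I hI
    by_cases h3 : NT B rel (isrc I) (iltr I) (xt ω)
    · exact ⟨0, Nat.succ_pos _, by simpa using h3⟩
    · obtain ⟨i, hi, h4⟩ := hWs I (Finset.mem_filter.2 ⟨hI, h3⟩)
      refine ⟨i + 1, by omega, ?_⟩
      simpa using h4

end count

/-- **Isolating weights.** -/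
theorem exists_weights {A : Type} [Finite A] (B : ℕ) (hB : 0 < B) (rel : A → ℕ → ℕ → Prop) :
    ∃ Wt : ℕ → ℕ → ℕ → ℕ → ℕ, (∀ i o x y, Wt i o x y ≤ 2 * B ^ 4) ∧
      ∀ (src : ℕ → Prop) (ltr : ℕ → Option A), (∀ x, src x → x < B) →
        ∃ i, i < B * (Nat.card A + 1) + 1 ∧ NT B rel src ltr (Wt i) := by
  classical
  have := Fintype.ofFinite A
  have : Fintype (Ins A B) := Fintype.ofFinite _
  obtain ⟨Ws, hWs⟩ := cover (A := A) (rel := rel) (M := 2 * B ^ 4) hB rfl
    (B * (Nat.card A + 1) + 1) Finset.univ (by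
      rw [Finset.card_univ]
      have h1 : Fintype.card (Ins A B) = (Nat.card A + 1) ^ B * 2 ^ B := by
        rw [← Nat.card_eq_fintype_card, Nat.card_prod, Nat.card_fun, Finite.card_option]
        have h2 : Nat.card (Set (Fin B)) = 2 ^ B := by
          have : Nat.card (Set (Fin B)) = Nat.card (Fin B → Prop) := rfl
          rw [this, Nat.card_fun]
          simp
        rw [h2]
        simp
      rw [h1]
      have h3 : Nat.card A + 1 ≤ 2 ^ Nat.card A := Nat.lt_two_pow_self
      calc (Nat.card A + 1) ^ B * 2 ^ B ≤ (2 ^ Nat.card A) ^ B * 2 ^ B :=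
            Nat.mul_le_mul_right _ (Nat.pow_le_pow_left h3 _)
        _ = 2 ^ (B * (Nat.card A + 1)) := by
            rw [← pow_mul, ← pow_add]
            congr 1
            ring
        _ < 2 ^ (B * (Nat.card A + 1) + 1) := Nat.pow_lt_pow_right (by norm_num) (by omega))
  refine ⟨fun i => xt (Ws i), ?_, ?_⟩
  · intro i o x y
    by_cases h : o < B ∧ x < B ∧ y < B
    · show xt (Ws i) o x y ≤ _
      unfold xt
      rw [dif_pos h]
      exact (Fin.isLt _).le
    · show xt (Ws i) o x y ≤ _
      unfold xt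
      rw [dif_neg h]
      exact Nat.zero_le _
  · intro src ltr hsB
    obtain ⟨i, hi, h1⟩ := hWs (fun j => ltr j.val, {x | src x.val}) (Finset.mem_univ _)
    refine ⟨i, hi, ?_⟩
    intro o q x x' ho hq hx hx' hne
    have h2 := h1 o q x x' ho hq hx hx' hne
    have hd : ∀ z, dd B rel src ltr (xt (Ws i)) o z =
        dd B rel (isrc ((fun j => ltr j.val, {x | src x.val}) : Ins A B))
          (iltr ((fun j => ltr j.val, {x | src x.val}) : Ins A B)) (xt (Ws i)) o z := by
      intro z
      refine dd_congr ?_ hsB o ?_ (fun _ _ _ _ _ _ => rfl) z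
      · intro y
        constructor
        · intro h
          exact ⟨hsB y h, h⟩
        · rintro ⟨_, h⟩
          exact h
      · intro j hj
        unfold iltr
        rw [dif_pos (by omega)]
    rw [hd, hd]
    exact h2

end Pool.Agent.U593.UA
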