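import Mathlib
import Pool.Agent.U593.UA.Iso
import Pool.Agent.U593.TW.Gen

set_option autoImplicit false

/-!
# Unambiguous inductive counting

The walk counts, after each letter, the reachable states of a one-way automaton with the states
`0, ..., B - 1` and adds up the least weights of paths to them, for a weight function without ties.
-/

namespace Pool.Agent.U593.UA

open Pool.Agent.H630R2.LA Pool.Agent.U593.SV Pool.Agent.U593.TW Relation

/-- The registers: `i` is the index of the weight function, `z` the number of the states reachable at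
the beginning of the block, `o` the number of the processed letters of the block, `c` and `s` the
number of the reachable states and the sum of the least weights, `q` the next state to be examined for
`o + 1`, `c'` and `s'` the number and the sum for the states below `q`; `p` is the next state in the
enumeration, `k` and `g` the number and the sum for the states found so far, `e` the least weight of
a path to `q` found so far plus one (`0` if there is none) and `bad` tells whether there is a tie. -/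
@[ext] structure Rv where
  i : ℕ
  z : ℕ
  o : ℕ
  c : ℕ
  s : ℕ
  q : ℕ
  c' : ℕ
  s' : ℕ
  p : ℕ
  k : ℕ
  g : ℕ
  e : ℕ
  bad : Bool

/-- The states of the walk. -/
inductive Wu : Type
  | rw : Wu
  | main (v : Rv) : Wu
  | goL (v : Rv) (m : ℕ) : Wu
  | sL (v : Rv) (s m : ℕ) : Wu
  | sR (v : Rv) (s m : ℕ) : Wu
  | goR (v : Rv) (y m l : ℕ) : Wu
  | kL (v : Rv) (m : ℕ) : Wu
  | kR (v : Rv) (m : ℕ) : Wu
  | back (v : Rv) (m : ℕ) : Wu
  | zl (f : Bool) (o m : ℕ) : Wu
  | zc (f : Bool) (o m : ℕ) : Wu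
  | zr (f : Bool) (m : ℕ) : Wu
  | fin (f : Bool) : Wu

/-- The enumeration is complete. -/
def Dn (B : ℕ) (v : Rv) : Prop := v.p = B ∧ v.k = v.c ∧ v.g = v.s

/-- The registers for the next `q`. -/
def nx (v : Rv) : Rv := ⟨v.i, v.z, v.o, v.c, v.s, v.q + 1,
  v.c' + (if v.e = 0 then 0 else 1), v.s' + (v.e - 1), 0, 0, 0, 0, false⟩

/-- The registers after one more letter. -/
def av (B : ℕ) (v : Rv) : Rv := if v.o + 1 < B then
  ⟨v.i, v.z, v.o + 1, v.c', v.s', 0, 0, 0, 0, 0, 0, 0, false⟩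
  else ⟨0, v.c', 0, v.c', 0, 0, 0, 0, 0, 0, 0, 0, false⟩

section defs

variable {A : Type} (B : ℕ) (rel : A → ℕ → ℕ → Prop) (p0 : ℕ) (facc : ℕ → Prop)
variable (Wt : ℕ → ℕ → ℕ → ℕ → ℕ) (KK : ℕ)

open Classical in
/-- The new values of `e` and `bad` when the state `x` is found with a path of weight `l`. -/
noncomputable def up (σ : Sym (WS A)) (v : Rv) (x l : ℕ) : ℕ × Bool :=
  if ∃ a b, σ = .sym (.mark a b) ∧ rel a x v.q then
    (if v.e = 0 ∨ l + Wt v.i v.o x v.q + 1 < v.e then (l + Wt v.i v.o x v.q + 1, v.bad)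
    else if l + Wt v.i v.o x v.q + 1 = v.e then (v.e, true) else (v.e, v.bad))
  else if σ = .rm ∧ facc x then (1, v.bad) else (v.e, v.bad)

/-- Stationary steps. -/
inductive EU (σ : Sym (WS A)) : Wu → Wu → Prop
  | skip (v : Rv) : v.p < B → v.q < B → EU σ (.main v) (.main { v with p := v.p + 1 })
  | yes (v : Rv) : v.p < B → v.q < B → EU σ (.main v) (.goL v (v.o + 1))
  | choose (v : Rv) (s : ℕ) : s < B → IsMark σ → EU σ (.goL v 0) (.sL v s s)
  | bit (v : Rv) (s : ℕ) : bitS σ = true → EU σ (.sL v s 0) (.sR v s s)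
  | done (v : Rv) (l : ℕ) : EU σ (.goR v v.p 0 l)
      (.main { v with p := v.p + 1, k := v.k + 1, g := v.g + l,
                      e := (up rel facc Wt σ v v.p l).1, bad := (up rel facc Wt σ v v.p l).2 })
  | next (v : Rv) : Dn B v → v.q < B → v.bad = false → v.o + 1 < B → IsMark σ →
      EU σ (.main v) (.main (nx v))
  | look (v : Rv) : Dn B v → v.q < B → v.bad = false → v.o + 1 = B → IsMark σ →
      EU σ (.main v) (.kL v v.q)
  | cmp (v : Rv) : (bitS σ = true ↔ v.e ≠ 0) → EU σ (.kL v 0) (.kR v v.q)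
  | ret (v : Rv) : EU σ (.kR v 0) (.main (nx v))
  | again (v : Rv) : Dn B v → v.q < B → v.bad = true → v.i + 1 < KK → IsMark σ →
      EU σ (.main v) (.back v v.o)
  | restart (v : Rv) :
      EU σ (.back v 0) (.main ⟨v.i + 1, v.z, 0, v.z, 0, 0, 0, 0, 0, 0, 0, 0, false⟩)
  | stopz (v : Rv) (f : Bool) : Dn B v → v.q < B → σ = .rm → (f = true ↔ v.e ≠ 0) →
      EU σ (.main v) (.zl f v.o v.o)
  | chk (f : Bool) (o m : ℕ) : bitS σ = false → EU σ (.zc f o m) (.zl f o m)
  | turn (f : Bool) (o : ℕ) : EU σ (.zl f o 0) (.zr f o)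

/-- Moves. -/
inductive MU1 (σ : Sym (WS A)) : Wu → Wu → Bool → Prop
  | rwL : IsMark σ → MU1 σ .rw .rw false
  | rwR : σ = .lm → MU1 σ .rw (.main ⟨0, 1, 0, 1, 0, 0, 0, 0, 0, 0, 0, 0, false⟩) true
  | goL (v : Rv) (m : ℕ) : MU1 σ (.goL v (m + 1)) (.goL v m) false
  | goL0 (v : Rv) : σ = .lm → MU1 σ (.goL v 0) (.goR v p0 v.o 0) true
  | sL (v : Rv) (s m : ℕ) : MU1 σ (.sL v s (m + 1)) (.sL v s m) false
  | sR (v : Rv) (s m : ℕ) : MU1 σ (.sR v s (m + 1)) (.sR v s m) true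
  | sR0 (v : Rv) (s : ℕ) : MU1 σ (.sR v s 0) (.goR v s v.o 0) true
  | goR (v : Rv) (y m l z : ℕ) : z < B → (∃ a b, σ = .sym (.mark a b) ∧ rel a y z) →
      MU1 σ (.goR v y (m + 1) l) (.goR v z m (l + Wt v.i (v.o - (m + 1)) y z)) true
  | kL (v : Rv) (m : ℕ) : MU1 σ (.kL v (m + 1)) (.kL v m) false
  | kR (v : Rv) (m : ℕ) : MU1 σ (.kR v (m + 1)) (.kR v m) true
  | back (v : Rv) (m : ℕ) : MU1 σ (.back v (m + 1)) (.back v m) false
  | adv (v : Rv) : v.q = B → IsMark σ → MU1 σ (.main v) (.main (av B v)) true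
  | zl (f : Bool) (o m : ℕ) : MU1 σ (.zl f o (m + 1)) (.zc f o m) false
  | zr (f : Bool) (m : ℕ) : MU1 σ (.zr f (m + 1)) (.zr f m) true
  | zr0 (f : Bool) : σ = .rm → MU1 σ (.zr f 0) (.fin f) true

/-- Weighted paths in the block that begins at `t0`. -/
def pw (w : List A) (i t0 : ℕ) : ℕ → ℕ → ℕ → Prop :=
  apw B rel (nr B rel p0 w t0) (fun j => w[t0 + j]?) (Wt i)

/-- The least weights. -/
noncomputable def de (w : List A) (i t0 o x : ℕ) : ℕ :=
  dd B rel (nr B rel p0 w t0) (fun j => w[t0 + j]?) (Wt i) o x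

/-- The sum of the least weights. -/
noncomputable def sm (w : List A) (i t0 o p : ℕ) : ℕ :=
  ∑ x ∈ Finset.range p, de B rel p0 Wt w i t0 o x

/-- The last edge of a lightest path to `u` is unique. -/
def MU (w : List A) (i t0 j u : ℕ) : Prop := ∀ y y' m m',
  pw B rel p0 Wt w i t0 j y m → pw B rel p0 Wt w i t0 j y' m' →
  (∃ a, w[t0 + j]? = some a ∧ rel a y u) → (∃ a, w[t0 + j]? = some a ∧ rel a y' u) →
  m + Wt i j y u = de B rel p0 Wt w i t0 (j + 1) u →
  m' + Wt i j y' u = de B rel p0 Wt w i t0 (j + 1) u → y = y'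

/-- The meaning of `e` and `bad`. -/
structure BP (edge : ℕ → Prop) (W : ℕ → ℕ) (f : ℕ → Option ℕ) (e : ℕ) (bad : Bool) : Prop where
  h0 : e = 0 → ∀ x m, f x = some m → ¬ edge x
  h1 : e ≠ 0 → ∃ x m, f x = some m ∧ edge x ∧ e = m + W x + 1
  h2 : ∀ x m, f x = some m → edge x → e ≤ m + W x + 1
  h3 : bad = false → ∀ x x' m m', f x = some m → f x' = some m' → edge x → edge x' →
    m + W x + 1 = e → m' + W x' + 1 = e → x = x'
  h4 : bad = true → ∃ x x' m m', x ≠ x' ∧ f x = some m ∧ f x' = some m' ∧ m + W x = m' + W x'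

/-- The meaning of `e` and `bad`, depending on the position. -/
def Mp (w : List A) (t0 : ℕ) (v : Rv) (f : ℕ → Option ℕ) : Prop :=
  (∀ a, w[t0 + v.o]? = some a → BP (fun x => rel a x v.q) (fun x => Wt v.i v.o x v.q) f v.e
    v.bad) ∧
  (t0 + v.o = w.length → (v.e ≠ 0 ↔ ∃ x m, f x = some m ∧ facc x))

/-- The meaning of the registers. -/
structure MV (w : List A) (b : ℕ → Bool) (v : Rv) (t0 : ℕ) : Prop where
  hL : B ∣ t0
  ho : v.o < B
  hn : t0 + v.o ≤ w.length
  hG : Gd B rel p0 w b t0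
  hi : v.i < KK
  hz : v.z = cn B rel p0 w t0 B
  hc : v.c = cn B rel p0 w (t0 + v.o) B
  hs : v.s = sm B rel p0 Wt w v.i t0 v.o B
  hU : ∀ j, j < v.o → ∀ u, u < B → MU B rel p0 Wt w v.i t0 j u
  hq : v.q ≤ B
  hc' : v.c' = cn B rel p0 w (t0 + v.o + 1) v.q
  hs' : v.s' = sm B rel p0 Wt w v.i t0 (v.o + 1) v.q
  hU' : ∀ u, u < v.q → MU B rel p0 Wt w v.i t0 v.o u
  hb : v.o + 1 = B → ∀ q', q' < v.q →
    (b (t0 + v.o + 1 - q') = true ↔ nr B rel p0 w (t0 + v.o + 1) q')
  hp : v.p ≤ B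
  hX : ∃ f : ℕ → Option ℕ, (∀ x, v.p ≤ x → f x = none) ∧
    (∀ x m, f x = some m → pw B rel p0 Wt w v.i t0 v.o x m) ∧
    v.k = ((Finset.range v.p).filter fun x => f x ≠ none).card ∧
    v.g = ∑ x ∈ Finset.range v.p, (f x).getD 0 ∧ Mp rel facc Wt w t0 v f

/-- The input is accepted. -/
def AccN (w : List A) : Prop := ∃ p, facc p ∧ nr B rel p0 w w.length p

/-- The right annotation. -/
noncomputable def bt (w : List A) (j : ℕ) : Bool :=
  if j ≤ w.length / B * B then bOK B rel p0 w j else false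

/-- The annotation is right. -/
def RB (w : List A) (b : ℕ → Bool) : Prop := ∀ j, 1 ≤ j → j ≤ w.length → b j = bt B rel p0 w j

/-- The invariant of the walk. -/
def JU (w : List A) (b : ℕ → Bool) : Wu → ℕ → Prop
  | .rw, x => x ≤ w.length
  | .main v, x => ∃ t0, x = t0 + v.o + 1 ∧ MV B rel p0 facc Wt KK w b v t0
  | .goL v m, x => ∃ t0, MV B rel p0 facc Wt KK w b v t0 ∧ v.p < B ∧ x = t0 + m ∧ m ≤ v.o + 1
  | .sL v s m, x => ∃ t0, MV B rel p0 facc Wt KK w b v t0 ∧ v.p < B ∧ s < B ∧ 1 ≤ t0 ∧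
      x + s = t0 + m ∧ m ≤ s
  | .sR v s m, x => ∃ t0, MV B rel p0 facc Wt KK w b v t0 ∧ v.p < B ∧ nr B rel p0 w t0 s ∧
      x + m = t0 ∧ m ≤ s
  | .goR v y m l, x => ∃ t0, MV B rel p0 facc Wt KK w b v t0 ∧ v.p < B ∧ m ≤ v.o ∧
      pw B rel p0 Wt w v.i t0 (v.o - m) y l ∧ x + m = t0 + v.o + 1
  | .kL v m, x => ∃ t0, MV B rel p0 facc Wt KK w b v t0 ∧ Dn B v ∧ v.q < B ∧ v.bad = false ∧
      v.o + 1 = B ∧ t0 + v.o < w.length ∧ x + v.q = t0 + v.o + 1 + m ∧ m ≤ v.q
  | .kR v m, x => ∃ t0, MV B rel p0 facc Wt KK w b v t0 ∧ Dn B v ∧ v.q < B ∧ v.bad = false ∧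
      v.o + 1 = B ∧ t0 + v.o < w.length ∧ (b (t0 + v.o + 1 - v.q) = true ↔ v.e ≠ 0) ∧
      x + m = t0 + v.o + 1 ∧ m ≤ v.q
  | .back v m, x => ∃ t0, MV B rel p0 facc Wt KK w b v t0 ∧ v.i + 1 < KK ∧ x = t0 + m + 1 ∧
      m ≤ v.o
  | .zl f o m, x => (f = true ↔ AccN B rel p0 facc w) ∧ ∃ t0, B ∣ t0 ∧ o < B ∧
      t0 + o = w.length ∧ Gd B rel p0 w b t0 ∧ x = t0 + m + 1 ∧ m ≤ o ∧
      ∀ j, x ≤ j → j ≤ w.length → b j = false
  | .zc f o m, x => (f = true ↔ AccN B rel p0 facc w) ∧ ∃ t0, B ∣ t0 ∧ o < B ∧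
      t0 + o = w.length ∧ Gd B rel p0 w b t0 ∧ x = t0 + m + 1 ∧ m < o ∧
      ∀ j, x < j → j ≤ w.length → b j = false
  | .zr f m, x => (f = true ↔ AccN B rel p0 facc w) ∧ RB B rel p0 w b ∧
      x + m = w.length + 1 ∧ m ≤ B
  | .fin f, _ => (f = true ↔ AccN B rel p0 facc w) ∧ RB B rel p0 w b

end defs

/-! ### The meaning of `e` and `bad` -/

section bp

variable {edge : ℕ → Prop} {W : ℕ → ℕ} {f : ℕ → Option ℕ} {e : ℕ} {bad : Bool}

theorem upd_some {x l y m : ℕ} (h : Function.update f x (some l) y = some m) :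
    (y = x ∧ m = l) ∨ (y ≠ x ∧ f y = some m) := by
  by_cases hy : y = x
  · subst hy
    rw [Function.update_self] at h
    exact Or.inl ⟨rfl, (Option.some.inj h).symm⟩
  · rw [Function.update_of_ne hy] at h
    exact Or.inr ⟨hy, h⟩

theorem upd_of {x l y m : ℕ} (hx : f x = none) (h : f y = some m) :
    Function.update f x (some l) y = some m := by
  have hy : y ≠ x := by
    rintro rfl
    rw [hx] at h
    exact absurd h (by simp)
  rw [Function.update_of_ne hy]
  exact h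

theorem BP.empty : BP edge W (fun _ => none) 0 false where
  h0 := fun _ _ _ h => absurd h (by simp)
  h1 := fun h => absurd rfl h
  h2 := fun _ _ h => absurd h (by simp)
  h3 := fun _ _ _ _ _ h => absurd h (by simp)
  h4 := fun h => absurd h (by simp)

theorem BP.addNo (h : BP edge W f e bad) {x l : ℕ} (hx : f x = none) (he : ¬ edge x) :
    BP edge W (Function.update f x (some l)) e bad where
  h0 := by
    intro h1 y m h2
    rcases upd_some h2 with ⟨rfl, _⟩ | ⟨_, h3⟩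
    · exact he
    · exact h.h0 h1 y m h3
  h1 := by
    intro h1
    obtain ⟨y, m, h2, h3, h4⟩ := h.h1 h1
    exact ⟨y, m, upd_of hx h2, h3, h4⟩
  h2 := by
    intro y m h2 h3
    rcases upd_some h2 with ⟨rfl, _⟩ | ⟨_, h4⟩
    · exact absurd h3 he
    · exact h.h2 y m h4 h3
  h3 := by
    intro hb y y' m m' h1 h2 h3 h4 h5 h6
    rcases upd_some h1 with ⟨rfl, _⟩ | ⟨_, h1⟩
    · exact absurd h3 he
    · rcases upd_some h2 with ⟨rfl, _⟩ | ⟨_, h2⟩
      · exact absurd h4 he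
      · exact h.h3 hb y y' m m' h1 h2 h3 h4 h5 h6
  h4 := by
    intro hb
    obtain ⟨y, y', m, m', h1, h2, h3, h4⟩ := h.h4 hb
    exact ⟨y, y', m, m', h1, upd_of hx h2, upd_of hx h3, h4⟩

theorem BP.addLt (h : BP edge W f e bad) {x l : ℕ} (hx : f x = none) (he : edge x)
    (hlt : e = 0 ∨ l + W x + 1 < e) :
    BP edge W (Function.update f x (some l)) (l + W x + 1) bad where
  h0 := fun h => absurd h (by omega)
  h1 := fun _ => ⟨x, l, by rw [Function.update_self], he, rfl⟩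
  h2 := by
    intro y m h2 h3
    rcases upd_some h2 with ⟨rfl, rfl⟩ | ⟨_, h4⟩
    · exact le_rfl
    · have h5 := h.h2 y m h4 h3
      rcases hlt with h6 | h6
      · exact absurd h3 (h.h0 h6 y m h4)
      · omega
  h3 := by
    intro hb y y' m m' h1 h2 h3 h4 h5 h6
    have key : ∀ y m, f y = some m → edge y → m + W y + 1 = l + W x + 1 → False := by
      intro y m h1 h3 h5
      rcases hlt with h7 | h7
      · exact h.h0 h7 y m h1 h3
      · have := h.h2 y m h1 h3
        omega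
    rcases upd_some h1 with ⟨rfl, _⟩ | ⟨_, h1⟩
    · rcases upd_some h2 with ⟨rfl, _⟩ | ⟨_, h2⟩
      · rfl
      · exact (key y' m' h2 h4 h6).elim
    · exact (key y m h1 h3 h5).elim
  h4 := by
    intro hb
    obtain ⟨y, y', m, m', h1, h2, h3, h4⟩ := h.h4 hb
    exact ⟨y, y', m, m', h1, upd_of hx h2, upd_of hx h3, h4⟩

theorem BP.addEq (h : BP edge W f e bad) {x l : ℕ} (hx : f x = none) (he : edge x)
    (h0 : e ≠ 0) (heq : l + W x + 1 = e) :
    BP edge W (Function.update f x (some l)) e true where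
  h0 := fun h => absurd h h0
  h1 := fun _ => ⟨x, l, by rw [Function.update_self], he, heq.symm⟩
  h2 := by
    intro y m h2 h3
    rcases upd_some h2 with ⟨rfl, rfl⟩ | ⟨_, h4⟩
    · exact heq.ge
    · exact h.h2 y m h4 h3
  h3 := fun h => absurd h (by simp)
  h4 := by
    intro _
    obtain ⟨y, m, h1, h2, h3⟩ := h.h1 h0
    refine ⟨x, y, l, m, ?_, by rw [Function.update_self], upd_of hx h1, by omega⟩
    rintro rfl
    rw [hx] at h1
    exact absurd h1 (by simp)

theorem BP.addGt (h : BP edge W f e bad) {x l : ℕ} (hx : f x = none)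
    (h0 : e ≠ 0) (hgt : e < l + W x + 1) :
    BP edge W (Function.update f x (some l)) e bad where
  h0 := fun h => absurd h h0
  h1 := by
    intro h1
    obtain ⟨y, m, h2, h3, h4⟩ := h.h1 h1
    exact ⟨y, m, upd_of hx h2, h3, h4⟩
  h2 := by
    intro y m h2 h3
    rcases upd_some h2 with ⟨rfl, rfl⟩ | ⟨_, h4⟩
    · exact hgt.le
    · exact h.h2 y m h4 h3
  h3 := by
    intro hb y y' m m' h1 h2 h3 h4 h5 h6
    rcases upd_some h1 with ⟨rfl, rfl⟩ | ⟨_, h1⟩
    · omega
    · rcases upd_some h2 with ⟨rfl, rfl⟩ | ⟨_, h2⟩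
      · omega
      · exact h.h3 hb y y' m m' h1 h2 h3 h4 h5 h6
  h4 := by
    intro hb
    obtain ⟨y, y', m, m', h1, h2, h3, h4⟩ := h.h4 hb
    exact ⟨y, y', m, m', h1, upd_of hx h2, upd_of hx h3, h4⟩

end bp

section basic

variable {A : Type} {B : ℕ} {rel : A → ℕ → ℕ → Prop} {p0 : ℕ} {facc : ℕ → Prop}
variable {Wt : ℕ → ℕ → ℕ → ℕ → ℕ} {KK : ℕ} {w : List A} {b : ℕ → Bool}

theorem pw_zero {i t0 x m : ℕ} : pw B rel p0 Wt w i t0 0 x m ↔ nr B rel p0 w t0 x ∧ m = 0 :=
  Iff.rfl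

theorem pw_succ {i t0 o x m : ℕ} : pw B rel p0 Wt w i t0 (o + 1) x m ↔ x < B ∧ ∃ y m',
    pw B rel p0 Wt w i t0 o y m' ∧ (∃ a, w[t0 + o]? = some a ∧ rel a y x) ∧
    m = m' + Wt i o y x := Iff.rfl

theorem pw_nr {i t0 : ℕ} (o : ℕ) : ∀ x m, pw B rel p0 Wt w i t0 o x m →
    nr B rel p0 w (t0 + o) x := by
  induction o with
  | zero => exact fun x m h => h.1
  | succ o ih =>
    rintro x m ⟨hx, y, m', h1, ⟨a, h2, h3⟩, _⟩
    exact ⟨hx, y, ih y m' h1, a, h2, h3⟩

theorem nr_pw {i t0 : ℕ} (o : ℕ) : ∀ x, nr B rel p0 w (t0 + o) x →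
    ∃ m, pw B rel p0 Wt w i t0 o x m := by
  induction o with
  | zero => exact fun x h => ⟨0, h, rfl⟩
  | succ o ih =>
    rintro x ⟨hx, y, h1, a, h2, h3⟩
    obtain ⟨m, h4⟩ := ih y h1
    exact ⟨m + Wt i o y x, hx, y, m, h4, ⟨a, h2, h3⟩, rfl⟩

theorem de_mem {i t0 o x : ℕ} (h : nr B rel p0 w (t0 + o) x) :
    pw B rel p0 Wt w i t0 o x (de B rel p0 Wt w i t0 o x) :=
  Nat.sInf_mem (nr_pw o x h)

theorem de_le {i t0 o x m : ℕ} (h : pw B rel p0 Wt w i t0 o x m) :
    de B rel p0 Wt w i t0 o x ≤ m := Nat.sInf_le h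

theorem de_none {i t0 o x : ℕ} (h : ¬ nr B rel p0 w (t0 + o) x) :
    de B rel p0 Wt w i t0 o x = 0 := by
  have h1 : {m | pw B rel p0 Wt w i t0 o x m} = ∅ := by
    ext m
    simp only [Set.mem_setOf_eq, Set.mem_empty_iff_false, iff_false]
    exact fun h2 => h (pw_nr o x m h2)
  unfold de dd
  unfold pw at h1
  rw [h1, Nat.sInf_empty]

theorem pw_bd {i t0 Mx : ℕ} (hM : ∀ i o x y, Wt i o x y ≤ Mx) (o : ℕ) :
    ∀ x m, pw B rel p0 Wt w i t0 o x m → m ≤ o * Mx := by
  induction o with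
  | zero =>
    rintro x m ⟨_, rfl⟩
    exact Nat.zero_le _
  | succ o ih =>
    rintro x m ⟨hx, y, m', h1, _, rfl⟩
    have h2 := ih y m' h1
    have h3 := hM i o y x
    have h4 : (o + 1) * Mx = o * Mx + Mx := by ring
    omega

theorem de_bd {i t0 Mx : ℕ} (hM : ∀ i o x y, Wt i o x y ≤ Mx) (o x : ℕ) :
    de B rel p0 Wt w i t0 o x ≤ o * Mx := by
  by_cases h : nr B rel p0 w (t0 + o) x
  · exact pw_bd hM o x _ (de_mem h)
  · rw [de_none h]
    exact Nat.zero_le _

theorem de_zero {i t0 x : ℕ} : de B rel p0 Wt w i t0 0 x = 0 := by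
  have h1 := de_bd (B := B) (rel := rel) (p0 := p0) (Wt := Wt) (w := w) (i := i) (t0 := t0)
    (Mx := de B rel p0 Wt w i t0 0 x)
  by_cases h : nr B rel p0 w (t0 + 0) x
  · exact (de_mem (Wt := Wt) (i := i) h).2
  · exact de_none h

theorem sm_zero {i t0 p : ℕ} : sm B rel p0 Wt w i t0 0 p = 0 :=
  Finset.sum_eq_zero fun _ _ => de_zero

theorem sm_succ {i t0 o p : ℕ} : sm B rel p0 Wt w i t0 o (p + 1) =
    sm B rel p0 Wt w i t0 o p + de B rel p0 Wt w i t0 o p := Finset.sum_range_succ _ _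

theorem sm_empty {i t0 o : ℕ} : sm B rel p0 Wt w i t0 o 0 = 0 := rfl

theorem cn_empty {t : ℕ} : cn B rel p0 w t 0 = 0 := by simp [cn]

theorem cn_mono {t p p' : ℕ} (h : p ≤ p') : cn B rel p0 w t p ≤ cn B rel p0 w t p' := by
  classical
  unfold cn
  apply Finset.card_le_card
  apply Finset.filter_subset_filter
  exact Finset.range_subset_range.2 h

theorem cn_le {t p : ℕ} : cn B rel p0 w t p ≤ p := by
  classical
  unfold cn
  refine (Finset.card_filter_le _ _).trans ?_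
  rw [Finset.card_range]

/-- The found states are among the reachable ones. -/
theorem cnt_le {i t0 o p : ℕ} {f : ℕ → Option ℕ}
    (hf : ∀ x m, f x = some m → pw B rel p0 Wt w i t0 o x m) :
    ((Finset.range p).filter fun x => f x ≠ none).card ≤ cn B rel p0 w (t0 + o) p := by
  classical
  unfold cn
  apply Finset.card_le_card
  intro x hx
  rw [Finset.mem_filter] at hx ⊢
  refine ⟨hx.1, ?_⟩
  obtain ⟨m, hm⟩ := Option.ne_none_iff_exists'.1 hx.2
  exact pw_nr o x m (hf x m hm)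

/-- If the numbers agree then all the reachable states are found, and the sum is at least the sum
of the least weights. -/
theorem found_all {i t0 o p : ℕ} {f : ℕ → Option ℕ}
    (hf : ∀ x m, f x = some m → pw B rel p0 Wt w i t0 o x m)
    (hk : cn B rel p0 w (t0 + o) p ≤ ((Finset.range p).filter fun x => f x ≠ none).card) :
    (∀ x, x < p → nr B rel p0 w (t0 + o) x → ∃ m, f x = some m) ∧
    sm B rel p0 Wt w i t0 o p ≤ ∑ x ∈ Finset.range p, (f x).getD 0 := by
  classical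
  have h1 : ∀ x, x < p → nr B rel p0 w (t0 + o) x → ∃ m, f x = some m := by
    have h2 : ((Finset.range p).filter fun x => f x ≠ none) ⊆
        (Finset.range p).filter (nr B rel p0 w (t0 + o)) := by
      intro x hx
      rw [Finset.mem_filter] at hx ⊢
      refine ⟨hx.1, ?_⟩
      obtain ⟨m, hm⟩ := Option.ne_none_iff_exists'.1 hx.2
      exact pw_nr o x m (hf x m hm)
    have h3 := Finset.eq_of_subset_of_card_le h2 hk
    intro x hx hn
    have h4 : x ∈ (Finset.range p).filter (nr B rel p0 w (t0 + o)) := by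
      rw [Finset.mem_filter, Finset.mem_range]
      exact ⟨hx, hn⟩
    rw [← h3, Finset.mem_filter] at h4
    exact Option.ne_none_iff_exists'.1 h4.2
  refine ⟨h1, ?_⟩
  refine Finset.sum_le_sum fun x hx => ?_
  rw [Finset.mem_range] at hx
  by_cases hn : nr B rel p0 w (t0 + o) x
  · obtain ⟨m, hm⟩ := h1 x hx hn
    rw [hm]
    exact de_le (hf x m hm)
  · rw [de_none hn]
    exact Nat.zero_le _

/-- If the numbers and the sums agree then the weights are the least ones. -/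
theorem found_exact {i t0 o p : ℕ} {f : ℕ → Option ℕ}
    (hf : ∀ x m, f x = some m → pw B rel p0 Wt w i t0 o x m)
    (hk : cn B rel p0 w (t0 + o) p ≤ ((Finset.range p).filter fun x => f x ≠ none).card)
    (hg : ∑ x ∈ Finset.range p, (f x).getD 0 ≤ sm B rel p0 Wt w i t0 o p) :
    ∀ x, x < p → (∀ m, f x = some m → m = de B rel p0 Wt w i t0 o x) ∧
      (nr B rel p0 w (t0 + o) x → f x = some (de B rel p0 Wt w i t0 o x)) := by
  obtain ⟨h1, h2⟩ := found_all hf hk
  have h3 : ∀ x ∈ Finset.range p, de B rel p0 Wt w i t0 o x ≤ (f x).getD 0 := by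
    intro x hx
    rw [Finset.mem_range] at hx
    by_cases hn : nr B rel p0 w (t0 + o) x
    · obtain ⟨m, hm⟩ := h1 x hx hn
      rw [hm]
      exact de_le (hf x m hm)
    · rw [de_none hn]
      exact Nat.zero_le _
  have h4 := (Finset.sum_eq_sum_iff_of_le h3).1 (le_antisymm h2 hg)
  intro x hx
  have h5 := h4 x (Finset.mem_range.2 hx)
  refine ⟨?_, ?_⟩
  · intro m hm
    rw [hm] at h5
    exact h5.symm
  · intro hn
    obtain ⟨m, hm⟩ := h1 x hx hn
    rw [hm] at h5 ⊢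
    rw [h5]
    rfl

end basic

end Pool.Agent.U593.UA
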