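import Mathlib
import Pool.Agent.U593.UA.Walk

set_option autoImplicit false

/-! The walk is sound. -/

namespace Pool.Agent.U593.UA

open Pool.Agent.H630R2.LA Pool.Agent.U593.SV Pool.Agent.U593.TW Relation

variable {A : Type} {B : ℕ} {rel : A → ℕ → ℕ → Prop} {p0 : ℕ} {facc : ℕ → Prop}
variable {Wt : ℕ → ℕ → ℕ → ℕ → ℕ} {KK : ℕ} {w : List A} {b : ℕ → Bool}

theorem up_mark {a : A} {c : Bool} {v : Rv} {x l : ℕ} (h : rel a x v.q) :
    up rel facc Wt (.sym (.mark a c)) v x l =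
      if v.e = 0 ∨ l + Wt v.i v.o x v.q + 1 < v.e then (l + Wt v.i v.o x v.q + 1, v.bad)
      else if l + Wt v.i v.o x v.q + 1 = v.e then (v.e, true) else (v.e, v.bad) := by
  unfold up
  rw [if_pos ⟨a, c, rfl, h⟩]

theorem up_nomark {a : A} {c : Bool} {v : Rv} {x l : ℕ} (h : ¬ rel a x v.q) :
    up rel facc Wt (.sym (.mark a c)) v x l = (v.e, v.bad) := by
  unfold up
  rw [if_neg, if_neg]
  · rintro ⟨h1, _⟩
    exact absurd h1 (by simp)
  · rintro ⟨a', c', h1, h2⟩
    simp only [Sym.sym.injEq, WS.mark.injEq] at h1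
    rw [← h1.1] at h2
    exact h h2

theorem up_rm {v : Rv} {x l : ℕ} (h : facc x) :
    up rel facc Wt (.rm : Sym (WS A)) v x l = (1, v.bad) := by
  unfold up
  rw [if_neg, if_pos ⟨rfl, h⟩]
  rintro ⟨a', c', h1, _⟩
  exact absurd h1 (by simp)

theorem up_norm {v : Rv} {x l : ℕ} (h : ¬ facc x) :
    up rel facc Wt (.rm : Sym (WS A)) v x l = (v.e, v.bad) := by
  unfold up
  rw [if_neg, if_neg]
  · rintro ⟨_, h1⟩
    exact h h1
  · rintro ⟨a', c', h1, _⟩
    exact absurd h1 (by simp)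

/-- The registers when one more state is found. -/
noncomputable def dv (rel : A → ℕ → ℕ → Prop) (facc : ℕ → Prop) (Wt : ℕ → ℕ → ℕ → ℕ → ℕ)
    (σ : Sym (WS A)) (v : Rv) (l : ℕ) : Rv :=
  { v with p := v.p + 1, k := v.k + 1, g := v.g + l,
           e := (up rel facc Wt σ v v.p l).1, bad := (up rel facc Wt σ v v.p l).2 }

theorem Mp.add {t0 : ℕ} {v : Rv} {f : ℕ → Option ℕ} (hn : t0 + v.o ≤ w.length)
    (h : Mp rel facc Wt w t0 v f) (hf : f v.p = none) (l : ℕ) :
    Mp rel facc Wt w t0 (dv rel facc Wt (full w b (t0 + v.o + 1)) v l)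
      (Function.update f v.p (some l)) := by
  refine ⟨?_, ?_⟩
  · intro a ha
    have ha' : w[t0 + v.o]? = some a := ha
    have h1 : t0 + v.o < w.length := by
      by_contra hcon
      rw [List.getElem?_eq_none (by omega)] at ha'
      exact absurd ha' (by simp)
    have h2 := h.1 a ha'
    have h3 : full w b (t0 + v.o + 1) = .sym (.mark a (b (t0 + v.o + 1))) := by
      simp only [full, ha']
    show BP (fun x => rel a x v.q) (fun x => Wt v.i v.o x v.q) _
      (up rel facc Wt (full w b (t0 + v.o + 1)) v v.p l).1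
      (up rel facc Wt (full w b (t0 + v.o + 1)) v v.p l).2
    rw [h3]
    by_cases h4 : rel a v.p v.q
    · rw [up_mark h4]
      by_cases h5 : v.e = 0 ∨ l + Wt v.i v.o v.p v.q + 1 < v.e
      · rw [if_pos h5]
        exact h2.addLt hf h4 h5
      · rw [if_neg h5]
        push Not at h5
        by_cases h6 : l + Wt v.i v.o v.p v.q + 1 = v.e
        · rw [if_pos h6]
          exact h2.addEq hf h4 h5.1 h6
        · rw [if_neg h6]
          exact h2.addGt hf h5.1 (by show v.e < l + Wt v.i v.o v.p v.q + 1; omega)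
    · rw [up_nomark h4]
      exact h2.addNo hf h4
  · intro h1
    have h1' : t0 + v.o = w.length := h1
    have h2 := h.2 h1'
    have h3 : full w b (t0 + v.o + 1) = .rm := by
      rw [h1']
      exact full_last
    show (up rel facc Wt (full w b (t0 + v.o + 1)) v v.p l).1 ≠ 0 ↔ _
    rw [h3]
    by_cases h4 : facc v.p
    · rw [up_rm h4]
      refine ⟨fun _ => ⟨v.p, l, by rw [Function.update_self], h4⟩, fun _ => by simp⟩
    · rw [up_norm h4]
      show v.e ≠ 0 ↔ _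
      rw [h2]
      constructor
      · rintro ⟨x, m, h5, h6⟩
        exact ⟨x, m, upd_of hf h5, h6⟩
      · rintro ⟨x, m, h5, h6⟩
        rcases upd_some h5 with ⟨rfl, _⟩ | ⟨_, h7⟩
        · exact absurd h6 h4
        · exact ⟨x, m, h7, h6⟩

theorem MV.skip {v : Rv} {t0 : ℕ} (h : MV B rel p0 facc Wt KK w b v t0) (hp : v.p < B) :
    MV B rel p0 facc Wt KK w b { v with p := v.p + 1 } t0 := by
  refine ⟨h.hL, h.ho, h.hn, h.hG, h.hi, h.hz, h.hc, h.hs, h.hU, h.hq, h.hc', h.hs', h.hU', h.hb,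
    hp, ?_⟩
  obtain ⟨f, h1, h2, h3, h4, h5⟩ := h.hX
  have h6 : f v.p = none := h1 v.p le_rfl
  refine ⟨f, ?_, h2, ?_, ?_, h5⟩
  · intro x hx
    have hx' : v.p + 1 ≤ x := hx
    exact h1 x (by omega)
  · show v.k = ((Finset.range (v.p + 1)).filter fun x => f x ≠ none).card
    rw [h3, Finset.range_add_one, Finset.filter_insert, if_neg (by simp [h6])]
  · show v.g = ∑ x ∈ Finset.range (v.p + 1), (f x).getD 0
    rw [Finset.sum_range_succ, h6, ← h4]
    rfl

theorem MV.done {v : Rv} {t0 l : ℕ} (h : MV B rel p0 facc Wt KK w b v t0) (hp : v.p < B)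
    (hl : pw B rel p0 Wt w v.i t0 v.o v.p l) :
    MV B rel p0 facc Wt KK w b (dv rel facc Wt (full w b (t0 + v.o + 1)) v l) t0 := by
  refine ⟨h.hL, h.ho, h.hn, h.hG, h.hi, h.hz, h.hc, h.hs, h.hU, h.hq, h.hc', h.hs', h.hU', h.hb,
    hp, ?_⟩
  obtain ⟨f, h1, h2, h3, h4, h5⟩ := h.hX
  have h6 : f v.p = none := h1 v.p le_rfl
  refine ⟨Function.update f v.p (some l), ?_, ?_, ?_, ?_, h5.add h.hn h6 l⟩
  · intro x hx
    have hx' : v.p + 1 ≤ x := hx
    rw [Function.update_of_ne (by omega)]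
    exact h1 x (by omega)
  · intro x m hx
    rcases upd_some hx with ⟨rfl, rfl⟩ | ⟨_, h7⟩
    · exact hl
    · exact h2 x m h7
  · show v.k + 1 = ((Finset.range (v.p + 1)).filter
      fun x => Function.update f v.p (some l) x ≠ none).card
    rw [h3, Finset.range_add_one, Finset.filter_insert, if_pos (by simp),
      Finset.card_insert_of_notMem (by simp)]
    congr 2
    apply Finset.filter_congr
    intro x hx
    rw [Finset.mem_range] at hx
    rw [Function.update_of_ne (by omega)]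
  · show v.g + l = ∑ x ∈ Finset.range (v.p + 1), (Function.update f v.p (some l) x).getD 0
    rw [Finset.sum_range_succ, Function.update_self, h4]
    congr 1
    refine Finset.sum_congr rfl fun x hx => ?_
    rw [Finset.mem_range] at hx
    rw [Function.update_of_ne (by omega)]

/-- When the enumeration is complete all states are found with their least weights. -/
theorem MV.exact (h0 : p0 < B) {v : Rv} {t0 : ℕ} (h : MV B rel p0 facc Wt KK w b v t0)
    (hD : Dn B v) : ∃ f : ℕ → Option ℕ,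
      (∀ x m, f x = some m → nr B rel p0 w (t0 + v.o) x ∧ m = de B rel p0 Wt w v.i t0 v.o x) ∧
      (∀ x, nr B rel p0 w (t0 + v.o) x → f x = some (de B rel p0 Wt w v.i t0 v.o x)) ∧
      Mp rel facc Wt w t0 v f := by
  obtain ⟨f, h1, h2, h3, h4, h5⟩ := h.hX
  obtain ⟨h6, h7, h8⟩ := hD
  have hk : cn B rel p0 w (t0 + v.o) v.p ≤ ((Finset.range v.p).filter fun x => f x ≠ none).card := by
    rw [← h3, h7, h.hc, h6]
  have hg : ∑ x ∈ Finset.range v.p, (f x).getD 0 ≤ sm B rel p0 Wt w v.i t0 v.o v.p := by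
    rw [← h4, h8, h.hs, h6]
  have h9 := found_exact h2 hk hg
  rw [h6] at h9 h1
  refine ⟨f, ?_, ?_, h5⟩
  · intro x m hm
    refine ⟨pw_nr _ _ _ (h2 x m hm), ?_⟩
    by_cases hx : x < B
    · exact (h9 x hx).1 m hm
    · rw [h1 x (by omega)] at hm
      exact absurd hm (by simp)
  · intro x hx
    exact (h9 x (nr_lt h0 hx)).2 hx

/-- The result of an enumeration. -/
theorem MV.res (h0 : p0 < B) {v : Rv} {t0 : ℕ} (h : MV B rel p0 facc Wt KK w b v t0)
    (hD : Dn B v) (hq : v.q < B) (hn : t0 + v.o < w.length) :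
    (v.e ≠ 0 ↔ nr B rel p0 w (t0 + v.o + 1) v.q) ∧
    (v.e ≠ 0 → v.e = de B rel p0 Wt w v.i t0 (v.o + 1) v.q + 1) ∧
    (v.bad = false → MU B rel p0 Wt w v.i t0 v.o v.q) ∧
    (v.bad = true → ∃ x x', x ≠ x' ∧ x < B ∧ x' < B ∧
      de B rel p0 Wt w v.i t0 v.o x + Wt v.i v.o x v.q =
        de B rel p0 Wt w v.i t0 v.o x' + Wt v.i v.o x' v.q) := by
  obtain ⟨f, h1, h2, h3⟩ := h.exact h0 hD
  have ha : w[t0 + v.o]? = some w[t0 + v.o] := List.getElem?_eq_getElem hn
  have hbp := h3.1 _ ha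
  have hedge : ∀ {y}, (∃ a, w[t0 + v.o]? = some a ∧ rel a y v.q) → rel w[t0 + v.o] y v.q := by
    rintro y ⟨a, h4, h5⟩
    rw [ha] at h4
    cases h4
    exact h5
  have hA : v.e ≠ 0 ↔ nr B rel p0 w (t0 + v.o + 1) v.q := by
    constructor
    · intro he
      obtain ⟨x, m, h4, h5, _⟩ := hbp.h1 he
      exact ⟨hq, x, (h1 x m h4).1, _, ha, h5⟩
    · rintro ⟨_, x, h4, h5⟩ he
      exact hbp.h0 he x _ (h2 x h4) (hedge h5)
  have hB : v.e ≠ 0 → v.e = de B rel p0 Wt w v.i t0 (v.o + 1) v.q + 1 := by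
    intro he
    apply le_antisymm
    · have h4 := de_mem (Wt := Wt) (i := v.i) (o := v.o + 1) (t0 := t0)
        (by rw [← Nat.add_assoc]; exact hA.1 he)
      obtain ⟨_, y, m', h5, h6, h7⟩ := pw_succ.1 h4
      have h8 := hbp.h2 y _ (h2 y (pw_nr _ _ _ h5)) (hedge h6)
      have h9 := de_le h5
      omega
    · obtain ⟨x, m, h4, h5, h6⟩ := hbp.h1 he
      have h7 := h1 x m h4
      have h8 : pw B rel p0 Wt w v.i t0 (v.o + 1) v.q (m + Wt v.i v.o x v.q) := by
        refine pw_succ.2 ⟨hq, x, m, ?_, ⟨_, ha, h5⟩, rfl⟩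
        rw [h7.2]
        exact de_mem h7.1
      have h9 := de_le h8
      omega
  refine ⟨hA, hB, ?_, ?_⟩
  · intro hbad y y' m m' h4 h4' h5 h5' h6 h6'
    have hnr : nr B rel p0 w (t0 + v.o + 1) v.q := ⟨hq, y, pw_nr _ _ _ h4, h5⟩
    have he := hA.2 hnr
    have he' := hB he
    have key : ∀ y m, pw B rel p0 Wt w v.i t0 v.o y m →
        (∃ a, w[t0 + v.o]? = some a ∧ rel a y v.q) →
        m + Wt v.i v.o y v.q = de B rel p0 Wt w v.i t0 (v.o + 1) v.q →
        de B rel p0 Wt w v.i t0 v.o y = m := by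
      intro y m h7 h8 h9
      apply le_antisymm (de_le h7)
      have h10 : pw B rel p0 Wt w v.i t0 (v.o + 1) v.q
          (de B rel p0 Wt w v.i t0 v.o y + Wt v.i v.o y v.q) :=
        pw_succ.2 ⟨hq, y, _, de_mem (pw_nr _ _ _ h7), h8, rfl⟩
      have h11 := de_le h10
      omega
    refine hbp.h3 hbad y y' _ _ (h2 y (pw_nr _ _ _ h4)) (h2 y' (pw_nr _ _ _ h4')) (hedge h5)
      (hedge h5') ?_ ?_
    · rw [key y m h4 h5 h6]
      omega
    · rw [key y' m' h4' h5' h6']
      omega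
  · intro hbad
    obtain ⟨x, x', m, m', h4, h5, h6, h7⟩ := hbp.h4 hbad
    have h8 := h1 x m h5
    have h9 := h1 x' m' h6
    refine ⟨x, x', h4, nr_lt h0 h8.1, nr_lt h0 h9.1, ?_⟩
    rw [← h8.2, ← h9.2]
    exact h7

/-- The result of the last enumeration. -/
theorem MV.last (h0 : p0 < B) {v : Rv} {t0 : ℕ} (h : MV B rel p0 facc Wt KK w b v t0)
    (hD : Dn B v) (hn : t0 + v.o = w.length) : v.e ≠ 0 ↔ AccN B rel p0 facc w := by
  obtain ⟨f, h1, h2, h3⟩ := h.exact h0 hD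
  rw [h3.2 hn]
  unfold AccN
  rw [← hn]
  constructor
  · rintro ⟨x, m, h4, h5⟩
    exact ⟨x, h5, (h1 x m h4).1⟩
  · rintro ⟨x, h4, h5⟩
    exact ⟨x, _, h2 x h5, h4⟩

theorem Mp_empty {t0 : ℕ} {v : Rv} (he : v.e = 0) (hb : v.bad = false) :
    Mp rel facc Wt w t0 v (fun _ => none) := by
  refine ⟨fun a _ => ?_, fun _ => ?_⟩
  · rw [he, hb]
    exact BP.empty
  · rw [he]
    simp

open Classical in
theorem cn_add {t q : ℕ} : cn B rel p0 w t (q + 1) =
    cn B rel p0 w t q + (if nr B rel p0 w t q then 1 else 0) := cn_succ t q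

theorem MV.nx (h0 : p0 < B) {v : Rv} {t0 : ℕ} (h : MV B rel p0 facc Wt KK w b v t0)
    (hD : Dn B v) (hq : v.q < B) (hbad : v.bad = false) (hn : t0 + v.o < w.length)
    (hbit : v.o + 1 = B → (b (t0 + v.o + 1 - v.q) = true ↔ v.e ≠ 0)) :
    MV B rel p0 facc Wt KK w b (nx v) t0 := by
  classical
  obtain ⟨r1, r2, r3, _⟩ := h.res h0 hD hq hn
  refine ⟨h.hL, h.ho, h.hn, h.hG, h.hi, h.hz, h.hc, h.hs, h.hU, hq, ?_, ?_, ?_, ?_,
    Nat.zero_le _, ⟨fun _ => none, fun _ _ => rfl, fun _ _ h => absurd h (by simp), ?_, ?_,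
      Mp_empty rfl rfl⟩⟩
  · show v.c' + (if v.e = 0 then 0 else 1) = cn B rel p0 w (t0 + v.o + 1) (v.q + 1)
    rw [cn_add, h.hc']
    by_cases he : v.e = 0
    · rw [if_pos he, if_neg (fun h1 => (r1.2 h1) he)]
    · rw [if_neg he, if_pos (r1.1 he)]
  · show v.s' + (v.e - 1) = sm B rel p0 Wt w v.i t0 (v.o + 1) (v.q + 1)
    rw [sm_succ, h.hs']
    congr 1
    by_cases he : v.e = 0
    · rw [he, de_none (t0 := t0) (o := v.o + 1) (fun h1 => (r1.2 h1) he)]
    · rw [r2 he]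
      rfl
  · intro u hu
    have hu' : u < v.q + 1 := hu
    rcases Nat.lt_or_ge u v.q with h1 | h1
    · exact h.hU' u h1
    · have h2 : u = v.q := by omega
      rw [h2]
      exact r3 hbad
  · intro ho q' hq'
    have hq'' : q' < v.q + 1 := hq'
    rcases Nat.lt_or_ge q' v.q with h1 | h1
    · exact h.hb ho q' h1
    · have h2 : q' = v.q := by omega
      rw [h2]
      exact (hbit ho).trans r1
  · show 0 = ((Finset.range 0).filter _).card
    simp
  · show 0 = ∑ x ∈ Finset.range 0, _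
    simp

/-- The registers at the beginning of a layer. -/
theorem MV.mk0 {i z o c s t0 : ℕ} (hL : B ∣ t0) (ho : o < B) (hn : t0 + o ≤ w.length)
    (hG : Gd B rel p0 w b t0) (hi : i < KK) (hz : z = cn B rel p0 w t0 B)
    (hc : c = cn B rel p0 w (t0 + o) B) (hs : s = sm B rel p0 Wt w i t0 o B)
    (hU : ∀ j, j < o → ∀ u, u < B → MU B rel p0 Wt w i t0 j u) :
    MV B rel p0 facc Wt KK w b ⟨i, z, o, c, s, 0, 0, 0, 0, 0, 0, 0, false⟩ t0 := by
  refine ⟨hL, ho, hn, hG, hi, hz, hc, hs, hU, Nat.zero_le _, cn_empty.symm, sm_empty.symm,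
    fun u hu => absurd hu (Nat.not_lt_zero _), fun _ q' hq' => absurd hq' (Nat.not_lt_zero _),
    Nat.zero_le _, ⟨fun _ => none, fun _ _ => rfl, fun _ _ h => absurd h (by simp), ?_, ?_,
      Mp_empty rfl rfl⟩⟩
  · show 0 = ((Finset.range 0).filter _).card
    simp
  · show 0 = ∑ x ∈ Finset.range 0, _
    simp

theorem Gd_next {t0 : ℕ} (hB : 0 < B) (hL : B ∣ t0) (hG : Gd B rel p0 w b t0)
    (h : ∀ q', q' < B → (b (t0 + B - q') = true ↔ nr B rel p0 w (t0 + B) q')) :
    Gd B rel p0 w b (t0 + B) := by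
  intro j hj hjt r hr
  rcases Nat.lt_or_ge t0 (j * B) with h1 | h1
  · have h2 : j * B = t0 + B := by
      obtain ⟨i, rfl⟩ := hL
      have h3 : B * i = i * B := Nat.mul_comm _ _
      have h4 : i < j := by
        by_contra hcon
        have : j * B ≤ i * B := Nat.mul_le_mul_right _ (by omega)
        omega
      have h5 : (i + 1) * B ≤ j * B := Nat.mul_le_mul_right _ h4
      have h6 : (i + 1) * B = i * B + B := by ring
      omega
    rw [h2]
    exact h r hr
  · exact hG j hj h1 r hr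

theorem MV.av (hB : 0 < B) {v : Rv} {t0 : ℕ} (h : MV B rel p0 facc Wt KK w b v t0)
    (hq : v.q = B) (hn : t0 + v.o < w.length) :
    ∃ t1, t1 + (av B v).o = t0 + v.o + 1 ∧ MV B rel p0 facc Wt KK w b (av B v) t1 := by
  have hc' := h.hc'
  have hs' := h.hs'
  rw [hq] at hc' hs'
  by_cases h1 : v.o + 1 < B
  · have h2 : UA.av B v = ⟨v.i, v.z, v.o + 1, v.c', v.s', 0, 0, 0, 0, 0, 0, 0, false⟩ := by
      unfold UA.av
      rw [if_pos h1]
    rw [h2]
    refine ⟨t0, rfl, MV.mk0 h.hL h1 (by omega) h.hG h.hi h.hz hc' hs' ?_⟩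
    intro j hj u hu
    rcases Nat.lt_or_ge j v.o with h3 | h3
    · exact h.hU j h3 u hu
    · have h4 : j = v.o := by omega
      rw [h4]
      exact h.hU' u (by omega)
  · have h2 : UA.av B v = ⟨0, v.c', 0, v.c', 0, 0, 0, 0, 0, 0, 0, 0, false⟩ := by
      unfold UA.av
      rw [if_neg h1]
    have ho := h.ho
    have h3 : v.o + 1 = B := by omega
    have h4 : t0 + v.o + 1 = t0 + B := by omega
    rw [h2]
    rw [h4] at hc'
    have hi := h.hi
    refine ⟨t0 + B, by show t0 + B + 0 = t0 + v.o + 1; omega, MV.mk0 (Nat.dvd_add h.hL (dvd_refl _)) hB (by omega) ?_ (by omega)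
      hc' hc' sm_zero.symm (fun j hj => absurd hj (Nat.not_lt_zero _))⟩
    refine Gd_next hB h.hL h.hG fun q' hq' => ?_
    have h5 := h.hb h3 q' (by omega)
    rw [h4] at h5
    exact h5

/-- The verified bits are right. -/
theorem RB_of {t0 o : ℕ} (hL : B ∣ t0) (ho : o < B) (hn : t0 + o = w.length)
    (hG : Gd B rel p0 w b t0) (hz : ∀ j, t0 + 1 ≤ j → j ≤ w.length → b j = false) :
    RB B rel p0 w b := by
  have hB : 0 < B := by omega
  have h1 : w.length / B * B = t0 := by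
    obtain ⟨i, rfl⟩ := hL
    rw [← hn, Nat.mul_comm B i, Nat.add_comm, Nat.add_mul_div_right _ _ hB, Nat.div_eq_of_lt ho,
      Nat.zero_add]
  intro j hj1 hj2
  unfold bt
  rw [h1]
  rcases Nat.lt_or_ge t0 j with h2 | h2
  · rw [if_neg (by omega)]
    exact hz j h2 hj2
  · rw [if_pos h2]
    have h3 := Nat.div_add_mod (j + (B - 1)) B
    have h4 := Nat.mod_lt (j + (B - 1)) hB
    have h5 : (j + (B - 1)) / B * B = B * ((j + (B - 1)) / B) := Nat.mul_comm _ _
    set J := (j + (B - 1)) / B with hJ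
    have h6 : 1 ≤ J := by
      rw [hJ, Nat.le_div_iff_mul_le hB]
      omega
    have h7 : J * B ≤ t0 := by
      obtain ⟨i, rfl⟩ := hL
      have h8 : B * i = i * B := Nat.mul_comm _ _
      have h9 : J ≤ i := by
        by_contra hcon
        have : (i + 1) * B ≤ J * B := Nat.mul_le_mul_right _ (by omega)
        have h10 : (i + 1) * B = i * B + B := by ring
        omega
      rw [h8]
      exact Nat.mul_le_mul_right _ h9
    have h8 := hG J h6 h7 (J * B - j) (by omega)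
    have h9 : J * B - (J * B - j) = j := by omega
    rw [h9] at h8
    have h10 := bOK_iff (B := B) (rel := rel) (p0 := p0) (w := w) h6
      (show J * B - j < B by omega)
    rw [h9] at h10
    rw [Bool.eq_iff_iff, h8, h10]

theorem J_EU (h0 : p0 < B) {x : ℕ} {s s' : Wu}
    (hE : EU B rel facc Wt KK (full w b x) s s')
    (hJ : JU B rel p0 facc Wt KK w b s x) : JU B rel p0 facc Wt KK w b s' x := by
  have hB : 0 < B := by omega
  cases hE with
  | skip v hv hq =>
    obtain ⟨t0, hx, h⟩ := hJ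
    exact ⟨t0, hx, h.skip hv⟩
  | yes v hv hq =>
    obtain ⟨t0, hx, h⟩ := hJ
    exact ⟨t0, h, hv, by omega, le_rfl⟩
  | choose v s hs hm =>
    obtain ⟨t0, h, hv, hx, _⟩ := hJ
    have h1 := (isMark_full.1 hm).1
    exact ⟨t0, h, hv, hs, by omega, by omega, le_rfl⟩
  | bit v s hb =>
    obtain ⟨t0, h, hv, hs, ht, hx, _⟩ := hJ
    refine ⟨t0, h, hv, ?_, by omega, le_rfl⟩
    obtain ⟨h1, h2, h3⟩ := bitS_full hb
    obtain ⟨i, hi⟩ := h.hL
    have h4 : t0 = i * B := by rw [hi]; exact Nat.mul_comm _ _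
    have h5 : 1 ≤ i := by
      rcases Nat.eq_zero_or_pos i with h6 | h6
      · rw [h6, Nat.zero_mul] at h4
        omega
      · exact h6
    have h6 := h.hG i h5 h4.ge s hs
    rw [← h4] at h6
    have h7 : t0 - s = x := by omega
    rw [h7] at h6
    exact h6.1 h3
  | done v l =>
    obtain ⟨t0, h, hv, _, hpw, hx⟩ := hJ
    have hx' : x = t0 + v.o + 1 := hx
    subst hx'
    exact ⟨t0, rfl, h.done hv hpw⟩
  | next v hD hq hbad ho hm =>
    obtain ⟨t0, hx, h⟩ := hJ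
    subst hx
    have h1 := (isMark_full.1 hm).2
    exact ⟨t0, rfl, h.nx h0 hD hq hbad (by omega) (fun h2 => by omega)⟩
  | look v hD hq hbad ho hm =>
    obtain ⟨t0, hx, h⟩ := hJ
    subst hx
    have h1 := (isMark_full.1 hm).2
    exact ⟨t0, h, hD, hq, hbad, ho, by omega, rfl, le_rfl⟩
  | cmp v hb =>
    obtain ⟨t0, h, hD, hq, hbad, ho, hn, hx, _⟩ := hJ
    refine ⟨t0, h, hD, hq, hbad, ho, hn, ?_, by omega, le_rfl⟩
    have h3 : t0 + v.o + 1 - v.q = x := by omega
    rw [h3, ← hb, bitS_mark (by omega) (by omega)]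
  | ret v =>
    obtain ⟨t0, h, hD, hq, hbad, ho, hn, hb, hx, _⟩ := hJ
    exact ⟨t0, hx, h.nx h0 hD hq hbad hn (fun _ => hb)⟩
  | again v hD hq hbad hi hm =>
    obtain ⟨t0, hx, h⟩ := hJ
    exact ⟨t0, h, hi, by omega, le_rfl⟩
  | restart v =>
    obtain ⟨t0, h, hi, hx, _⟩ := hJ
    have hn := h.hn
    exact ⟨t0, hx, MV.mk0 h.hL hB (by omega) h.hG hi h.hz h.hz sm_zero.symm
      (fun j hj => absurd hj (Nat.not_lt_zero _))⟩
  | stopz v f hD hq hσ hf =>
    obtain ⟨t0, hx, h⟩ := hJ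
    subst hx
    have h1 := full_eq_rm hσ
    have h2 := h.hn
    have h3 : t0 + v.o = w.length := by omega
    refine ⟨hf.trans (h.last h0 hD h3), t0, h.hL, h.ho, h3, h.hG, rfl, le_rfl, ?_⟩
    intro j hj1 hj2
    omega
  | chk f o m hb =>
    obtain ⟨hf, t0, hL, ho, hn, hG, hx, hm, hz⟩ := hJ
    refine ⟨hf, t0, hL, ho, hn, hG, hx, hm.le, ?_⟩
    intro j hj1 hj2
    rcases Nat.lt_or_ge x j with h1 | h1
    · exact hz j h1 hj2
    · have h2 : j = x := by omega
      subst h2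
      rw [bitS_mark (by omega) (by omega)] at hb
      exact hb
  | turn f o =>
    obtain ⟨hf, t0, hL, ho, hn, hG, hx, hm, hz⟩ := hJ
    refine ⟨hf, RB_of hL ho hn hG ?_, by omega, ho.le⟩
    intro j hj1 hj2
    exact hz j (by omega) hj2

theorem cn_init (h0 : p0 < B) : cn B rel p0 w 0 B = 1 := by
  classical
  have h2 : (Finset.range B).filter (nr B rel p0 w 0) = {p0} := by
    ext z
    rw [Finset.mem_filter, Finset.mem_range, Finset.mem_singleton]
    constructor
    · rintro ⟨_, h⟩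
      exact h
    · rintro rfl
      exact ⟨h0, rfl⟩
  unfold cn
  rw [h2, Finset.card_singleton]

theorem J_MU (h0 : p0 < B) (hK : 0 < KK) {x y : ℕ} {s s' : Wu} {d : Bool}
    (hM : MU1 B rel p0 Wt (full w b x) s s' d) (hr : d = true → y = x + 1)
    (hl : d = false → y + 1 = x)
    (hJ : JU B rel p0 facc Wt KK w b s x) : JU B rel p0 facc Wt KK w b s' y := by
  have hB : 0 < B := by omega
  cases hM with
  | rwL _ =>
    have h1 := hl rfl
    have h2 : x ≤ w.length := hJ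
    show y ≤ w.length
    omega
  | rwR h =>
    have h1 := full_eq_lm.1 h
    have h2 := hr rfl
    refine ⟨0, by show y = 0 + 0 + 1; omega, MV.mk0 (dvd_zero _) hB (Nat.zero_le _) ?_ hK
      (cn_init h0).symm (cn_init h0).symm sm_zero.symm
      (fun j hj => absurd hj (Nat.not_lt_zero _))⟩
    intro j hj hjt r _
    have : 1 * B ≤ j * B := Nat.mul_le_mul_right _ hj
    omega
  | goL v m =>
    obtain ⟨t0, h, hv, hx, hm⟩ := hJ
    have h2 := hl rfl
    exact ⟨t0, h, hv, by omega, by omega⟩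
  | goL0 v h =>
    obtain ⟨t0, h1, hv, hx, hm⟩ := hJ
    have h3 := full_eq_lm.1 h
    have h4 := hr rfl
    have h5 : t0 = 0 := by omega
    refine ⟨t0, h1, hv, le_rfl, ?_, by omega⟩
    rw [Nat.sub_self, h5]
    exact ⟨rfl, rfl⟩
  | sL v s m =>
    obtain ⟨t0, h, hv, hs, ht, hx, hm⟩ := hJ
    have h2 := hl rfl
    exact ⟨t0, h, hv, hs, ht, by omega, by omega⟩
  | sR v s m =>
    obtain ⟨t0, h, hv, hs, hx, hm⟩ := hJ
    have h2 := hr rfl
    exact ⟨t0, h, hv, hs, by omega, by omega⟩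
  | sR0 v s =>
    obtain ⟨t0, h, hv, hs, hx, hm⟩ := hJ
    have h2 := hr rfl
    refine ⟨t0, h, hv, le_rfl, ?_, by omega⟩
    rw [Nat.sub_self]
    exact ⟨hs, rfl⟩
  | goR v u m l z hz h =>
    obtain ⟨t0, h1, hv, hm, hpw, hx⟩ := hJ
    have h4 := hr rfl
    obtain ⟨a, c, h5, h6⟩ := h
    have hmk : IsMark (full w b x) := ⟨a, c, h5⟩
    obtain ⟨h7, h8⟩ := isMark_full.1 hmk
    refine ⟨t0, h1, hv, by omega, ?_, by omega⟩
    have h9 : v.o - m = (v.o - (m + 1)) + 1 := by omega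
    rw [h9]
    refine pw_succ.2 ⟨hz, u, l, hpw, ⟨a, ?_, h6⟩, rfl⟩
    have h10 : t0 + (v.o - (m + 1)) = x - 1 := by omega
    rw [h10]
    rw [full_mark h7 h8] at h5
    simp only [Sym.sym.injEq, WS.mark.injEq] at h5
    rw [List.getElem?_eq_getElem (by omega), h5.1]
  | kL v m =>
    obtain ⟨t0, h, hD, hq, hbad, ho, hn, hx, _⟩ := hJ
    have h2 := hl rfl
    exact ⟨t0, h, hD, hq, hbad, ho, hn, by omega, by omega⟩
  | kR v m =>
    obtain ⟨t0, h, hD, hq, hbad, ho, hn, hb, hx, _⟩ := hJ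
    have h2 := hr rfl
    exact ⟨t0, h, hD, hq, hbad, ho, hn, hb, by omega, by omega⟩
  | back v m =>
    obtain ⟨t0, h, hi, hx, _⟩ := hJ
    have h2 := hl rfl
    exact ⟨t0, h, hi, by omega, by omega⟩
  | adv v hq hm =>
    obtain ⟨t0, hx, h⟩ := hJ
    subst hx
    have h1 := (isMark_full.1 hm).2
    have h2 := hr rfl
    obtain ⟨t1, h3, h4⟩ := h.av hB hq (by omega)
    exact ⟨t1, by omega, h4⟩
  | zl f o m =>
    obtain ⟨hf, t0, hL, ho, hn, hG, hx, hm, hz⟩ := hJ
    have h2 := hl rfl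
    refine ⟨hf, t0, hL, ho, hn, hG, by omega, by omega, ?_⟩
    intro j hj1 hj2
    exact hz j (by omega) hj2
  | zr f m =>
    obtain ⟨hf, hR, hx, hm⟩ := hJ
    have h2 := hr rfl
    exact ⟨hf, hR, by omega, by omega⟩
  | zr0 f _ =>
    obtain ⟨hf, hR, _⟩ := hJ
    exact ⟨hf, hR⟩

end Pool.Agent.U593.UA
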