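import Mathlib
import Pool.Agent.U593.UA.Sound

set_option autoImplicit false

/-! The walk is complete. -/

namespace Pool.Agent.U593.UA

open Pool.Agent.H630R2.LA Pool.Agent.U593.SV Pool.Agent.U593.TW Relation

section paths

variable {A : Type} (B : ℕ) (rel : A → ℕ → ℕ → Prop) (Wt : ℕ → ℕ → ℕ → ℕ → ℕ)

/-- Weighted paths with given ends. -/
def pth (w : List A) (i t0 : ℕ) : ℕ → ℕ → ℕ → ℕ → ℕ → Prop
  | _, y, 0, p, r => y = p ∧ r = 0
  | j, y, m + 1, p, r => ∃ z r', z < B ∧ (∃ a, w[t0 + j]? = some a ∧ rel a y z) ∧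
      pth w i t0 (j + 1) z m p r' ∧ r = Wt i j y z + r'

end paths

variable {A : Type} {B : ℕ} {rel : A → ℕ → ℕ → Prop} {p0 : ℕ} {facc : ℕ → Prop}
variable {Wt : ℕ → ℕ → ℕ → ℕ → ℕ} {KK : ℕ} {w : List A} {b : ℕ → Bool}

theorem pth_snoc {i t0 : ℕ} (m : ℕ) : ∀ (j y x p r : ℕ), pth B rel Wt w i t0 j y m x r → p < B →
    (∃ a, w[t0 + (j + m)]? = some a ∧ rel a x p) →
    pth B rel Wt w i t0 j y (m + 1) p (r + Wt i (j + m) x p) := by
  induction m with
  | zero =>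
    rintro j y x p r ⟨rfl, rfl⟩ hp h
    exact ⟨p, 0, hp, h, ⟨rfl, rfl⟩, by rw [Nat.add_zero, Nat.zero_add, Nat.add_zero]⟩
  | succ m ih =>
    rintro j y x p r ⟨z, r', hz, h1, h2, rfl⟩ hp h
    have h3 : j + (m + 1) = j + 1 + m := by omega
    rw [h3] at h ⊢
    exact ⟨z, _, hz, h1, ih _ _ _ _ _ h2 hp h, by omega⟩

theorem pw_dec {i t0 j : ℕ} (m : ℕ) : ∀ (p c : ℕ), pw B rel p0 Wt w i t0 (j + m) p c →
    ∃ y a r, pw B rel p0 Wt w i t0 j y a ∧ pth B rel Wt w i t0 j y m p r ∧ c = a + r := by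
  induction m with
  | zero =>
    intro p c h
    exact ⟨p, c, 0, h, ⟨rfl, rfl⟩, rfl⟩
  | succ m ih =>
    intro p c h
    obtain ⟨hp, x, c', h1, h2, rfl⟩ := pw_succ.1 (show pw B rel p0 Wt w i t0 (j + m + 1) p c from h)
    obtain ⟨y, a, r, h3, h4, rfl⟩ := ih x c' h1
    refine ⟨y, a, _, h3, pth_snoc m _ _ _ _ _ h4 hp ?_, Nat.add_assoc _ _ _⟩
    exact h2

theorem pw_pth {i t0 : ℕ} (m : ℕ) : ∀ (j y a p r : ℕ), pw B rel p0 Wt w i t0 j y a →
    pth B rel Wt w i t0 j y m p r → pw B rel p0 Wt w i t0 (j + m) p (a + r) := by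
  induction m with
  | zero =>
    rintro j y a p r h ⟨rfl, rfl⟩
    exact h
  | succ m ih =>
    rintro j y a p r h ⟨z, r', hz, h1, h2, rfl⟩
    have h3 := ih (j + 1) z (a + Wt i j y z) p r' (pw_succ.2 ⟨hz, y, a, h, h1, rfl⟩) h2
    have h4 : j + (m + 1) = j + 1 + m := by omega
    rw [h4, ← Nat.add_assoc]
    exact h3

/-- The steps of the walk. -/
def RU (B : ℕ) (rel : A → ℕ → ℕ → Prop) (p0 : ℕ) (facc : ℕ → Prop)
    (Wt : ℕ → ℕ → ℕ → ℕ → ℕ) (KK : ℕ) (w : List A) (b : ℕ → Bool) (x y : Wu × ℕ) : Prop :=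
  (EU B rel facc Wt KK (full w b x.2) x.1 y.1 ∧ y.2 = x.2) ∨
    ∃ d, MU1 B rel p0 Wt (full w b x.2) x.1 y.1 d ∧ (d = true → y.2 = x.2 + 1) ∧
      (d = false → y.2 + 1 = x.2)

/-- Paths of the walk. -/
def RUs (B : ℕ) (rel : A → ℕ → ℕ → Prop) (p0 : ℕ) (facc : ℕ → Prop)
    (Wt : ℕ → ℕ → ℕ → ℕ → ℕ) (KK : ℕ) (w : List A) (b : ℕ → Bool) (x y : Wu × ℕ) : Prop :=
  ReflTransGen (RU B rel p0 facc Wt KK w b) x y

theorem J_RUs (h0 : p0 < B) (hK : 0 < KK) {x y : Wu × ℕ}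
    (h : RUs B rel p0 facc Wt KK w b x y)
    (hJ : JU B rel p0 facc Wt KK w b x.1 x.2) : JU B rel p0 facc Wt KK w b y.1 y.2 := by
  unfold RUs at h
  induction h with
  | refl => exact hJ
  | tail _ h ih =>
    rcases h with ⟨h1, h2⟩ | ⟨d, h1, h2, h3⟩
    · rw [h2]
      exact J_EU h0 h1 ih
    · exact J_MU h0 hK h1 h2 h3 ih

theorem MV_RUs (h0 : p0 < B) (hK : 0 < KK) {v v' : Rv} {t0 t1 x y : ℕ}
    (h : RUs B rel p0 facc Wt KK w b (.main v, x) (.main v', y))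
    (hx : x = t0 + v.o + 1) (hy : y = t1 + v'.o + 1)
    (hJ : MV B rel p0 facc Wt KK w b v t0) : MV B rel p0 facc Wt KK w b v' t1 := by
  obtain ⟨t', h1, h2⟩ := J_RUs h0 hK h ⟨t0, hx, hJ⟩
  have h3 : t' = t1 := by
    have h4 : y = t' + v'.o + 1 := h1
    omega
  rw [h3] at h2
  exact h2

theorem RUs.E1 {s s' s'' : Wu} {x y : ℕ} (h : EU B rel facc Wt KK (full w b x) s s')
    (h' : RUs B rel p0 facc Wt KK w b (s', x) (s'', y)) :
    RUs B rel p0 facc Wt KK w b (s, x) (s'', y) :=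
  ReflTransGen.head (b := (s', x)) (Or.inl ⟨h, rfl⟩) h'

theorem RUs.R1 {s s' s'' : Wu} {x y : ℕ} (h : MU1 B rel p0 Wt (full w b x) s s' true)
    (h' : RUs B rel p0 facc Wt KK w b (s', x + 1) (s'', y)) :
    RUs B rel p0 facc Wt KK w b (s, x) (s'', y) :=
  ReflTransGen.head (b := (s', x + 1)) (Or.inr ⟨true, h, fun _ => rfl,
    fun h => absurd h (by simp)⟩) h'

theorem RUs.L1 {s s' s'' : Wu} {x y : ℕ} (h : MU1 B rel p0 Wt (full w b (x + 1)) s s' false)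
    (h' : RUs B rel p0 facc Wt KK w b (s', x) (s'', y)) :
    RUs B rel p0 facc Wt KK w b (s, x + 1) (s'', y) :=
  ReflTransGen.head (b := (s', x)) (Or.inr ⟨false, h, fun h => absurd h (by simp),
    fun _ => rfl⟩) h'

theorem RUs.rfl' {x : Wu × ℕ} : RUs B rel p0 facc Wt KK w b x x := ReflTransGen.refl

theorem RUs.tr {x y z : Wu × ℕ} (h : RUs B rel p0 facc Wt KK w b x y)
    (h' : RUs B rel p0 facc Wt KK w b y z) : RUs B rel p0 facc Wt KK w b x z :=
  ReflTransGen.trans h h'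

theorem gu_goL (v : Rv) (m x : ℕ) :
    RUs B rel p0 facc Wt KK w b (.goL v m, x + m) (.goL v 0, x) := by
  induction m with
  | zero => exact RUs.rfl'
  | succ m ih => exact RUs.L1 (MU1.goL v m) ih

theorem gu_sL (v : Rv) (s m x : ℕ) :
    RUs B rel p0 facc Wt KK w b (.sL v s m, x + m) (.sL v s 0, x) := by
  induction m with
  | zero => exact RUs.rfl'
  | succ m ih => exact RUs.L1 (MU1.sL v s m) ih

theorem gu_kL (v : Rv) (m x : ℕ) :
    RUs B rel p0 facc Wt KK w b (.kL v m, x + m) (.kL v 0, x) := by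
  induction m with
  | zero => exact RUs.rfl'
  | succ m ih => exact RUs.L1 (MU1.kL v m) ih

theorem gu_back (v : Rv) (m x : ℕ) :
    RUs B rel p0 facc Wt KK w b (.back v m, x + m) (.back v 0, x) := by
  induction m with
  | zero => exact RUs.rfl'
  | succ m ih => exact RUs.L1 (MU1.back v m) ih

theorem gu_sR (v : Rv) (s m : ℕ) : ∀ x,
    RUs B rel p0 facc Wt KK w b (.sR v s m, x) (.sR v s 0, x + m) := by
  induction m with
  | zero => intro x; exact RUs.rfl'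
  | succ m ih =>
    intro x
    have h := ih (x + 1)
    rw [show x + 1 + m = x + (m + 1) by omega] at h
    exact RUs.R1 (MU1.sR v s m) h

theorem gu_kR (v : Rv) (m : ℕ) : ∀ x,
    RUs B rel p0 facc Wt KK w b (.kR v m, x) (.kR v 0, x + m) := by
  induction m with
  | zero => intro x; exact RUs.rfl'
  | succ m ih =>
    intro x
    have h := ih (x + 1)
    rw [show x + 1 + m = x + (m + 1) by omega] at h
    exact RUs.R1 (MU1.kR v m) h

theorem gu_zr (f : Bool) (m : ℕ) : ∀ x,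
    RUs B rel p0 facc Wt KK w b (.zr f m, x) (.zr f 0, x + m) := by
  induction m with
  | zero => intro x; exact RUs.rfl'
  | succ m ih =>
    intro x
    have h := ih (x + 1)
    rw [show x + 1 + m = x + (m + 1) by omega] at h
    exact RUs.R1 (MU1.zr f m) h

theorem gu_goR (v : Rv) (t0 m : ℕ) : ∀ (j y p r l : ℕ), v.o = j + m → t0 + v.o ≤ w.length →
    pth B rel Wt w v.i t0 j y m p r →
    RUs B rel p0 facc Wt KK w b (.goR v y m l, t0 + j + 1) (.goR v p 0 (l + r), t0 + v.o + 1) := by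
  induction m with
  | zero =>
    rintro j y p r l ho hn ⟨rfl, rfl⟩
    rw [ho]
    exact RUs.rfl'
  | succ m ih =>
    rintro j y p r l ho hn ⟨z, r', hz, ⟨a, ha, hr⟩, h1, rfl⟩
    have h2 := ih (j + 1) z p r' (l + Wt v.i j y z) (by omega) hn h1
    have h3 : v.o - (m + 1) = j := by omega
    have h4 := MU1.goR (B := B) (rel := rel) (p0 := p0) (Wt := Wt)
      (σ := full w b (t0 + j + 1)) v y m l z hz ⟨a, b (t0 + j + 1), by simp only [full, ha], hr⟩
    rw [h3] at h4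
    refine RUs.R1 h4 ?_
    rw [Nat.add_assoc] at h2
    rw [← Nat.add_assoc l]
    exact h2

/-! ### The right annotation -/

theorem RB.at {t0 s : ℕ} (hb : RB B rel p0 w b) (hL : B ∣ t0) (h1 : 1 ≤ t0)
    (hn : t0 ≤ w.length) (hs : s < B) : b (t0 - s) = true ↔ nr B rel p0 w t0 s := by
  have hB : 0 < B := by omega
  have hle : B ≤ t0 := Nat.le_of_dvd h1 hL
  obtain ⟨i, hi⟩ := hL
  have h2 : t0 = i * B := by rw [hi]; exact Nat.mul_comm _ _
  have h3 : 1 ≤ i := by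
    rcases Nat.eq_zero_or_pos i with h4 | h4
    · rw [h4, Nat.zero_mul] at h2
      omega
    · exact h4
  have h4 : t0 ≤ w.length / B * B := by
    rw [h2]
    apply Nat.mul_le_mul_right
    rw [Nat.le_div_iff_mul_le hB, ← h2]
    exact hn
  rw [hb (t0 - s) (by omega) (by omega)]
  unfold bt
  rw [if_pos (by omega), h2]
  exact bOK_iff h3 hs

theorem RB.tail {j : ℕ} (hb : RB B rel p0 w b) (h1 : w.length / B * B < j)
    (h2 : j ≤ w.length) : b j = false := by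
  rw [hb j (by omega) h2]
  unfold bt
  rw [if_neg (by omega)]

/-- The walk finds a lightest path to each reachable state. -/
theorem gu_path (hb : RB B rel p0 w b) {v : Rv} {t0 : ℕ}
    (h : MV B rel p0 facc Wt KK w b v t0) (h0 : p0 < B)
    (hn : nr B rel p0 w (t0 + v.o) v.p) :
    RUs B rel p0 facc Wt KK w b (.goL v (v.o + 1), t0 + v.o + 1)
      (.goR v v.p 0 (de B rel p0 Wt w v.i t0 v.o v.p), t0 + v.o + 1) := by
  have h1 := gu_goL (B := B) (rel := rel) (p0 := p0) (facc := facc) (Wt := Wt) (KK := KK)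
    (w := w) (b := b) v (v.o + 1) t0
  rw [← Nat.add_assoc] at h1
  refine h1.tr ?_
  have hmem := de_mem (Wt := Wt) (i := v.i) hn
  have h2 : pw B rel p0 Wt w v.i t0 (0 + v.o) v.p (de B rel p0 Wt w v.i t0 v.o v.p) := by
    rw [Nat.zero_add]
    exact hmem
  obtain ⟨s, a, r, ⟨h3, h3'⟩, h4, h5⟩ := pw_dec v.o _ _ h2
  subst h3'
  rw [h5]
  have h6 := gu_goR (p0 := p0) (facc := facc) (KK := KK) (b := b) v t0 v.o 0 s v.p r 0
    (Nat.zero_add _).symm h.hn h4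
  rw [Nat.add_zero] at h6
  rcases Nat.eq_zero_or_pos t0 with ht | ht
  · subst ht
    have hs : s = p0 := h3
    subst hs
    exact RUs.R1 (MU1.goL0 v rfl) h6
  · have hsB : s < B := nr_lt h0 h3
    have hle : B ≤ t0 := Nat.le_of_dvd ht h.hL
    have hn' := h.hn
    have hbit := (hb.at h.hL ht (by omega) hsB).2 h3
    refine RUs.E1 (EU.choose v s hsB (isMark_full.2 ⟨ht, by omega⟩)) ?_
    have h7 := gu_sL (B := B) (rel := rel) (p0 := p0) (facc := facc) (Wt := Wt) (KK := KK)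
      (w := w) (b := b) v s s (t0 - s)
    rw [show t0 - s + s = t0 by omega] at h7
    refine h7.tr (RUs.E1 (EU.bit v s ?_) ?_)
    · rw [bitS_mark (by omega) (by omega)]
      exact hbit
    · have h8 := gu_sR (B := B) (rel := rel) (p0 := p0) (facc := facc) (Wt := Wt) (KK := KK)
        (w := w) (b := b) v s s (t0 - s)
      rw [show t0 - s + s = t0 by omega] at h8
      exact h8.tr (RUs.R1 (MU1.sR0 v s) h6)

/-- The enumeration. -/
theorem gu_enum (hb : RB B rel p0 w b) (h0 : p0 < B) (hK : 0 < KK) {v : Rv} {t0 : ℕ}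
    (h : MV B rel p0 facc Wt KK w b v t0) (hq : v.q < B) (hp : v.p = 0) (hk : v.k = 0)
    (hg : v.g = 0) (m : ℕ) : m ≤ B → ∃ e' b',
      RUs B rel p0 facc Wt KK w b (.main v, t0 + v.o + 1)
        (.main { v with p := m, k := cn B rel p0 w (t0 + v.o) m,
                        g := sm B rel p0 Wt w v.i t0 v.o m, e := e', bad := b' },
          t0 + v.o + 1) := by
  classical
  induction m with
  | zero =>
    intro _
    refine ⟨v.e, v.bad, ?_⟩
    rw [cn_empty, sm_empty]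
    have h1 : { v with p := 0, k := 0, g := 0, e := v.e, bad := v.bad } = v := by
      cases v
      simp only at hp hk hg
      rw [hp, hk, hg]
    rw [h1]
    exact RUs.rfl'
  | succ m ih =>
    intro hm
    obtain ⟨e', b', h1⟩ := ih (by omega)
    have h2 := MV_RUs h0 hK (t1 := t0) h1 rfl rfl h
    by_cases hr : nr B rel p0 w (t0 + v.o) m
    · have h3 := gu_path hb h2 h0 hr
      have h4 := RUs.E1 (EU.yes ⟨v.i, v.z, v.o, v.c, v.s, v.q, v.c', v.s', m,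
          cn B rel p0 w (t0 + v.o) m, sm B rel p0 Wt w v.i t0 v.o m, e', b'⟩
        (Nat.lt_of_succ_le hm) hq) (h3.tr (RUs.E1 (EU.done _ _) RUs.rfl'))
      rw [cn_add, if_pos hr, sm_succ]
      exact ⟨_, _, h1.tr h4⟩
    · refine ⟨e', b', h1.tr ?_⟩
      rw [cn_add, if_neg hr, sm_succ, de_none hr]
      exact RUs.E1 (EU.skip _ (by show m < B; omega) hq) RUs.rfl'

theorem gu_enum' (hb : RB B rel p0 w b) (h0 : p0 < B) (hK : 0 < KK) {v : Rv} {t0 : ℕ}
    (h : MV B rel p0 facc Wt KK w b v t0) (hq : v.q < B) (hp : v.p = 0) (hk : v.k = 0)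
    (hg : v.g = 0) : ∃ e' b',
      RUs B rel p0 facc Wt KK w b (.main v, t0 + v.o + 1)
        (.main { v with p := B, k := v.c, g := v.s, e := e', bad := b' }, t0 + v.o + 1) := by
  obtain ⟨e', b', h1⟩ := gu_enum hb h0 hK h hq hp hk hg B le_rfl
  rw [← h.hc, ← h.hs] at h1
  exact ⟨e', b', h1⟩

/-- The weight function has ties. -/
def Tie (B : ℕ) (rel : A → ℕ → ℕ → Prop) (p0 : ℕ) (Wt : ℕ → ℕ → ℕ → ℕ → ℕ) (w : List A)
    (i t0 : ℕ) : Prop :=
  ¬ NT B rel (nr B rel p0 w t0) (fun j => w[t0 + j]?) (Wt i)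

/-- One state `q`. -/
theorem gu_q (hb : RB B rel p0 w b) (h0 : p0 < B) (hK : 0 < KK) {i z o c s q c' s' t0 : ℕ}
    (h : MV B rel p0 facc Wt KK w b ⟨i, z, o, c, s, q, c', s', 0, 0, 0, 0, false⟩ t0)
    (hq : q < B) (hn : t0 + o < w.length) :
    (∃ c'' s'', RUs B rel p0 facc Wt KK w b
      (.main ⟨i, z, o, c, s, q, c', s', 0, 0, 0, 0, false⟩, t0 + o + 1)
      (.main ⟨i, z, o, c, s, q + 1, c'', s'', 0, 0, 0, 0, false⟩, t0 + o + 1)) ∨
    (Tie B rel p0 Wt w i t0 ∧ (i + 1 < KK → RUs B rel p0 facc Wt KK w b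
      (.main ⟨i, z, o, c, s, q, c', s', 0, 0, 0, 0, false⟩, t0 + o + 1)
      (.main ⟨i + 1, z, 0, z, 0, 0, 0, 0, 0, 0, 0, 0, false⟩, t0 + 1))) := by
  obtain ⟨e', b', h1⟩ := gu_enum' hb h0 hK h hq rfl rfl rfl
  have h2 := MV_RUs h0 hK (t1 := t0) h1 rfl rfl h
  have hD : Dn B ⟨i, z, o, c, s, q, c', s', B, c, s, e', b'⟩ := ⟨rfl, rfl, rfl⟩
  obtain ⟨r1, r2, r3, r4⟩ := h2.res h0 hD hq hn
  have hmark : IsMark (full w b (t0 + o + 1)) := isMark_full.2 ⟨by omega, by omega⟩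
  cases b' with
  | false =>
    left
    refine ⟨c' + (if e' = 0 then 0 else 1), s' + (e' - 1), h1.tr ?_⟩
    have ho : o < B := h.ho
    rcases Nat.lt_or_ge (o + 1) B with h3 | h3
    · exact RUs.E1 (EU.next ⟨i, z, o, c, s, q, c', s', B, c, s, e', false⟩ hD hq rfl h3 hmark)
        RUs.rfl'
    · have h4 : o + 1 = B := by omega
      refine RUs.E1 (EU.look ⟨i, z, o, c, s, q, c', s', B, c, s, e', false⟩ hD hq rfl h4 hmark) ?_
      have h5 := gu_kL (B := B) (rel := rel) (p0 := p0) (facc := facc) (Wt := Wt) (KK := KK)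
        (w := w) (b := b) ⟨i, z, o, c, s, q, c', s', B, c, s, e', false⟩ q (t0 + o + 1 - q)
      rw [show t0 + o + 1 - q + q = t0 + o + 1 by omega] at h5
      refine h5.tr (RUs.E1 (EU.cmp _ ?_) ?_)
      · rw [bitS_mark (by omega) (by omega)]
        show b (t0 + o + 1 - q) = true ↔ e' ≠ 0
        have h6 : B ∣ t0 + o + 1 := by
          rw [Nat.add_assoc, h4]
          exact Nat.dvd_add h.hL (dvd_refl _)
        exact (hb.at h6 (by omega) (by omega) hq).trans r1.symm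
      · have h6 := gu_kR (B := B) (rel := rel) (p0 := p0) (facc := facc) (Wt := Wt) (KK := KK)
          (w := w) (b := b) ⟨i, z, o, c, s, q, c', s', B, c, s, e', false⟩ q (t0 + o + 1 - q)
        rw [show t0 + o + 1 - q + q = t0 + o + 1 by omega] at h6
        exact h6.tr (RUs.E1 (EU.ret _) RUs.rfl')
  | true =>
    right
    obtain ⟨x, x', h3, h4, h5, h6⟩ := r4 rfl
    refine ⟨fun hNT => hNT o q x x' h.ho hq h4 h5 h3 h6, fun hi => h1.tr ?_⟩
    refine RUs.E1 (EU.again ⟨i, z, o, c, s, q, c', s', B, c, s, e', true⟩ hD hq rfl hi hmark) ?_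
    have h7 := gu_back (B := B) (rel := rel) (p0 := p0) (facc := facc) (Wt := Wt) (KK := KK)
      (w := w) (b := b) ⟨i, z, o, c, s, q, c', s', B, c, s, e', true⟩ o (t0 + 1)
    rw [show t0 + 1 + o = t0 + o + 1 by omega] at h7
    exact h7.tr (RUs.E1 (EU.restart _) RUs.rfl')

/-- One layer. -/
theorem gu_layer (hb : RB B rel p0 w b) (h0 : p0 < B) (hK : 0 < KK) {i z o c s t0 : ℕ}
    (h : MV B rel p0 facc Wt KK w b ⟨i, z, o, c, s, 0, 0, 0, 0, 0, 0, 0, false⟩ t0)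
    (hn : t0 + o < w.length) (q : ℕ) : q ≤ B →
    (∃ c' s', RUs B rel p0 facc Wt KK w b
      (.main ⟨i, z, o, c, s, 0, 0, 0, 0, 0, 0, 0, false⟩, t0 + o + 1)
      (.main ⟨i, z, o, c, s, q, c', s', 0, 0, 0, 0, false⟩, t0 + o + 1)) ∨
    (Tie B rel p0 Wt w i t0 ∧ (i + 1 < KK → RUs B rel p0 facc Wt KK w b
      (.main ⟨i, z, o, c, s, 0, 0, 0, 0, 0, 0, 0, false⟩, t0 + o + 1)
      (.main ⟨i + 1, z, 0, z, 0, 0, 0, 0, 0, 0, 0, 0, false⟩, t0 + 1))) := by
  induction q with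
  | zero =>
    intro _
    exact Or.inl ⟨0, 0, RUs.rfl'⟩
  | succ q ih =>
    intro hq
    rcases ih (by omega) with ⟨c', s', h1⟩ | h1
    · have h2 := MV_RUs h0 hK (t1 := t0) h1 rfl rfl h
      rcases gu_q hb h0 hK h2 (by omega) hn with ⟨c'', s'', h3⟩ | ⟨h3, h4⟩
      · exact Or.inl ⟨c'', s'', h1.tr h3⟩
      · exact Or.inr ⟨h3, fun hi => h1.tr (h4 hi)⟩
    · exact Or.inr h1

/-- Several layers. -/
theorem gu_block (hb : RB B rel p0 w b) (h0 : p0 < B) (hK : 0 < KK) {i z t0 : ℕ}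
    (h : MV B rel p0 facc Wt KK w b ⟨i, z, 0, z, 0, 0, 0, 0, 0, 0, 0, 0, false⟩ t0)
    (o : ℕ) : o < B → t0 + o ≤ w.length →
    (∃ c s, RUs B rel p0 facc Wt KK w b
      (.main ⟨i, z, 0, z, 0, 0, 0, 0, 0, 0, 0, 0, false⟩, t0 + 1)
      (.main ⟨i, z, o, c, s, 0, 0, 0, 0, 0, 0, 0, false⟩, t0 + o + 1)) ∨
    (Tie B rel p0 Wt w i t0 ∧ (i + 1 < KK → RUs B rel p0 facc Wt KK w b
      (.main ⟨i, z, 0, z, 0, 0, 0, 0, 0, 0, 0, 0, false⟩, t0 + 1)
      (.main ⟨i + 1, z, 0, z, 0, 0, 0, 0, 0, 0, 0, 0, false⟩, t0 + 1))) := by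
  induction o with
  | zero =>
    intro _ _
    exact Or.inl ⟨z, 0, RUs.rfl'⟩
  | succ o ih =>
    intro ho hn
    rcases ih (by omega) (by omega) with ⟨c, s, h1⟩ | h1
    · have h2 := MV_RUs h0 hK (t0 := t0) (t1 := t0) h1 rfl rfl h
      rcases gu_layer hb h0 hK h2 (by omega) B le_rfl with ⟨c', s', h3⟩ | ⟨h3, h4⟩
      · refine Or.inl ⟨c', s', h1.tr (h3.tr ?_)⟩
        have h4 := MU1.adv (B := B) (rel := rel) (p0 := p0) (Wt := Wt)
          (σ := full w b (t0 + o + 1)) ⟨i, z, o, c, s, B, c', s', 0, 0, 0, 0, false⟩ rfl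
          (isMark_full.2 ⟨by omega, by omega⟩)
        have h5 : UA.av B ⟨i, z, o, c, s, B, c', s', 0, 0, 0, 0, false⟩ =
            ⟨i, z, o + 1, c', s', 0, 0, 0, 0, 0, 0, 0, false⟩ := by
          unfold UA.av
          rw [if_pos ho]
        rw [h5] at h4
        exact RUs.R1 h4 RUs.rfl'
      · exact Or.inr ⟨h3, fun hi => h1.tr (h4 hi)⟩
    · exact Or.inr h1

/-- A complete block. -/
theorem gu_full (hb : RB B rel p0 w b) (h0 : p0 < B) (hK : 0 < KK) {i z t0 : ℕ}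
    (h : MV B rel p0 facc Wt KK w b ⟨i, z, 0, z, 0, 0, 0, 0, 0, 0, 0, 0, false⟩ t0)
    (hn : t0 + B ≤ w.length) :
    (∃ c, RUs B rel p0 facc Wt KK w b
      (.main ⟨i, z, 0, z, 0, 0, 0, 0, 0, 0, 0, 0, false⟩, t0 + 1)
      (.main ⟨0, c, 0, c, 0, 0, 0, 0, 0, 0, 0, 0, false⟩, t0 + B + 1)) ∨
    (Tie B rel p0 Wt w i t0 ∧ (i + 1 < KK → RUs B rel p0 facc Wt KK w b
      (.main ⟨i, z, 0, z, 0, 0, 0, 0, 0, 0, 0, 0, false⟩, t0 + 1)
      (.main ⟨i + 1, z, 0, z, 0, 0, 0, 0, 0, 0, 0, 0, false⟩, t0 + 1))) := by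
  rcases gu_block hb h0 hK h (B - 1) (by omega) (by omega) with ⟨c, s, h1⟩ | h1
  · have h2 := MV_RUs h0 hK (t0 := t0) (t1 := t0) h1 rfl rfl h
    rcases gu_layer hb h0 hK h2 (by omega) B le_rfl with ⟨c', s', h3⟩ | ⟨h3, h4⟩
    · refine Or.inl ⟨c', h1.tr (h3.tr ?_)⟩
      have h4 := MU1.adv (B := B) (rel := rel) (p0 := p0) (Wt := Wt)
        (σ := full w b (t0 + (B - 1) + 1)) ⟨i, z, B - 1, c, s, B, c', s', 0, 0, 0, 0, false⟩ rfl
        (isMark_full.2 ⟨by omega, by omega⟩)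
      have h5 : UA.av B ⟨i, z, B - 1, c, s, B, c', s', 0, 0, 0, 0, false⟩ =
          ⟨0, c', 0, c', 0, 0, 0, 0, 0, 0, 0, 0, false⟩ := by
        unfold UA.av
        rw [if_neg (by show ¬ (B - 1 + 1 < B); omega)]
      rw [h5] at h4
      have h6 := RUs.R1 (facc := facc) (KK := KK) h4 RUs.rfl'
      rw [show t0 + (B - 1) + 1 + 1 = t0 + B + 1 by omega] at h6
      exact h6
    · exact Or.inr ⟨h3, fun hi => h1.tr (h4 hi)⟩
  · exact Or.inr h1

/-- The index of a weight function without ties is found. -/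
theorem gu_full' (hb : RB B rel p0 w b) (h0 : p0 < B) {z t0 i1 : ℕ} (hi1 : i1 < KK)
    (hNT : ¬ Tie B rel p0 Wt w i1 t0) (hn : t0 + B ≤ w.length) (d : ℕ) : ∀ i, i + d = i1 →
    MV B rel p0 facc Wt KK w b ⟨i, z, 0, z, 0, 0, 0, 0, 0, 0, 0, 0, false⟩ t0 →
    ∃ c, RUs B rel p0 facc Wt KK w b
      (.main ⟨i, z, 0, z, 0, 0, 0, 0, 0, 0, 0, 0, false⟩, t0 + 1)
      (.main ⟨0, c, 0, c, 0, 0, 0, 0, 0, 0, 0, 0, false⟩, t0 + B + 1) := by
  induction d with
  | zero =>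
    intro i hi h
    rcases gu_full hb h0 (by omega) h hn with h1 | h1
    · exact h1
    · rw [show i = i1 by omega] at h1
      exact absurd h1.1 hNT
  | succ d ih =>
    intro i hi h
    rcases gu_full hb h0 (by omega) h hn with h1 | h1
    · exact h1
    · have h2 := h1.2 (by omega)
      have h3 := MV_RUs h0 (by omega) (t0 := t0) (t1 := t0) h2 rfl rfl h
      obtain ⟨c, h4⟩ := ih (i + 1) (by omega) h3
      exact ⟨c, h2.tr h4⟩

theorem gu_last' (hb : RB B rel p0 w b) (h0 : p0 < B) {z t0 i1 o : ℕ} (hi1 : i1 < KK)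
    (hNT : ¬ Tie B rel p0 Wt w i1 t0) (ho : o < B) (hn : t0 + o = w.length) (d : ℕ) :
    ∀ i, i + d = i1 →
    MV B rel p0 facc Wt KK w b ⟨i, z, 0, z, 0, 0, 0, 0, 0, 0, 0, 0, false⟩ t0 →
    ∃ i' c s, RUs B rel p0 facc Wt KK w b
      (.main ⟨i, z, 0, z, 0, 0, 0, 0, 0, 0, 0, 0, false⟩, t0 + 1)
      (.main ⟨i', z, o, c, s, 0, 0, 0, 0, 0, 0, 0, false⟩, t0 + o + 1) := by
  induction d with
  | zero =>
    intro i hi h
    rcases gu_block hb h0 (by omega) h o ho (by omega) with ⟨c, s, h1⟩ | h1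
    · exact ⟨i, c, s, h1⟩
    · rw [show i = i1 by omega] at h1
      exact absurd h1.1 hNT
  | succ d ih =>
    intro i hi h
    rcases gu_block hb h0 (by omega) h o ho (by omega) with ⟨c, s, h1⟩ | h1
    · exact ⟨i, c, s, h1⟩
    · have h2 := h1.2 (by omega)
      have h3 := MV_RUs h0 (by omega) (t0 := t0) (t1 := t0) h2 rfl rfl h
      obtain ⟨i', c, s, h4⟩ := ih (i + 1) (by omega) h3
      exact ⟨i', c, s, h2.tr h4⟩

/-- The check of the last bits. -/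
theorem gu_zl (hb : RB B rel p0 w b) {t0 o : ℕ} (f : Bool) (hL : B ∣ t0) (ho : o < B)
    (hn : t0 + o = w.length) (m : ℕ) : m ≤ o →
    RUs B rel p0 facc Wt KK w b (.zl f o m, t0 + 1 + m) (.zl f o 0, t0 + 1) := by
  have hB : 0 < B := by omega
  have h1 : w.length / B * B = t0 := by
    obtain ⟨i, rfl⟩ := hL
    rw [← hn, Nat.mul_comm B i, Nat.add_comm, Nat.add_mul_div_right _ _ hB, Nat.div_eq_of_lt ho,
      Nat.zero_add]
  induction m with
  | zero =>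
    intro _
    exact RUs.rfl'
  | succ m ih =>
    intro hm
    rw [show t0 + 1 + (m + 1) = t0 + 1 + m + 1 by omega]
    refine RUs.L1 (MU1.zl f o m) (RUs.E1 (EU.chk f o m ?_) (ih (by omega)))
    rw [bitS_mark (by omega) (by omega)]
    exact hb.tail (by omega) (by omega)

/-- The end of the walk. -/
theorem gu_end (hb : RB B rel p0 w b) (h0 : p0 < B) (hK : 0 < KK) {i z o c s t0 : ℕ}
    (h : MV B rel p0 facc Wt KK w b ⟨i, z, o, c, s, 0, 0, 0, 0, 0, 0, 0, false⟩ t0)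
    (hn : t0 + o = w.length) : ∃ f, RUs B rel p0 facc Wt KK w b
      (.main ⟨i, z, o, c, s, 0, 0, 0, 0, 0, 0, 0, false⟩, t0 + o + 1)
      (.fin f, w.length + 2) := by
  obtain ⟨e', b', h1⟩ := gu_enum' hb h0 hK h (by show 0 < B; omega) rfl rfl rfl
  have hD : Dn B ⟨i, z, o, c, s, 0, 0, 0, B, c, s, e', b'⟩ := ⟨rfl, rfl, rfl⟩
  refine ⟨decide (e' ≠ 0), h1.tr ?_⟩
  have hlast : full w b (t0 + o + 1) = .rm := by
    rw [hn]
    exact full_last
  refine RUs.E1 (EU.stopz ⟨i, z, o, c, s, 0, 0, 0, B, c, s, e', b'⟩ (decide (e' ≠ 0)) hD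
    (by show 0 < B; omega) hlast decide_eq_true_iff) ?_
  have h2 := gu_zl (facc := facc) (Wt := Wt) (KK := KK) hb (decide (e' ≠ 0)) h.hL h.ho hn o le_rfl
  rw [show t0 + 1 + o = t0 + o + 1 by omega] at h2
  refine h2.tr (RUs.E1 (EU.turn _ _) ?_)
  have h3 := gu_zr (B := B) (rel := rel) (p0 := p0) (facc := facc) (Wt := Wt) (KK := KK)
    (w := w) (b := b) (decide (e' ≠ 0)) o (t0 + 1)
  rw [show t0 + 1 + o = w.length + 1 by omega] at h3
  exact h3.tr (RUs.R1 (MU1.zr0 _ full_last) RUs.rfl')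

/-- All blocks. -/
theorem gu_blocks (hb : RB B rel p0 w b) (h0 : p0 < B)
    (hW : ∀ t0, ∃ i, i < KK ∧ ¬ Tie B rel p0 Wt w i t0) (N : ℕ) : ∀ t0 z,
    w.length - t0 ≤ N →
    MV B rel p0 facc Wt KK w b ⟨0, z, 0, z, 0, 0, 0, 0, 0, 0, 0, 0, false⟩ t0 →
    ∃ f, RUs B rel p0 facc Wt KK w b
      (.main ⟨0, z, 0, z, 0, 0, 0, 0, 0, 0, 0, 0, false⟩, t0 + 1) (.fin f, w.length + 2) := by
  induction N using Nat.strong_induction_on with
  | _ N ih =>
    intro t0 z hN h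
    obtain ⟨i1, hi1, hNT⟩ := hW t0
    have hK : 0 < KK := by omega
    have hB : 0 < B := by omega
    have hn0 : t0 + 0 ≤ w.length := h.hn
    rcases Nat.lt_or_ge w.length (t0 + B) with h1 | h1
    · obtain ⟨i', c, s, h2⟩ := gu_last' hb h0 hi1 hNT (o := w.length - t0) (by omega) (by omega)
        i1 0 (Nat.zero_add _) h
      have h3 := MV_RUs h0 hK (t0 := t0) (t1 := t0) h2 rfl rfl h
      obtain ⟨f, h4⟩ := gu_end hb h0 hK h3 (by omega)
      exact ⟨f, h2.tr h4⟩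
    · obtain ⟨c, h2⟩ := gu_full' hb h0 hi1 hNT h1 i1 0 (Nat.zero_add _) h
      have h3 := MV_RUs h0 hK (t0 := t0) (t1 := t0 + B) h2 rfl rfl h
      obtain ⟨f, h4⟩ := ih (w.length - (t0 + B)) (by omega) (t0 + B) c le_rfl h3
      exact ⟨f, h2.tr h4⟩

theorem gu_rw (m : ℕ) (hm : m ≤ w.length) :
    RUs B rel p0 facc Wt KK w b (.rw, m) (.rw, 0) := by
  induction m with
  | zero => exact RUs.rfl'
  | succ m ih =>
    exact RUs.L1 (MU1.rwL (isMark_full.2 ⟨by omega, hm⟩)) (ih (by omega))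

/-- **Completeness of the walk.** -/
theorem gu_final (h0 : p0 < B) (w : List A)
    (hW : ∀ t0, ∃ i, i < KK ∧ ¬ Tie B rel p0 Wt w i t0) : ∃ b f,
    RUs B rel p0 facc Wt KK w b (.rw, w.length) (.fin f, w.length + 2) := by
  obtain ⟨i1, hi1, _⟩ := hW 0
  have hK : 0 < KK := by omega
  have hb : RB B rel p0 w (bt B rel p0 w) := fun _ _ _ => rfl
  have h1 := gu_rw (B := B) (rel := rel) (p0 := p0) (facc := facc) (Wt := Wt) (KK := KK)
    (w := w) (b := bt B rel p0 w) w.length le_rfl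
  have h2 : RUs B rel p0 facc Wt KK w (bt B rel p0 w) (.rw, w.length)
      (.main ⟨0, 1, 0, 1, 0, 0, 0, 0, 0, 0, 0, 0, false⟩, 0 + 1) :=
    h1.tr (RUs.R1 (MU1.rwR rfl) RUs.rfl')
  obtain ⟨t', h3, h4⟩ := J_RUs h0 hK h2 (show w.length ≤ w.length from le_rfl)
  have h5 : t' = 0 := by
    have h6 : 0 + 1 = t' + 0 + 1 := h3
    omega
  rw [h5] at h4
  obtain ⟨f, h6⟩ := gu_blocks hb h0 hW w.length 0 1 (by omega) h4
  exact ⟨_, f, h2.tr h6⟩

end Pool.Agent.U593.UA
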