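import Mathlib
import Pool.Agent.U593.UA.Compl

set_option autoImplicit false

/-! The walk is deterministic on the way to a final state. -/

namespace Pool.Agent.U593.UA

open Pool.Agent.H630R2.LA Pool.Agent.U593.SV Pool.Agent.U593.TW Relation

variable {A : Type} {B : ℕ} {rel : A → ℕ → ℕ → Prop} {p0 : ℕ} {facc : ℕ → Prop}
variable {Wt : ℕ → ℕ → ℕ → ℕ → ℕ} {KK : ℕ} {w : List A} {b : ℕ → Bool}

theorem pth_last {i t0 : ℕ} (m : ℕ) : ∀ (j y p r : ℕ), pth B rel Wt w i t0 j y (m + 1) p r →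
    ∃ x r', pth B rel Wt w i t0 j y m x r' ∧ p < B ∧
      (∃ a, w[t0 + (j + m)]? = some a ∧ rel a x p) ∧ r = r' + Wt i (j + m) x p := by
  induction m with
  | zero =>
    rintro j y p r ⟨z, r', hz, h1, ⟨rfl, rfl⟩, rfl⟩
    exact ⟨y, 0, ⟨rfl, rfl⟩, hz, h1, by rw [Nat.add_zero, Nat.add_zero, Nat.zero_add]⟩
  | succ m ih =>
    rintro j y p r ⟨z, r', hz, h1, h2, rfl⟩
    obtain ⟨x, r'', h3, h4, h5, rfl⟩ := ih _ _ _ _ h2
    have h6 : j + (m + 1) = j + 1 + m := by omega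
    rw [h6]
    exact ⟨x, _, ⟨z, r'', hz, h1, h3, rfl⟩, h4, h5, by omega⟩

/-- A lightest path is unique. -/
theorem pth_unique (h0 : p0 < B) {i t0 o : ℕ}
    (hU : ∀ j, j < o → ∀ u, u < B → MU B rel p0 Wt w i t0 j u) (m : ℕ) :
    ∀ j y y' a a' r r' p, j + m ≤ o → pw B rel p0 Wt w i t0 j y a →
    pw B rel p0 Wt w i t0 j y' a' → pth B rel Wt w i t0 j y m p r →
    pth B rel Wt w i t0 j y' m p r' → a + r = de B rel p0 Wt w i t0 (j + m) p →
    a' + r' = de B rel p0 Wt w i t0 (j + m) p → y = y' := by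
  induction m with
  | zero =>
    rintro j y y' a a' r r' p _ _ _ ⟨rfl, _⟩ ⟨rfl, _⟩ _ _
    rfl
  | succ m ih =>
    intro j y y' a a' r r' p hj h1 h2 h3 h4 h5 h6
    obtain ⟨x, s, g1, g2, g3, rfl⟩ := pth_last m _ _ _ _ h3
    obtain ⟨x', s', g1', _, g3', rfl⟩ := pth_last m _ _ _ _ h4
    have k1 := pw_pth m _ _ _ _ _ h1 g1
    have k2 := pw_pth m _ _ _ _ _ h2 g1'
    have hx : x = x' := hU (j + m) (by omega) p g2 x x' _ _ k1 k2 g3 g3'
      (by rw [Nat.add_assoc a, h5]; rfl) (by rw [Nat.add_assoc a', h6]; rfl)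
    subst hx
    have k3 := de_mem (Wt := Wt) (i := i) (pw_nr _ _ _ k1)
    have k4 : pw B rel p0 Wt w i t0 (j + m + 1) p
        (de B rel p0 Wt w i t0 (j + m) x + Wt i (j + m) x p) :=
      pw_succ.2 ⟨g2, x, _, k3, g3, rfl⟩
    have k5 := de_le k4
    have k6 := de_le k1
    have k7 := de_le k2
    have k8 : de B rel p0 Wt w i t0 (j + (m + 1)) p = de B rel p0 Wt w i t0 (j + m + 1) p := rfl
    exact ih j y y' a a' s s' x (by omega) h1 h2 g1 g1' (by omega) (by omega)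

/-- The numbers are right. -/
def KP (B : ℕ) (rel : A → ℕ → ℕ → Prop) (p0 : ℕ) (Wt : ℕ → ℕ → ℕ → ℕ → ℕ) (w : List A)
    (v : Rv) (t0 : ℕ) : Prop :=
  v.k = cn B rel p0 w (t0 + v.o) v.p ∧ v.g = sm B rel p0 Wt w v.i t0 v.o v.p

/-- The backward invariant. -/
def KU (B : ℕ) (rel : A → ℕ → ℕ → Prop) (p0 : ℕ) (Wt : ℕ → ℕ → ℕ → ℕ → ℕ)
    (w : List A) (b : ℕ → Bool) : Wu → ℕ → Prop
  | .main v, x => RB B rel p0 w b ∧ (v.q < B → ∀ t0, x = t0 + v.o + 1 →
      KP B rel p0 Wt w v t0)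
  | .goL v m, x => RB B rel p0 w b ∧ ∀ t0, x = t0 + m → KP B rel p0 Wt w v t0 ∧
      nr B rel p0 w (t0 + v.o) v.p
  | .sL v s m, x => RB B rel p0 w b ∧ ∀ t0, x + s = t0 + m → KP B rel p0 Wt w v t0 ∧
      nr B rel p0 w t0 s ∧ pth B rel Wt w v.i t0 0 s v.o v.p (de B rel p0 Wt w v.i t0 v.o v.p)
  | .sR v s m, x => RB B rel p0 w b ∧ ∀ t0, x + m = t0 → KP B rel p0 Wt w v t0 ∧
      nr B rel p0 w t0 s ∧ pth B rel Wt w v.i t0 0 s v.o v.p (de B rel p0 Wt w v.i t0 v.o v.p)
  | .goR v y m l, x => RB B rel p0 w b ∧ ∀ t0, x + m = t0 + v.o + 1 →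
      KP B rel p0 Wt w v t0 ∧ ∃ r, pth B rel Wt w v.i t0 (v.o - m) y m v.p r ∧
        l + r = de B rel p0 Wt w v.i t0 v.o v.p
  | _, _ => RB B rel p0 w b

/-- While a path is searched `q` is a state. -/
def QB (B : ℕ) : Wu → Prop
  | .goL v _ => v.q < B
  | .sL v _ _ => v.q < B
  | .sR v _ _ => v.q < B
  | .goR v _ _ _ => v.q < B
  | _ => True

theorem QB_EU {σ : Sym (WS A)} {s s' : Wu} (h : EU B rel facc Wt KK σ s s') (hQ : QB B s) :
    QB B s' := by
  cases h with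
  | yes v hv hq => exact hq
  | choose v s hs hm => exact hQ
  | bit v s hb => exact hQ
  | _ => trivial

theorem QB_MU {σ : Sym (WS A)} {s s' : Wu} {d : Bool} (h : MU1 B rel p0 Wt σ s s' d)
    (hQ : QB B s) : QB B s' := by
  cases h with
  | goL v m => exact hQ
  | goL0 v h => exact hQ
  | sL v s m => exact hQ
  | sR v s m => exact hQ
  | sR0 v s => exact hQ
  | goR v y m l z hz h => exact hQ
  | _ => trivial

theorem KU.rb {s : Wu} {x : ℕ} (h : KU B rel p0 Wt w b s x) : RB B rel p0 w b := by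
  cases s with
  | main v => exact h.1
  | goL v m => exact h.1
  | sL v s m => exact h.1
  | sR v s m => exact h.1
  | goR v y m l => exact h.1
  | _ => exact h

theorem MV.KP_of_Dn {v : Rv} {t0 : ℕ} (h : MV B rel p0 facc Wt KK w b v t0) (hD : Dn B v) :
    KP B rel p0 Wt w v t0 := by
  obtain ⟨h1, h2, h3⟩ := hD
  unfold KP
  rw [h1, h2, h3]
  exact ⟨h.hc, h.hs⟩

theorem MV.KP_main {v : Rv} {t0 x : ℕ} (h : MV B rel p0 facc Wt KK w b v t0) (hD : Dn B v)
    (hx : x = t0 + v.o + 1) (t1 : ℕ) (hx' : x = t1 + v.o + 1) : KP B rel p0 Wt w v t1 := by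
  have h1 : t1 = t0 := by omega
  rw [h1]
  exact h.KP_of_Dn hD

/-- A skipped state is not reachable. -/
theorem MV.skip_back {v : Rv} {t0 : ℕ} (h : MV B rel p0 facc Wt KK w b v t0)
    (hK : KP B rel p0 Wt w { v with p := v.p + 1 } t0) :
    ¬ nr B rel p0 w (t0 + v.o) v.p ∧ KP B rel p0 Wt w v t0 := by
  classical
  obtain ⟨f, h1, h2, h3, h4, h5⟩ := h.hX
  have k1 : v.k ≤ cn B rel p0 w (t0 + v.o) v.p := by
    rw [h3]
    exact cnt_le h2
  have k2 : v.k = cn B rel p0 w (t0 + v.o) (v.p + 1) := hK.1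
  have k3 : v.g = sm B rel p0 Wt w v.i t0 v.o (v.p + 1) := hK.2
  rw [cn_add] at k2
  have k4 : ¬ nr B rel p0 w (t0 + v.o) v.p := by
    intro hn
    rw [if_pos hn] at k2
    omega
  rw [if_neg k4] at k2
  rw [sm_succ, de_none k4] at k3
  exact ⟨k4, by omega, by omega⟩

/-- A found state has been found with its least weight. -/
theorem MV.done_back {v : Rv} {t0 l : ℕ} (h : MV B rel p0 facc Wt KK w b v t0)
    (hl : pw B rel p0 Wt w v.i t0 v.o v.p l)
    (hk : v.k + 1 = cn B rel p0 w (t0 + v.o) (v.p + 1))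
    (hg : v.g + l = sm B rel p0 Wt w v.i t0 v.o (v.p + 1)) :
    KP B rel p0 Wt w v t0 ∧ l = de B rel p0 Wt w v.i t0 v.o v.p := by
  classical
  obtain ⟨f, h1, h2, h3, h4, h5⟩ := h.hX
  have k1 : v.k ≤ cn B rel p0 w (t0 + v.o) v.p := by
    rw [h3]
    exact cnt_le h2
  rw [cn_add, if_pos (pw_nr _ _ _ hl)] at hk
  have k2 : v.k = cn B rel p0 w (t0 + v.o) v.p := by omega
  have k3 := (found_all h2 (by rw [← k2, h3])).2
  rw [← h4] at k3
  have k4 := de_le hl
  rw [sm_succ] at hg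
  exact ⟨⟨k2, by omega⟩, by omega⟩

theorem pth_nr {i t0 s o p r : ℕ} (hs : nr B rel p0 w t0 s)
    (h : pth B rel Wt w i t0 0 s o p r) : nr B rel p0 w (t0 + o) p := by
  have h1 := pw_pth (p0 := p0) o 0 s 0 p r ⟨hs, rfl⟩ h
  rw [Nat.zero_add] at h1
  exact pw_nr _ _ _ h1

/-- The backward invariant and stationary steps. -/
theorem K_EU {x : ℕ} {s s' : Wu}
    (hE : EU B rel facc Wt KK (full w b x) s s')
    (hJ : JU B rel p0 facc Wt KK w b s x) (hQ : QB B s) (hK : KU B rel p0 Wt w b s' x) :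
    KU B rel p0 Wt w b s x := by
  have hR := hK.rb
  cases hE with
  | skip v hv hq =>
    obtain ⟨t0, hx, h⟩ := hJ
    refine ⟨hR, fun _ t1 hx1 => ?_⟩
    have h1 : t1 = t0 := by omega
    rw [h1]
    exact (h.skip_back (hK.2 hq t0 hx)).2
  | yes v hv hq => exact ⟨hR, fun _ t1 hx1 => (hK.2 t1 hx1).1⟩
  | choose v s hs hm =>
    refine ⟨hR, fun t1 hx1 => ?_⟩
    obtain ⟨h1, h2, h3⟩ := hK.2 t1 (by omega)
    exact ⟨h1, pth_nr h2 h3⟩
  | bit v s hb => exact ⟨hR, fun t1 hx1 => hK.2 t1 (by omega)⟩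
  | done v l =>
    obtain ⟨t0, h, hv, _, hpw, hx⟩ := hJ
    have hq : v.q < B := hQ
    have hpw' : pw B rel p0 Wt w v.i t0 v.o v.p l := hpw
    obtain ⟨h1, h2⟩ := hK.2 hq t0 hx
    obtain ⟨h3, h4⟩ := h.done_back hpw' h1 h2
    refine ⟨hR, fun t1 hx1 => ?_⟩
    have h5 : t1 = t0 := by omega
    rw [h5]
    exact ⟨h3, 0, ⟨rfl, rfl⟩, h4⟩
  | next v hD hq hbad ho hm =>
    obtain ⟨t0, hx, h⟩ := hJ
    exact ⟨hR, fun _ t1 hx1 => h.KP_main hD hx t1 hx1⟩
  | look v hD hq hbad ho hm =>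
    obtain ⟨t0, hx, h⟩ := hJ
    exact ⟨hR, fun _ t1 hx1 => h.KP_main hD hx t1 hx1⟩
  | again v hD hq hbad hi hm =>
    obtain ⟨t0, hx, h⟩ := hJ
    exact ⟨hR, fun _ t1 hx1 => h.KP_main hD hx t1 hx1⟩
  | stopz v f hD hq hσ hf =>
    obtain ⟨t0, hx, h⟩ := hJ
    exact ⟨hR, fun _ t1 hx1 => h.KP_main hD hx t1 hx1⟩
  | _ => exact hR

/-- The backward invariant and moves. -/
theorem K_MU {x y : ℕ} {s s' : Wu} {d : Bool}
    (hM : MU1 B rel p0 Wt (full w b x) s s' d) (hr : d = true → y = x + 1)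
    (hl : d = false → y + 1 = x)
    (hJ : JU B rel p0 facc Wt KK w b s x) (hK : KU B rel p0 Wt w b s' y) :
    KU B rel p0 Wt w b s x := by
  have hR := hK.rb
  cases hM with
  | goL v m =>
    have h2 := hl rfl
    exact ⟨hR, fun t1 hx1 => hK.2 t1 (by omega)⟩
  | goL0 v h =>
    have h3 := full_eq_lm.1 h
    have h4 := hr rfl
    refine ⟨hR, fun t1 hx1 => ?_⟩
    obtain ⟨h5, r, h6, h7⟩ := hK.2 t1 (by omega)
    refine ⟨h5, ?_⟩
    have h8 : t1 = 0 := by omega
    rw [Nat.sub_self] at h6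
    subst h8
    exact pth_nr (by exact rfl) h6
  | sL v s m =>
    have h2 := hl rfl
    exact ⟨hR, fun t1 hx1 => hK.2 t1 (by omega)⟩
  | sR v s m =>
    have h2 := hr rfl
    exact ⟨hR, fun t1 hx1 => hK.2 t1 (by omega)⟩
  | sR0 v s =>
    obtain ⟨t0, h, hv, hs, hx, hm⟩ := hJ
    have h2 := hr rfl
    refine ⟨hR, fun t1 hx1 => ?_⟩
    obtain ⟨h5, r, h6, h7⟩ := hK.2 t1 (by omega)
    have h8 : t1 = t0 := by omega
    rw [Nat.sub_self] at h6
    rw [Nat.zero_add] at h7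
    rw [h7] at h6
    refine ⟨h5, ?_, h6⟩
    rw [h8]
    exact hs
  | goR v u m l z hz h =>
    obtain ⟨t0, h1, hv, hm, hpw, hx⟩ := hJ
    have h4 := hr rfl
    refine ⟨hR, fun t1 hx1 => ?_⟩
    obtain ⟨h5, r, h6, h7⟩ := hK.2 t1 (by omega)
    refine ⟨h5, Wt v.i (v.o - (m + 1)) u z + r, ?_, by omega⟩
    obtain ⟨a, c, h8, h9⟩ := h
    have hmk : IsMark (full w b x) := ⟨a, c, h8⟩
    obtain ⟨h10, h11⟩ := isMark_full.1 hmk
    have h12 : v.o - m = v.o - (m + 1) + 1 := by omega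
    rw [h12] at h6
    refine ⟨z, r, hz, ⟨a, ?_, h9⟩, h6, rfl⟩
    have h13 : t1 + (v.o - (m + 1)) = x - 1 := by omega
    rw [h13]
    rw [full_mark h10 h11] at h8
    simp only [Sym.sym.injEq, WS.mark.injEq] at h8
    rw [List.getElem?_eq_getElem (by omega), h8.1]
  | adv v hq hm =>
    exact ⟨hR, fun h => absurd hq (by omega)⟩
  | _ => exact hR

theorem not_isMark_lm : ¬ IsMark (.lm : Sym (WS A)) := by
  rintro ⟨a, c, h⟩
  exact absurd h (by simp)

theorem not_isMark_rm : ¬ IsMark (.rm : Sym (WS A)) := by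
  rintro ⟨a, c, h⟩
  exact absurd h (by simp)

/-- Two stationary steps. -/
theorem det_EE (h0 : p0 < B) {x : ℕ} {s s1 s2 : Wu}
    (h1 : EU B rel facc Wt KK (full w b x) s s1) (h2 : EU B rel facc Wt KK (full w b x) s s2)
    (hJ : JU B rel p0 facc Wt KK w b s x) (hK1 : KU B rel p0 Wt w b s1 x)
    (hK2 : KU B rel p0 Wt w b s2 x) : s1 = s2 := by
  have hsy : ∀ v : Rv, v.q < B → JU B rel p0 facc Wt KK w b (.main v) x →
      KU B rel p0 Wt w b (.main { v with p := v.p + 1 }) x →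
      KU B rel p0 Wt w b (.goL v (v.o + 1)) x → False := by
    rintro v hq ⟨t0, hx, h⟩ k1 k2
    exact (h.skip_back (k1.2 hq t0 hx)).1 (k2.2 t0 (by omega)).2
  cases h1 with
  | skip v hv hq =>
    cases h2 with
    | skip => rfl
    | yes => exact (hsy v hq hJ hK1 hK2).elim
    | next _ hD => exact absurd hD.1 (by omega)
    | look _ hD => exact absurd hD.1 (by omega)
    | again _ hD => exact absurd hD.1 (by omega)
    | stopz _ _ hD => exact absurd hD.1 (by omega)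
  | yes v hv hq =>
    cases h2 with
    | skip => exact (hsy v hq hJ hK2 hK1).elim
    | yes => rfl
    | next _ hD => exact absurd hD.1 (by omega)
    | look _ hD => exact absurd hD.1 (by omega)
    | again _ hD => exact absurd hD.1 (by omega)
    | stopz _ _ hD => exact absurd hD.1 (by omega)
  | choose v s hs hm =>
    cases h2 with
    | choose _ s' hs' hm' =>
      obtain ⟨t0, h, hv, hx, _⟩ := hJ
      obtain ⟨_, g1, g2⟩ := hK1.2 t0 (by omega)
      obtain ⟨_, g3, g4⟩ := hK2.2 t0 (by omega)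
      have h3 := pth_unique h0 h.hU v.o 0 s s' 0 0 _ _ v.p (by omega) ⟨g1, rfl⟩ ⟨g3, rfl⟩ g2 g4
        (by rw [Nat.zero_add, Nat.zero_add]) (by rw [Nat.zero_add, Nat.zero_add])
      rw [h3]
  | bit v s hb =>
    cases h2 with
    | bit => rfl
  | done v l =>
    cases h2 with
    | done => rfl
  | next v hD hq hbad ho hm =>
    cases h2 with
    | skip _ hv => exact absurd hD.1 (by omega)
    | yes _ hv => exact absurd hD.1 (by omega)
    | next => rfl
    | look _ _ _ _ ho' => exact absurd ho' (by omega)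
    | again _ _ _ hbad' => rw [hbad] at hbad'; exact absurd hbad' (by simp)
    | stopz _ _ _ _ hσ => rw [hσ] at hm; exact absurd hm not_isMark_rm
  | look v hD hq hbad ho hm =>
    cases h2 with
    | skip _ hv => exact absurd hD.1 (by omega)
    | yes _ hv => exact absurd hD.1 (by omega)
    | next _ _ _ _ ho' => exact absurd ho (by omega)
    | look => rfl
    | again _ _ _ hbad' => rw [hbad] at hbad'; exact absurd hbad' (by simp)
    | stopz _ _ _ _ hσ => rw [hσ] at hm; exact absurd hm not_isMark_rm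
  | cmp v hb =>
    cases h2 with
    | cmp => rfl
  | ret v =>
    cases h2 with
    | ret => rfl
  | again v hD hq hbad hi hm =>
    cases h2 with
    | skip _ hv => exact absurd hD.1 (by omega)
    | yes _ hv => exact absurd hD.1 (by omega)
    | next _ _ _ hbad' => rw [hbad] at hbad'; exact absurd hbad' (by simp)
    | look _ _ _ hbad' => rw [hbad] at hbad'; exact absurd hbad' (by simp)
    | again => rfl
    | stopz _ _ _ _ hσ => rw [hσ] at hm; exact absurd hm not_isMark_rm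
  | restart v =>
    cases h2 with
    | restart => rfl
  | stopz v f hD hq hσ hf =>
    cases h2 with
    | skip _ hv => exact absurd hD.1 (by omega)
    | yes _ hv => exact absurd hD.1 (by omega)
    | next _ _ _ _ _ hm => rw [hσ] at hm; exact absurd hm not_isMark_rm
    | look _ _ _ _ _ hm => rw [hσ] at hm; exact absurd hm not_isMark_rm
    | again _ _ _ _ _ hm => rw [hσ] at hm; exact absurd hm not_isMark_rm
    | stopz _ f' _ _ _ hf' =>
      have h3 : f = f' := by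
        rw [Bool.eq_iff_iff, hf, hf']
      rw [h3]
  | chk f o m hb =>
    cases h2 with
    | chk => rfl
  | turn f o =>
    cases h2 with
    | turn => rfl

/-- A stationary step and a move. -/
theorem det_EM {x : ℕ} {s s1 s2 : Wu} {d : Bool}
    (h1 : EU B rel facc Wt KK (full w b x) s s1) (h2 : MU1 B rel p0 Wt (full w b x) s s2 d) :
    False := by
  cases h1 with
  | skip v hv hq =>
    cases h2 with
    | adv _ hq' => omega
  | yes v hv hq =>
    cases h2 with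
    | adv _ hq' => omega
  | choose v s hs hm =>
    cases h2 with
    | goL0 _ h => rw [h] at hm; exact not_isMark_lm hm
  | bit v s hb => cases h2
  | done v l => cases h2
  | next v hD hq hbad ho hm =>
    cases h2 with
    | adv _ hq' => omega
  | look v hD hq hbad ho hm =>
    cases h2 with
    | adv _ hq' => omega
  | cmp v hb => cases h2
  | ret v => cases h2
  | again v hD hq hbad hi hm =>
    cases h2 with
    | adv _ hq' => omega
  | restart v => cases h2
  | stopz v f hD hq hσ hf =>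
    cases h2 with
    | adv _ hq' => omega
  | chk f o m hb => cases h2
  | turn f o => cases h2

/-- Two moves. -/
theorem det_MM (h0 : p0 < B) {x y1 y2 : ℕ} {s s1 s2 : Wu} {d1 d2 : Bool}
    (h1 : MU1 B rel p0 Wt (full w b x) s s1 d1) (h2 : MU1 B rel p0 Wt (full w b x) s s2 d2)
    (hr1 : d1 = true → y1 = x + 1) (hr2 : d2 = true → y2 = x + 1)
    (hJ : JU B rel p0 facc Wt KK w b s x) (hK1 : KU B rel p0 Wt w b s1 y1)
    (hK2 : KU B rel p0 Wt w b s2 y2) : s1 = s2 ∧ d1 = d2 := by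
  cases h1 with
  | rwL hm =>
    cases h2 with
    | rwL => exact ⟨rfl, rfl⟩
    | rwR h => rw [h] at hm; exact absurd hm not_isMark_lm
  | rwR h =>
    cases h2 with
    | rwL hm => rw [h] at hm; exact absurd hm not_isMark_lm
    | rwR => exact ⟨rfl, rfl⟩
  | goL v m =>
    cases h2 with
    | goL => exact ⟨rfl, rfl⟩
  | goL0 v h =>
    cases h2 with
    | goL0 => exact ⟨rfl, rfl⟩
  | sL v s m =>
    cases h2 with
    | sL => exact ⟨rfl, rfl⟩
  | sR v s m =>
    cases h2 with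
    | sR => exact ⟨rfl, rfl⟩
  | sR0 v s =>
    cases h2 with
    | sR0 => exact ⟨rfl, rfl⟩
  | goR v y m l z hz h =>
    cases h2 with
    | goR _ _ _ _ z' hz' h' =>
      have k1 := hr1 rfl
      have k2 := hr2 rfl
      have hJ1 := J_MU (KK := KK) (facc := facc) (p0 := p0) h0 (hJ.elim fun _ h => by
        have := h.1.hi; omega) (MU1.goR v y m l z hz h) (fun _ => k1)
        (fun h => absurd h (by simp)) hJ
      have hJ2 := J_MU (KK := KK) (facc := facc) (p0 := p0) h0 (hJ.elim fun _ h => by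
        have := h.1.hi; omega) (MU1.goR v y m l z' hz' h') (fun _ => k2)
        (fun h => absurd h (by simp)) hJ
      obtain ⟨t0, hV, hv, hm, hpw, hx⟩ := hJ
      obtain ⟨t1, _, _, _, hpw1, hx1⟩ := hJ1
      obtain ⟨t2, _, _, _, hpw2, hx2⟩ := hJ2
      have e1 : t1 = t0 := by omega
      have e2 : t2 = t0 := by omega
      subst e1
      subst e2
      obtain ⟨_, r, g1, g2⟩ := hK1.2 t2 (by omega)
      obtain ⟨_, r', g3, g4⟩ := hK2.2 t2 (by omega)
      have e3 : v.o - m + m = v.o := by omega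
      have h3 := pth_unique h0 hV.hU m (v.o - m) z z' _ _ _ _ v.p (by omega) hpw1 hpw2 g1 g3
        (by rw [e3]; exact g2) (by rw [e3]; exact g4)
      rw [h3]
      exact ⟨rfl, rfl⟩
  | kL v m =>
    cases h2 with
    | kL => exact ⟨rfl, rfl⟩
  | kR v m =>
    cases h2 with
    | kR => exact ⟨rfl, rfl⟩
  | back v m =>
    cases h2 with
    | back => exact ⟨rfl, rfl⟩
  | adv v hq hm =>
    cases h2 with
    | adv => exact ⟨rfl, rfl⟩
  | zl f o m =>
    cases h2 with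
    | zl => exact ⟨rfl, rfl⟩
  | zr f m =>
    cases h2 with
    | zr => exact ⟨rfl, rfl⟩
  | zr0 f h =>
    cases h2 with
    | zr0 => exact ⟨rfl, rfl⟩

/-- **Determinism.** -/
theorem det_RU (h0 : p0 < B) {s : Wu} {x : ℕ} {y y' : Wu × ℕ}
    (h1 : RU B rel p0 facc Wt KK w b (s, x) y) (h2 : RU B rel p0 facc Wt KK w b (s, x) y')
    (hJ : JU B rel p0 facc Wt KK w b s x) (hK1 : KU B rel p0 Wt w b y.1 y.2)
    (hK2 : KU B rel p0 Wt w b y'.1 y'.2) : y = y' := by
  rcases h1 with ⟨h1, e1⟩ | ⟨d, h1, hr, hl⟩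
  · rcases h2 with ⟨h2, e2⟩ | ⟨d', h2, hr', hl'⟩
    · have e1' : y.2 = x := e1
      have e2' : y'.2 = x := e2
      rw [e1'] at hK1
      rw [e2'] at hK2
      exact Prod.ext (det_EE h0 h1 h2 hJ hK1 hK2) (by rw [e1', e2'])
    · exact (det_EM h1 h2).elim
  · rcases h2 with ⟨h2, e2⟩ | ⟨d', h2, hr', hl'⟩
    · exact (det_EM h2 h1).elim
    · obtain ⟨h3, h4⟩ := det_MM h0 h1 h2 hr hr' hJ hK1 hK2
      refine Prod.ext h3 ?_
      subst h4
      cases d with
      | true => rw [hr rfl, hr' rfl]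
      | false =>
        have g1 := hl rfl
        have g2 := hl' rfl
        omega

end Pool.Agent.U593.UA
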