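import Mathlib
import Pool.Agent.U593.TW.Gen
import Pool.Agent.U593.UA.Defs

set_option autoImplicit false

/-! # Unambiguous machines from walks that are deterministic on the way to a final state -/

namespace Pool.Agent.U593.UA

open Pool.Agent.H630R2.LA Pool.Agent.U593.SV Pool.Agent.U593.TW Relation

/-- A backward invariant that makes the walk deterministic. -/
structure Dk {A : Type} (K : Wk A) where
  Kb : List A → (ℕ → Bool) → K.T → ℕ → Prop
  β : List A → ℕ → Bool
  hβ : ∀ w b s x, Kb w b s x → ∀ j, 1 ≤ j → j ≤ w.length → b j = β w j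
  hfin : ∀ w b f x, K.J w b (K.fin f) x → Kb w b (K.fin f) x
  hback : ∀ w b s x y, K.J w b s x → K.R w b (s, x) y → Kb w b y.1 y.2 → Kb w b s x
  hdet : ∀ w b s x y y', K.J w b s x → K.R w b (s, x) y → K.R w b (s, x) y' →
    Kb w b y.1 y.2 → Kb w b y'.1 y'.2 → y = y'

variable {A : Type} {K : Wk A} (D : Dk K) {w : List A}

theorem full_inj {b b' : ℕ → Bool} {j : ℕ} (h1 : 1 ≤ j) (h2 : j ≤ w.length)
    (h : full w b j = full w b' j) : b j = b' j := by
  rw [← bitS_mark (b := b) h1 h2, ← bitS_mark (b := b') h1 h2, h]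

theorem Dk.back_E {b : ℕ → Bool} {x : ℕ} {s z : K.T}
    (h : ReflTransGen (K.E (full w b x)) s z) (hJ : K.J w b s x) (hK : D.Kb w b z x) :
    D.Kb w b s x := by
  induction h using ReflTransGen.head_induction_on with
  | refl => exact hK
  | @head s s1 h _ ih =>
    have hJ1 := K.hE _ _ _ _ _ h hJ
    exact D.hback w b s x (s1, x) hJ (Or.inl ⟨h, rfl⟩) (ih hJ1)

theorem Dk.back_M {b : ℕ → Bool} {x y : ℕ} {s z t : K.T} {d : Bool}
    (h : ReflTransGen (K.E (full w b x)) s z) (hM : K.Mv (full w b x) z t d)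
    (hr : d = true → y = x + 1) (hl : d = false → y + 1 = x) (hJ : K.J w b s x)
    (hK : D.Kb w b t y) : D.Kb w b s x :=
  D.back_E h hJ (D.hback w b z x (t, y) (gJ_Es h hJ) (Or.inr ⟨d, hM, hr, hl⟩) hK)

theorem pos_ne {x y : ℕ} {d : Bool} (hr : d = true → y = x + 1) (hl : d = false → y + 1 = x) :
    y ≠ x := by
  cases d with
  | true =>
    have := hr rfl
    omega
  | false =>
    have := hl rfl
    omega

/-- The steps of the machine are deterministic on the way to a final state. -/
theorem Dk.det_M {b : ℕ → Bool} {x : ℕ} {s z : K.T} (h : ReflTransGen (K.E (full w b x)) s z) :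
    ∀ {y y' : ℕ} {z' t t' : K.T} {d d' : Bool}, K.J w b s x → K.Mv (full w b x) z t d →
    (d = true → y = x + 1) → (d = false → y + 1 = x) → D.Kb w b t y →
    ReflTransGen (K.E (full w b x)) s z' → K.Mv (full w b x) z' t' d' →
    (d' = true → y' = x + 1) → (d' = false → y' + 1 = x) → D.Kb w b t' y' →
    t = t' ∧ d = d' := by
  induction h using ReflTransGen.head_induction_on with
  | refl =>
    intro y y' z' t t' d d' hJ hM hr hl hK h' hM' hr' hl' hK'
    rcases ReflTransGen.cases_head h' with h1 | ⟨c, h1, h2⟩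
    · subst h1
      have h3 := D.hdet w b _ x (t, y) (t', y') hJ (Or.inr ⟨d, hM, hr, hl⟩)
        (Or.inr ⟨d', hM', hr', hl'⟩) hK hK'
      have h4 : t = t' := congrArg Prod.fst h3
      have h5 : y = y' := congrArg Prod.snd h3
      refine ⟨h4, ?_⟩
      cases d with
      | true =>
        cases d' with
        | true => rfl
        | false =>
          have := hr rfl
          have := hl' rfl
          omega
      | false =>
        cases d' with
        | true =>
          have := hl rfl
          have := hr' rfl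
          omega
        | false => rfl
    · exfalso
      have hJ1 := K.hE _ _ _ _ _ h1 hJ
      have h3 := D.back_M h2 hM' hr' hl' hJ1 hK'
      have h4 := D.hdet w b _ x (t, y) (c, x) hJ (Or.inr ⟨d, hM, hr, hl⟩)
        (Or.inl ⟨h1, rfl⟩) hK h3
      exact pos_ne hr hl (congrArg Prod.snd h4)
  | @head s s1 h hz ih =>
    intro y y' z' t t' d d' hJ hM hr hl hK h' hM' hr' hl' hK'
    have hJ1 := K.hE _ _ _ _ _ h hJ
    have k1 := D.back_M hz hM hr hl hJ1 hK
    rcases ReflTransGen.cases_head h' with h1 | ⟨c, h1, h2⟩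
    · exfalso
      subst h1
      have h4 := D.hdet w b _ x (t', y') (s1, x) hJ (Or.inr ⟨d', hM', hr', hl'⟩)
        (Or.inl ⟨h, rfl⟩) hK' k1
      exact pos_ne hr' hl' (congrArg Prod.snd h4)
    · have hJ2 := K.hE _ _ _ _ _ h1 hJ
      have k2 := D.back_M h2 hM' hr' hl' hJ2 hK'
      have h4 := D.hdet w b _ x (s1, x) (c, x) hJ (Or.inl ⟨h, rfl⟩) (Or.inl ⟨h1, rfl⟩) k1 k2
      have h5 : s1 = c := congrArg Prod.fst h4
      subst h5
      exact ih hJ1 hM hr hl hK h2 hM' hr' hl' hK'

variable [Finite A]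

/-- The backward invariant of the machine. -/
def GK (w : List A) (c : Cfg (gM K)) : Prop :=
  (∀ i b, i ≤ w.length → c.state = none → c.pos = i + 1 → c.tape = mix w b i →
    ∀ j, 1 ≤ j → j ≤ i → b j = D.β w j) ∧
  ∀ s b, c.state = some s → c.tape = full w b → K.J w b s.1 c.pos → D.Kb w b s.1 c.pos

/-- What a step in the second phase does. -/
theorem phase_two {strict : Prop} {c c' : Cfg (gM K)} {b : ℕ → Bool} {s : {s : K.T // K.Bd s}}
    (hs : Step strict w.length c c') (hst : c.state = some s) (ht : c.tape = full w b)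
    (hseen : ∀ j, 1 ≤ j → j ≤ w.length + 1 → j ∈ c.seen) :
    ∃ (t : {s : K.T // K.Bd s}) (z : K.T) (d : Bool), c'.state = some t ∧ c'.tape = full w b ∧
      ReflTransGen (K.E (full w b c.pos)) s.1 z ∧ K.Mv (full w b c.pos) z t.1 d ∧
      (d = true → c'.pos = c.pos + 1) ∧ (d = false → c'.pos + 1 = c.pos) := by
  obtain ⟨hle, q, x, d, hδ, _, hst', ht1, ht2, hse, hr, hl⟩ := hs
  rcases hδ with ⟨h1, _⟩ | ⟨hx, s', t, z, hs', ht', hz, hM⟩
  · rw [hst] at h1
    exact absurd h1 (by simp)
  · rw [hst] at hs'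
    have hss : s = s' := Option.some.inj hs'
    subst hss
    rw [ht] at hz hM
    refine ⟨t, z, d, hst'.trans ht', ?_, hz, hM, hr, hl⟩
    by_cases hin : c.pos ∈ c.seen
    · rw [ht1 hin, ht]
    · have hpos : c.pos = 0 := by
        by_contra hne
        exact hin (hseen _ (by omega) hle)
      rw [ht2 hin, ht, hpos]
      exact upd_full b (Or.inl rfl) x

/-- What a step in the first phase does. -/
theorem phase_one {strict : Prop} {c c' : Cfg (gM K)} {b : ℕ → Bool} {i : ℕ}
    (hs : Step strict w.length c c') (hi : i ≤ w.length) (hst : c.state = none)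
    (hpos : c.pos = i + 1) (htape : c.tape = mix w b i)
    (hseen : ∀ j, j ∈ c.seen ↔ 1 ≤ j ∧ j ≤ i) :
    (∃ (hi : i < w.length) (e : Bool), c'.state = none ∧ c'.pos = i + 2 ∧
      c'.tape = mix w (fun j => if j = i + 1 then e else b j) (i + 1) ∧
      ∃ (x : (gM K).W), x = WS.mark w[i] e ∧
        c'.tape = Function.update c.tape c.pos ((c.tape c.pos).rewrite x)) ∨
    (i = w.length ∧ c'.state = some ⟨K.rw, K.bdrw⟩ ∧ c'.tape = full w b ∧
      c'.pos = w.length) := by
  obtain ⟨hle, q, x, d, hδ, _, hst', ht1, ht2, hse, hr, hl⟩ := hs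
  have hnot : c.pos ∉ c.seen := by
    rw [hseen, hpos]
    omega
  have htape' := ht2 hnot
  rcases hδ with ⟨_, h1⟩ | ⟨_, s, t, z, hz, _⟩
  · rcases h1 with ⟨a, h2, h3, ⟨e, h4⟩, h5⟩ | ⟨h2, h3, h4, h5⟩
    · left
      have h2' := h2
      rw [htape, hpos] at h2'
      have hi' : i < w.length := by
        by_contra hcon
        rw [mix_end b (by omega)] at h2'
        exact absurd h2' (by simp)
      rw [mix_next b hi'] at h2'
      have h2'' : w[i] = a := by
        have h6 : (Sym.sym (WS.raw w[i]) : Sym (WS A)) = Sym.sym (WS.raw a) := h2'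
        simp only [Sym.sym.injEq, WS.raw.injEq] at h6
        exact h6
      have h4' : x = WS.mark a e := h4
      refine ⟨hi', e, hst'.trans h3, ?_, ?_, x, ?_, htape'⟩
      · rw [hr h5, hpos]
      · rw [htape', hpos, htape, mix_next b hi', ← mix_update b _ hi' (fun j hj => by
          rw [if_neg (by omega)])]
        rw [h4', h2'', if_pos rfl]
        rfl
      · rw [h4', h2'']
    · right
      have h2' := h2
      rw [htape, hpos] at h2'
      have hi' : i = w.length := by
        by_contra hcon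
        rw [mix_next b (by omega)] at h2'
        exact absurd h2' (by simp)
      subst hi'
      refine ⟨rfl, hst'.trans h3, ?_, ?_⟩
      · rw [htape', hpos, htape, mix_all]
        exact upd_full b (Or.inr (by omega)) x
      · have := hl h5
        omega
  · rw [hst] at hz
    exact absurd hz (by simp)

/-- The backward invariant is preserved backwards. -/
theorem GK_back {strict : Prop} {c c' : Cfg (gM K)} (hI : GInv K w c)
    (hs : Step strict w.length c c') (hK : GK D w c') : GK D w c := by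
  have hI' := ginv_step hs hI
  refine ⟨?_, ?_⟩
  · intro i b hi hst hpos htape
    have hseen : ∀ j, j ∈ c.seen ↔ 1 ≤ j ∧ j ≤ i := by
      rcases hI with ⟨i', b', _, _, hp', _, hse⟩ | ⟨b', s, hst', _⟩
      · have h1 : i' = i := by omega
        rw [h1] at hse
        exact hse
      · rw [hst] at hst'
        exact absurd hst' (by simp)
    rcases phase_one hs hi hst hpos htape hseen with ⟨hi', e, h1, h2, h3, _⟩ | ⟨hi', h1, h2, h3⟩
    · intro j hj1 hj2
      have h4 := hK.1 (i + 1) _ hi' h1 h2 h3 j hj1 (by omega)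
      rw [if_neg (by omega)] at h4
      exact h4
    · have hJ : K.J w b K.rw c'.pos := by
        rw [h3]
        exact K.hrw _ _ _ le_rfl
      have h4 := hK.2 _ b h1 h2 hJ
      intro j hj1 hj2
      exact D.hβ _ _ _ _ h4 j hj1 (by omega)
  · intro s b hst htape hJ
    have hseen : ∀ j, 1 ≤ j → j ≤ w.length + 1 → j ∈ c.seen := by
      rcases hI with ⟨i', b', _, hp1, _⟩ | ⟨b', s', hst', _, hse, _⟩
      · rw [hst] at hp1
        exact absurd hp1 (by simp)
      · exact hse
    obtain ⟨t, z, d, h1, h2, h3, h4, h5, h6⟩ := phase_two hs hst htape hseen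
    exact D.back_M h3 h4 h5 h6 hJ (hK.2 t b h1 h2 (K.hM _ _ _ _ _ _ _ h4 h5 h6 (gJ_Es h3 hJ)))

theorem GK_fin {c : Cfg (gM K)} (h : c.state ∈ (gM K).F ∪ gR K) : GK D w c := by
  have h1 : ∃ f, c.state = some ⟨K.fin f, K.bdfin f⟩ := by
    rcases h with h | h
    · exact ⟨true, h⟩
    · exact ⟨false, h⟩
  obtain ⟨f, hf⟩ := h1
  refine ⟨?_, ?_⟩
  · intro i b _ hst
    rw [hf] at hst
    exact absurd hst (by simp)
  · intro s b hst _ hJ
    rw [hf] at hst
    have h2 : (⟨K.fin f, K.bdfin f⟩ : {s : K.T // K.Bd s}) = s := Option.some.inj hst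
    subst h2
    exact D.hfin _ _ _ _ hJ

/-- Two steps of the machine towards final states are equal. -/
theorem G_det {strict : Prop} {c c1 c2 : Cfg (gM K)} (hI : GInv K w c)
    (hs1 : Step strict w.length c c1) (hs2 : Step strict w.length c c2)
    (hK1 : GK D w c1) (hK2 : GK D w c2) : c1 = c2 := by
  have hse1 : c1.seen = insert c.pos c.seen := by
    obtain ⟨_, _, _, _, _, _, _, _, _, h, _⟩ := hs1
    exact h
  have hse2 : c2.seen = insert c.pos c.seen := by
    obtain ⟨_, _, _, _, _, _, _, _, _, h, _⟩ := hs2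
    exact h
  have key : c1.state = c2.state → c1.tape = c2.tape → c1.pos = c2.pos → c1 = c2 := by
    intro h1 h2 h3
    have h4 := hse1.trans hse2.symm
    obtain ⟨s1, p1, t1, e1⟩ := c1
    obtain ⟨s2, p2, t2, e2⟩ := c2
    simp only at h1 h2 h3 h4
    rw [h1, h2, h3, h4]
  rcases hI with ⟨i, b, hi, hst, hpos, htape, hseen⟩ | ⟨b, s, hst, htape, hseen, hJ⟩
  · rcases phase_one hs1 hi hst hpos htape hseen with ⟨hi', e, h1, h2, h3, _⟩ | ⟨hi', h1, h2, h3⟩
    · rcases phase_one hs2 hi hst hpos htape hseen with ⟨_, e', g1, g2, g3, _⟩ | ⟨hi'', _⟩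
      · have k1 := hK1.1 (i + 1) _ hi' h1 h2 h3 (i + 1) (by omega) le_rfl
        have k2 := hK2.1 (i + 1) _ hi' g1 g2 g3 (i + 1) (by omega) le_rfl
        rw [if_pos rfl] at k1 k2
        refine key (h1.trans g1.symm) ?_ (h2.trans g2.symm)
        rw [h3, g3, k1, k2]
      · omega
    · rcases phase_one hs2 hi hst hpos htape hseen with ⟨hi'', _⟩ | ⟨_, g1, g2, g3⟩
      · omega
      · exact key (h1.trans g1.symm) (h2.trans g2.symm) (h3.trans g3.symm)
  · obtain ⟨t, z, d, h1, h2, h3, h4, h5, h6⟩ := phase_two hs1 hst htape hseen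
    obtain ⟨t', z', d', g1, g2, g3, g4, g5, g6⟩ := phase_two hs2 hst htape hseen
    have k1 := hK1.2 t b h1 h2 (K.hM _ _ _ _ _ _ _ h4 h5 h6 (gJ_Es h3 hJ))
    have k2 := hK2.2 t' b g1 g2 (K.hM _ _ _ _ _ _ _ g4 g5 g6 (gJ_Es g3 hJ))
    obtain ⟨e1, e2⟩ := D.det_M h3 hJ h4 h5 h6 k1 g3 g4 g5 g6 k2
    have e3 : t = t' := Subtype.ext e1
    subst e3
    subst e2
    refine key (h1.trans g1.symm) (h2.trans g2.symm) ?_
    cases d with
    | true => rw [h5 rfl, g5 rfl]
    | false =>
      have m1 := h6 rfl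
      have m2 := g6 rfl
      omega

/-- The configurations on the way to a final state satisfy the backward invariant. -/
theorem GK_chain {strict : Prop} (l : List (Cfg (gM K))) : ∀ c, GInv K w c →
    (c :: l).IsChain (Step strict w.length) → (∃ c', (c :: l).getLast? = some c' ∧
      c'.state ∈ (gM K).F ∪ gR K) → GK D w c := by
  induction l with
  | nil =>
    rintro c hI _ ⟨c', h1, h2⟩
    have h3 : c = c' := Option.some.inj h1
    subst h3
    exact GK_fin D h2
  | cons c1 l ih =>
    rintro c hI hc ⟨c', h1, h2⟩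
    rw [List.isChain_cons_cons] at hc
    have hI1 := ginv_step hc.1 hI
    refine GK_back D hI hc.1 (ih c1 hI1 hc.2 ⟨c', ?_, h2⟩)
    rw [List.getLast?_cons_cons] at h1
    exact h1

include D in
theorem G_unique {strict : Prop} (l : List (Cfg (gM K))) : ∀ (l' : List (Cfg (gM K))) c,
    GInv K w c →
    (c :: l).IsChain (Step strict w.length) → (∃ c', (c :: l).getLast? = some c' ∧
      c'.pos = w.length + 2 ∧ c'.state ∈ (gM K).F ∪ gR K) →
    (c :: l').IsChain (Step strict w.length) → (∃ c', (c :: l').getLast? = some c' ∧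
      c'.pos = w.length + 2 ∧ c'.state ∈ (gM K).F ∪ gR K) → l = l' := by
  induction l with
  | nil =>
    rintro l' c hI _ ⟨c', h1, h2, _⟩ h3 _
    have h4 : c = c' := Option.some.inj h1
    subst h4
    cases l' with
    | nil => rfl
    | cons c1 l' =>
      exfalso
      rw [List.isChain_cons_cons] at h3
      have := h3.1.1
      omega
  | cons c1 l ih =>
    rintro l' c hI hc hl hc' hl'
    cases l' with
    | nil =>
      exfalso
      obtain ⟨c', h1, h2, _⟩ := hl'
      have h4 : c = c' := Option.some.inj h1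
      subst h4
      rw [List.isChain_cons_cons] at hc
      have := hc.1.1
      omega
    | cons c2 l' =>
      rw [List.isChain_cons_cons] at hc hc'
      rw [List.getLast?_cons_cons] at hl hl'
      have hI1 := ginv_step hc.1 hI
      have hI2 := ginv_step hc'.1 hI
      have k1 := GK_chain D l c1 hI1 hc.2 (by
        obtain ⟨c', h1, _, h2⟩ := hl
        exact ⟨c', h1, h2⟩)
      have k2 := GK_chain D l' c2 hI2 hc'.2 (by
        obtain ⟨c', h1, _, h2⟩ := hl'
        exact ⟨c', h1, h2⟩)
      have h3 := G_det D hI hc.1 hc'.1 k1 k2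
      subst h3
      rw [ih l' c1 hI1 hc.2 hl hc'.2 hl']

include D in
/-- **The machine is unambiguous.** -/
theorem gM_unamb (strict : Prop) : Unamb strict (gM K) ((gM K).F ∪ gR K) := by
  rintro w l l' ⟨h1, h2, h3⟩ ⟨g1, g2, g3⟩
  cases l with
  | nil => exact absurd h1 (by simp)
  | cons c l =>
    cases l' with
    | nil => exact absurd g1 (by simp)
    | cons c' l' =>
      have h4 : c = init (gM K) w := Option.some.inj h1
      have g4 : c' = init (gM K) w := Option.some.inj g1
      subst h4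
      subst g4
      rw [G_unique D l l' _ ginv_init h2 h3 g2 g3]

theorem gM_disj (K : Wk A) : Disjoint (gM K).F (gR K) := by
  refine Set.disjoint_singleton.2 ?_
  intro h
  have h1 := congrArg Subtype.val (Option.some.inj h)
  exact absurd (K.fin_inj _ _ h1) (by simp)

theorem gM_size (K : Wk A) {X : ℕ} (hQ : Nat.card (gM K).Q ≤ X + 1) :
    (gM K).size + (gR K).ncard ≤ 110 * ((X + 1) ^ 2 * (Nat.card A + 1) ^ 2) := by
  have h1 := numTrans_le_all (gM K)
  have h2 := hQ
  have h3 : Nat.card (gM K).W = 3 * Nat.card A + 1 := card_WS A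
  have hF : (gM K).F.ncard = 1 := Set.ncard_singleton _
  have hR : (gR K).ncard = 1 := Set.ncard_singleton _
  unfold LimAut.size
  rw [hF, h3, hR]
  rw [h3] at h1
  generalize (gM K).numTrans = N at *
  generalize Nat.card (gM K).Q = q at *
  have hY : 1 ≤ X + 1 := by omega
  generalize X + 1 = Y at *
  generalize Nat.card A = a at *
  have h4 : q * ((3 * a + 1 + 2) * (q * ((3 * a + 1) * 2))) ≤
      Y * ((3 * (a + 1)) * (Y * ((3 * (a + 1)) * 2))) := by
    have h5 : 3 * a + 1 + 2 = 3 * (a + 1) := by ring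
    have h6 : 3 * a + 1 ≤ 3 * (a + 1) := by omega
    rw [h5]
    gcongr
  have h5 : Y * ((3 * (a + 1)) * (Y * ((3 * (a + 1)) * 2))) =
      18 * (Y ^ 2 * (a + 1) ^ 2) := by ring
  rw [h5] at h4
  have h6 : Y ≤ Y ^ 2 * (a + 1) ^ 2 := by
    have h7 : 1 ≤ Y * (a + 1) ^ 2 := Nat.mul_pos hY (by positivity)
    calc Y = Y * 1 := (mul_one Y).symm
      _ ≤ Y * (Y * (a + 1) ^ 2) := Nat.mul_le_mul_left _ h7
      _ = Y ^ 2 * (a + 1) ^ 2 := by ring
  have h7 : a + 1 ≤ Y ^ 2 * (a + 1) ^ 2 := by
    have h8 : 1 ≤ Y ^ 2 * (a + 1) := Nat.mul_pos (by positivity) (by omega)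
    calc a + 1 = 1 * (a + 1) := (one_mul _).symm
      _ ≤ (Y ^ 2 * (a + 1)) * (a + 1) := Nat.mul_le_mul_right _ h8
      _ = Y ^ 2 * (a + 1) ^ 2 := by ring
  omega

end Pool.Agent.U593.UA
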