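import Mathlib
import Pool.Agent.U593.UA.Co
import Pool.Agent.U593.UA.Gen2

set_option autoImplicit false

/-! The number of the states of the walk, and the machine. -/

namespace Pool.Agent.U593.UA

open Pool.Agent.H630R2.LA Pool.Agent.U593.SV Pool.Agent.U593.TW Relation

/-- Bounded registers. -/
def BdV (N : ℕ) (v : Rv) : Prop := v.i ≤ N ∧ v.z ≤ N ∧ v.o ≤ N ∧ v.c ≤ N ∧ v.s ≤ N ∧ v.q ≤ N ∧
  v.c' ≤ N ∧ v.s' ≤ N ∧ v.p ≤ N ∧ v.k ≤ N ∧ v.g ≤ N ∧ v.e ≤ N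

/-- Bounded states. -/
def BU (N : ℕ) : Wu → Prop
  | .rw => True
  | .main v => BdV N v
  | .goL v m => BdV N v ∧ m ≤ N
  | .sL v s m => BdV N v ∧ s ≤ N ∧ m ≤ N
  | .sR v s m => BdV N v ∧ s ≤ N ∧ m ≤ N
  | .goR v y m l => BdV N v ∧ y ≤ N ∧ m ≤ N ∧ l ≤ N
  | .kL v m => BdV N v ∧ m ≤ N
  | .kR v m => BdV N v ∧ m ≤ N
  | .back v m => BdV N v ∧ m ≤ N
  | .zl _ o m => o ≤ N ∧ m ≤ N
  | .zc _ o m => o ≤ N ∧ m ≤ N
  | .zr _ m => m ≤ N
  | .fin _ => True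

/-- The bounded states. -/
def QU (N : ℕ) : Type := {s : Wu // BU N s}

/-- A code of a state. -/
def codeU : Wu → ℕ × ℕ × ℕ × ℕ × ℕ × ℕ × ℕ × ℕ × ℕ × ℕ × ℕ × ℕ × ℕ × ℕ × ℕ × ℕ × Bool × Bool
  | .rw => (0, 0, 0, 0, 0, 0, 0, 0, 0, 0, 0, 0, 0, 0, 0, 0, false, false)
  | .main v => (1, v.i, v.z, v.o, v.c, v.s, v.q, v.c', v.s', v.p, v.k, v.g, v.e, 0, 0, 0, v.bad, false)
  | .goL v m => (2, v.i, v.z, v.o, v.c, v.s, v.q, v.c', v.s', v.p, v.k, v.g, v.e, m, 0, 0, v.bad, false)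
  | .sL v s m => (3, v.i, v.z, v.o, v.c, v.s, v.q, v.c', v.s', v.p, v.k, v.g, v.e, s, m, 0, v.bad, false)
  | .sR v s m => (4, v.i, v.z, v.o, v.c, v.s, v.q, v.c', v.s', v.p, v.k, v.g, v.e, s, m, 0, v.bad, false)
  | .goR v y m l => (5, v.i, v.z, v.o, v.c, v.s, v.q, v.c', v.s', v.p, v.k, v.g, v.e, y, m, l, v.bad, false)
  | .kL v m => (6, v.i, v.z, v.o, v.c, v.s, v.q, v.c', v.s', v.p, v.k, v.g, v.e, m, 0, 0, v.bad, false)
  | .kR v m => (7, v.i, v.z, v.o, v.c, v.s, v.q, v.c', v.s', v.p, v.k, v.g, v.e, m, 0, 0, v.bad, false)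
  | .back v m => (8, v.i, v.z, v.o, v.c, v.s, v.q, v.c', v.s', v.p, v.k, v.g, v.e, m, 0, 0, v.bad, false)
  | .zl f o m => (9, 0, 0, 0, 0, 0, 0, 0, 0, 0, 0, 0, 0, o, m, 0, false, f)
  | .zc f o m => (10, 0, 0, 0, 0, 0, 0, 0, 0, 0, 0, 0, 0, o, m, 0, false, f)
  | .zr f m => (11, 0, 0, 0, 0, 0, 0, 0, 0, 0, 0, 0, 0, m, 0, 0, false, f)
  | .fin f => (12, 0, 0, 0, 0, 0, 0, 0, 0, 0, 0, 0, 0, 0, 0, 0, false, f)

theorem codeU_inj : Function.Injective codeU := by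
  intro x y h
  cases x <;> cases y <;> simp only [codeU, Prod.mk.injEq] at h <;>
    first
    | rfl
    | (exfalso; have h' := h.1; omega)
    | (simp only [Wu.main.injEq, Wu.goL.injEq, Wu.sL.injEq, Wu.sR.injEq, Wu.goR.injEq,
        Wu.kL.injEq, Wu.kR.injEq, Wu.back.injEq, Wu.zl.injEq, Wu.zc.injEq, Wu.zr.injEq,
        Wu.fin.injEq, Rv.ext_iff]; tauto)

/-- The bounded codes. -/
def codeUF (N : ℕ) (x : QU N) : Fin 13 × Fin (N + 1) × Fin (N + 1) × Fin (N + 1) × Fin (N + 1) × Fin (N + 1) × Fin (N + 1) × Fin (N + 1) × Fin (N + 1) × Fin (N + 1) × Fin (N + 1) × Fin (N + 1) × Fin (N + 1) × Fin (N + 1) × Fin (N + 1) × Fin (N + 1) × Bool × Bool :=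
  (Fin.ofNat 13 ((codeU x.1).1),
    Fin.ofNat (N + 1) ((codeU x.1).2.1),
    Fin.ofNat (N + 1) ((codeU x.1).2.2.1),
    Fin.ofNat (N + 1) ((codeU x.1).2.2.2.1),
    Fin.ofNat (N + 1) ((codeU x.1).2.2.2.2.1),
    Fin.ofNat (N + 1) ((codeU x.1).2.2.2.2.2.1),
    Fin.ofNat (N + 1) ((codeU x.1).2.2.2.2.2.2.1),
    Fin.ofNat (N + 1) ((codeU x.1).2.2.2.2.2.2.2.1),
    Fin.ofNat (N + 1) ((codeU x.1).2.2.2.2.2.2.2.2.1),
    Fin.ofNat (N + 1) ((codeU x.1).2.2.2.2.2.2.2.2.2.1),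
    Fin.ofNat (N + 1) ((codeU x.1).2.2.2.2.2.2.2.2.2.2.1),
    Fin.ofNat (N + 1) ((codeU x.1).2.2.2.2.2.2.2.2.2.2.2.1),
    Fin.ofNat (N + 1) ((codeU x.1).2.2.2.2.2.2.2.2.2.2.2.2.1),
    Fin.ofNat (N + 1) ((codeU x.1).2.2.2.2.2.2.2.2.2.2.2.2.2.1),
    Fin.ofNat (N + 1) ((codeU x.1).2.2.2.2.2.2.2.2.2.2.2.2.2.2.1),
    Fin.ofNat (N + 1) ((codeU x.1).2.2.2.2.2.2.2.2.2.2.2.2.2.2.2.1),
    (codeU x.1).2.2.2.2.2.2.2.2.2.2.2.2.2.2.2.2.1,
    (codeU x.1).2.2.2.2.2.2.2.2.2.2.2.2.2.2.2.2.2)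

theorem codeU_bd {N : ℕ} (x : QU N) : (codeU x.1).1 < 13 ∧
    (codeU x.1).2.1 < N + 1 ∧
    (codeU x.1).2.2.1 < N + 1 ∧
    (codeU x.1).2.2.2.1 < N + 1 ∧
    (codeU x.1).2.2.2.2.1 < N + 1 ∧
    (codeU x.1).2.2.2.2.2.1 < N + 1 ∧
    (codeU x.1).2.2.2.2.2.2.1 < N + 1 ∧
    (codeU x.1).2.2.2.2.2.2.2.1 < N + 1 ∧
    (codeU x.1).2.2.2.2.2.2.2.2.1 < N + 1 ∧
    (codeU x.1).2.2.2.2.2.2.2.2.2.1 < N + 1 ∧
    (codeU x.1).2.2.2.2.2.2.2.2.2.2.1 < N + 1 ∧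
    (codeU x.1).2.2.2.2.2.2.2.2.2.2.2.1 < N + 1 ∧
    (codeU x.1).2.2.2.2.2.2.2.2.2.2.2.2.1 < N + 1 ∧
    (codeU x.1).2.2.2.2.2.2.2.2.2.2.2.2.2.1 < N + 1 ∧
    (codeU x.1).2.2.2.2.2.2.2.2.2.2.2.2.2.2.1 < N + 1 ∧
    (codeU x.1).2.2.2.2.2.2.2.2.2.2.2.2.2.2.2.1 < N + 1 := by
  obtain ⟨s, hs⟩ := x
  cases s <;> simp only [codeU, BU, BdV] at hs ⊢ <;> omega

theorem codeUF_inj (N : ℕ) : Function.Injective (codeUF N) := by
  intro x y h
  have hx := codeU_bd x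
  have hy := codeU_bd y
  obtain ⟨x0, x1, x2, x3, x4, x5, x6, x7, x8, x9, x10, x11, x12, x13, x14, x15⟩ := hx
  obtain ⟨y0, y1, y2, y3, y4, y5, y6, y7, y8, y9, y10, y11, y12, y13, y14, y15⟩ := hy
  simp only [codeUF, Prod.mk.injEq] at h
  obtain ⟨h0, h1, h2, h3, h4, h5, h6, h7, h8, h9, h10, h11, h12, h13, h14, h15, h16, h17⟩ := h
  apply Subtype.ext
  apply codeU_inj
  exact Prod.ext (ofNat_inj x0 y0 h0)
    (Prod.ext (ofNat_inj x1 y1 h1)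
    (Prod.ext (ofNat_inj x2 y2 h2)
    (Prod.ext (ofNat_inj x3 y3 h3)
    (Prod.ext (ofNat_inj x4 y4 h4)
    (Prod.ext (ofNat_inj x5 y5 h5)
    (Prod.ext (ofNat_inj x6 y6 h6)
    (Prod.ext (ofNat_inj x7 y7 h7)
    (Prod.ext (ofNat_inj x8 y8 h8)
    (Prod.ext (ofNat_inj x9 y9 h9)
    (Prod.ext (ofNat_inj x10 y10 h10)
    (Prod.ext (ofNat_inj x11 y11 h11)
    (Prod.ext (ofNat_inj x12 y12 h12)
    (Prod.ext (ofNat_inj x13 y13 h13)
    (Prod.ext (ofNat_inj x14 y14 h14)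
    (Prod.ext (ofNat_inj x15 y15 h15)
    (Prod.ext h16 h17))))))))))))))))

theorem finite_QU (N : ℕ) : Finite (QU N) := Finite.of_injective _ (codeUF_inj N)

theorem card_QU (N : ℕ) : Nat.card (QU N) ≤ 52 * (N + 1) ^ 15 := by
  refine (Nat.card_le_card_of_injective _ (codeUF_inj N)).trans ?_
  have h1 : Nat.card (Fin (N + 1)) = N + 1 := by simp
  have h2 : Nat.card (Fin 13) = 13 := by simp
  have h3 : Nat.card Bool = 2 := by simp
  simp only [Nat.card_prod, h1, h2, h3]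
  apply le_of_eq
  ring

section bounds

variable {A : Type} {B : ℕ} {rel : A → ℕ → ℕ → Prop} {p0 : ℕ} {facc : ℕ → Prop}
variable {Wt : ℕ → ℕ → ℕ → ℕ → ℕ} {KK : ℕ} {w : List A} {b : ℕ → Bool}

/-- The value of `e` is bounded. -/
def EB (Me : ℕ) : Wu → Prop
  | .main v => v.e ≤ Me
  | .goL v _ => v.e ≤ Me
  | .sL v _ _ => v.e ≤ Me
  | .sR v _ _ => v.e ≤ Me
  | .goR v _ _ _ => v.e ≤ Me
  | .kL v _ => v.e ≤ Me
  | .kR v _ => v.e ≤ Me
  | .back v _ => v.e ≤ Me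
  | _ => True

theorem up_le {σ : Sym (WS A)} {v : Rv} {x l Me : ℕ} (he : v.e ≤ Me)
    (hl : l + Wt v.i v.o x v.q + 1 ≤ Me) : (up rel facc Wt σ v x l).1 ≤ Me := by
  unfold up
  split_ifs
  · exact hl
  · exact he
  · exact he
  · show 1 ≤ Me
    omega
  · exact he

theorem EB_EU {Mx : ℕ} (hM : ∀ i o x y, Wt i o x y ≤ Mx) {x : ℕ} {s s' : Wu}
    (h : EU B rel facc Wt KK (full w b x) s s') (hJ : JU B rel p0 facc Wt KK w b s x)
    (hE : EB (B * Mx + 1) s) : EB (B * Mx + 1) s' := by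
  cases h with
  | skip v hv hq => exact hE
  | yes v hv hq => exact hE
  | choose v s hs hm => exact hE
  | bit v s hb => exact hE
  | done v l =>
    obtain ⟨t0, h, hv, _, hpw, hx⟩ := hJ
    have hpw' : pw B rel p0 Wt w v.i t0 v.o v.p l := hpw
    have h1 := pw_bd hM _ _ _ hpw'
    have h2 := hM v.i v.o v.p v.q
    have ho := h.ho
    have h3 : (v.o + 1) * Mx ≤ B * Mx := Nat.mul_le_mul_right _ ho
    have h4 : (v.o + 1) * Mx = v.o * Mx + Mx := by ring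
    exact up_le hE (by omega)
  | next v hD hq hbad ho hm => exact Nat.zero_le _
  | look v hD hq hbad ho hm => exact hE
  | cmp v hb => exact hE
  | ret v => exact Nat.zero_le _
  | again v hD hq hbad hi hm => exact hE
  | restart v => exact Nat.zero_le _
  | stopz v f hD hq hσ hf => trivial
  | chk f o m hb => trivial
  | turn f o => trivial

theorem EB_MU {Me : ℕ} {σ : Sym (WS A)} {s s' : Wu} {d : Bool}
    (h : MU1 B rel p0 Wt σ s s' d) (hE : EB Me s) : EB Me s' := by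
  cases h with
  | rwL _ => trivial
  | rwR h => exact Nat.zero_le _
  | goL v m => exact hE
  | goL0 v h => exact hE
  | sL v s m => exact hE
  | sR v s m => exact hE
  | sR0 v s => exact hE
  | goR v y m l z hz h => exact hE
  | kL v m => exact hE
  | kR v m => exact hE
  | back v m => exact hE
  | adv v hq hm =>
    show (UA.av B v).e ≤ Me
    unfold UA.av
    split_ifs <;> exact Nat.zero_le _
  | zl f o m => trivial
  | zr f m => trivial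
  | zr0 f h => trivial

theorem sm_bd {Mx : ℕ} (hM : ∀ i o x y, Wt i o x y ≤ Mx) {i t0 o p : ℕ} (ho : o ≤ B)
    (hp : p ≤ B) : sm B rel p0 Wt w i t0 o p ≤ B * (B * Mx) := by
  unfold sm
  have h1 : ∑ x ∈ Finset.range p, de B rel p0 Wt w i t0 o x ≤
      ∑ x ∈ Finset.range p, B * Mx := by
    refine Finset.sum_le_sum fun x _ => ?_
    exact (de_bd hM o x).trans (Nat.mul_le_mul_right _ ho)
  refine h1.trans ?_
  rw [Finset.sum_const, Finset.card_range, smul_eq_mul]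
  exact Nat.mul_le_mul_right _ hp

/-- The bound of the registers. -/
def NU (B KK Mx : ℕ) : ℕ := KK + (B + 1) * (B + 1) * (Mx + 1)

theorem NU_le {KK Mx : ℕ} : KK ≤ NU B KK Mx ∧ B + 1 ≤ NU B KK Mx ∧ B * (B * Mx) ≤ NU B KK Mx ∧
    B * Mx + 1 ≤ NU B KK Mx := by
  unfold NU
  refine ⟨Nat.le_add_right _ _, ?_, ?_, ?_⟩
  · nlinarith [Nat.zero_le (B * B), Nat.zero_le (B * Mx), Nat.zero_le (B * B * Mx)]
  · nlinarith [Nat.zero_le (B * B), Nat.zero_le (B * Mx), Nat.zero_le (B * B * Mx)]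
  · nlinarith [Nat.zero_le (B * B), Nat.zero_le (B * Mx), Nat.zero_le (B * B * Mx)]

theorem MV.bd {Mx : ℕ} (hM : ∀ i o x y, Wt i o x y ≤ Mx) {v : Rv} {t0 : ℕ}
    (h : MV B rel p0 facc Wt KK w b v t0) (hE : v.e ≤ B * Mx + 1) :
    BdV (NU B KK Mx) v := by
  classical
  obtain ⟨n1, n2, n3, n4⟩ := NU_le (B := B) (KK := KK) (Mx := Mx)
  have hi := h.hi
  have ho := h.ho
  have hq := h.hq
  have hp := h.hp
  have hz := h.hz
  have hc := h.hc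
  have hs := h.hs
  have hc' := h.hc'
  have hs' := h.hs'
  obtain ⟨f, h1, h2, h3, h4, h5⟩ := h.hX
  have k1 : cn B rel p0 w t0 B ≤ B := cn_le
  have k2 : cn B rel p0 w (t0 + v.o) B ≤ B := cn_le
  have k3 : cn B rel p0 w (t0 + v.o + 1) v.q ≤ v.q := cn_le
  have k4 : sm B rel p0 Wt w v.i t0 v.o B ≤ B * (B * Mx) := sm_bd hM (by omega) le_rfl
  have k5 : sm B rel p0 Wt w v.i t0 (v.o + 1) v.q ≤ B * (B * Mx) := sm_bd hM ho hq
  have k6 : v.k ≤ v.p := by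
    rw [h3]
    refine (Finset.card_filter_le _ _).trans ?_
    rw [Finset.card_range]
  have k7 : v.g ≤ B * (B * Mx) := by
    rw [h4]
    have h6 : ∑ x ∈ Finset.range v.p, (f x).getD 0 ≤ ∑ x ∈ Finset.range v.p, B * Mx := by
      refine Finset.sum_le_sum fun x _ => ?_
      cases hfx : f x with
      | none => exact Nat.zero_le _
      | some m =>
        show m ≤ B * Mx
        exact (pw_bd hM _ _ _ (h2 x m hfx)).trans (Nat.mul_le_mul_right _ (by omega))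
    refine h6.trans ?_
    rw [Finset.sum_const, Finset.card_range, smul_eq_mul]
    exact Nat.mul_le_mul_right _ hp
  refine ⟨?_, ?_, ?_, ?_, ?_, ?_, ?_, ?_, ?_, ?_, ?_, ?_⟩ <;> omega

theorem J_BU (h0 : p0 < B) {Mx : ℕ} (hM : ∀ i o x y, Wt i o x y ≤ Mx) {s : Wu} {x : ℕ}
    (hJ : JU B rel p0 facc Wt KK w b s x) (hE : EB (B * Mx + 1) s) : BU (NU B KK Mx) s := by
  obtain ⟨n1, n2, n3, n4⟩ := NU_le (B := B) (KK := KK) (Mx := Mx)
  cases s with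
  | rw => trivial
  | main v =>
    obtain ⟨t0, _, h⟩ := hJ
    exact h.bd hM hE
  | goL v m =>
    obtain ⟨t0, h, hv, hx, hm⟩ := hJ
    have := h.ho
    exact ⟨h.bd hM hE, by omega⟩
  | sL v s m =>
    obtain ⟨t0, h, hv, hs, _, hx, hm⟩ := hJ
    exact ⟨h.bd hM hE, by omega, by omega⟩
  | sR v s m =>
    obtain ⟨t0, h, hv, hs, hx, hm⟩ := hJ
    have := nr_lt h0 hs
    exact ⟨h.bd hM hE, by omega, by omega⟩
  | goR v y m l =>
    obtain ⟨t0, h, hv, hm, hpw, hx⟩ := hJ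
    have ho := h.ho
    have h1 := nr_lt h0 (pw_nr _ _ _ hpw)
    have h2 := pw_bd hM _ _ _ hpw
    have h3 : (v.o - m) * Mx ≤ B * Mx := Nat.mul_le_mul_right _ (by omega)
    exact ⟨h.bd hM hE, by omega, by omega, by omega⟩
  | kL v m =>
    obtain ⟨t0, h, _, _, _, _, _, _, hm⟩ := hJ
    have := h.hq
    exact ⟨h.bd hM hE, by omega⟩
  | kR v m =>
    obtain ⟨t0, h, _, _, _, _, _, _, _, hm⟩ := hJ
    have := h.hq
    exact ⟨h.bd hM hE, by omega⟩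
  | back v m =>
    obtain ⟨t0, h, _, _, hm⟩ := hJ
    have := h.ho
    exact ⟨h.bd hM hE, by omega⟩
  | zl f o m =>
    obtain ⟨_, t0, _, ho, _, _, _, hm, _⟩ := hJ
    exact ⟨by omega, by omega⟩
  | zc f o m =>
    obtain ⟨_, t0, _, ho, _, _, _, hm, _⟩ := hJ
    exact ⟨by omega, by omega⟩
  | zr f m =>
    obtain ⟨_, _, _, hm⟩ := hJ
    show m ≤ _
    omega
  | fin f => trivial

theorem J_pos {s : Wu} {x : ℕ} (hJ : JU B rel p0 facc Wt KK w b s x)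
    (hs : ∀ f, s ≠ .fin f) : x ≤ w.length + 1 := by
  cases s with
  | rw =>
    have h : x ≤ w.length := hJ
    omega
  | main v =>
    obtain ⟨t0, hx, h⟩ := hJ
    have := h.hn
    omega
  | goL v m =>
    obtain ⟨t0, h, hv, hx, hm⟩ := hJ
    have := h.hn
    omega
  | sL v s m =>
    obtain ⟨t0, h, hv, hs, _, hx, hm⟩ := hJ
    have := h.hn
    omega
  | sR v s m =>
    obtain ⟨t0, h, hv, hs, hx, hm⟩ := hJ
    have := h.hn
    omega
  | goR v y m l =>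
    obtain ⟨t0, h, hv, hm, hpw, hx⟩ := hJ
    have := h.hn
    omega
  | kL v m =>
    obtain ⟨t0, h, _, _, _, _, _, hx, hm⟩ := hJ
    have := h.hn
    omega
  | kR v m =>
    obtain ⟨t0, h, _, _, _, _, _, _, hx, hm⟩ := hJ
    have := h.hn
    omega
  | back v m =>
    obtain ⟨t0, h, _, hx, hm⟩ := hJ
    have := h.hn
    omega
  | zl f o m =>
    obtain ⟨_, t0, _, ho, hn, _, hx, hm, _⟩ := hJ
    omega
  | zc f o m =>
    obtain ⟨_, t0, _, ho, hn, _, hx, hm, _⟩ := hJ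
    omega
  | zr f m =>
    obtain ⟨_, _, hx, hm⟩ := hJ
    omega
  | fin f => exact absurd rfl (hs f)

end bounds

section machine

variable {A : Type} (B : ℕ) (rel : A → ℕ → ℕ → Prop) (p0 : ℕ) (facc : ℕ → Prop)
variable (Wt : ℕ → ℕ → ℕ → ℕ → ℕ) (KK Mx : ℕ)

/-- The walk. -/
def uw (h0 : p0 < B) (hK : 0 < KK) (hM : ∀ i o x y, Wt i o x y ≤ Mx)
    (hW : ∀ (w : List A) t0, ∃ i, i < KK ∧ ¬ Tie B rel p0 Wt w i t0) : Wk A where
  T := Wu
  rw := .rw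
  fin := .fin
  E := EU B rel facc Wt KK
  Mv := MU1 B rel p0 Wt
  Bd := BU (NU B KK Mx)
  finT := finite_QU _
  J := fun w b s x => JU B rel p0 facc Wt KK w b s x ∧ QB B s ∧ EB (B * Mx + 1) s
  P := AccN B rel p0 facc
  bdrw := trivial
  bdfin := fun _ => trivial
  fin_inj := fun f g h => by
    cases h
    rfl
  hE := fun _ _ _ _ _ h hJ => ⟨J_EU h0 h hJ.1, QB_EU h hJ.2.1, EB_EU hM h hJ.1 hJ.2.2⟩
  hM := fun _ _ _ _ _ _ _ h hr hl hJ =>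
    ⟨J_MU h0 hK h hr hl hJ.1, QB_MU h hJ.2.1, EB_MU h hJ.2.2⟩
  hfin := fun _ _ _ _ h => h.1.1
  hbd := fun _ _ _ _ h => J_BU h0 hM h.1 h.2.2
  hpos := fun _ _ _ _ h h2 => J_pos h.1 h2
  hrw := fun _ _ _ h => ⟨h, trivial, trivial⟩
  nofin1 := fun _ _ _ h => by cases h
  nofin2 := fun _ _ _ h => by cases h
  nofin3 := fun _ _ _ _ h => by cases h
  comp := fun w => by
    obtain ⟨b, f, h⟩ := gu_final (facc := facc) h0 w (hW w)
    exact ⟨b, f, h⟩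

/-- The backward invariant. -/
noncomputable def ud (h0 : p0 < B) (hK : 0 < KK) (hM : ∀ i o x y, Wt i o x y ≤ Mx)
    (hW : ∀ (w : List A) t0, ∃ i, i < KK ∧ ¬ Tie B rel p0 Wt w i t0) :
    Dk (uw B rel p0 facc Wt KK Mx h0 hK hM hW) where
  Kb := KU B rel p0 Wt
  β := bt B rel p0
  hβ := fun _ _ _ _ h => h.rb
  hfin := fun _ _ _ _ h => h.1.2
  hback := fun w b s x y hJ hR hK => by
    obtain ⟨s', y⟩ := y
    rcases hR with ⟨h, e⟩ | ⟨d, h, hr, hl⟩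
    · have e' : y = x := e
      subst e'
      exact K_EU h hJ.1 hJ.2.1 hK
    · exact K_MU h hr hl hJ.1 hK
  hdet := fun _ _ _ _ _ _ hJ h1 h2 hK1 hK2 => det_RU h0 h1 h2 hJ.1 hK1 hK2

/-- **The unambiguous simulation.** -/
theorem uw_spec [Finite A] (h0 : p0 < B) :
    ∃ (M' : LimAut A) (R : Set M'.Q), (∀ strict' : Prop,
      M'.language strict' = {w | AccN B rel p0 facc w} ∧
      ends strict' M' R = {w | AccN B rel p0 facc w}ᶜ ∧ Unamb strict' M' (M'.F ∪ R)) ∧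
      Disjoint M'.F R ∧
      M'.size + R.ncard ≤ 110 * ((52 * (NU B (B * (Nat.card A + 1) + 1) (2 * B ^ 4) + 1) ^ 15
        + 1) ^ 2 * (Nat.card A + 1) ^ 2) := by
  obtain ⟨Wt, hM, hW⟩ := exists_weights B (by omega) rel
  have hW' : ∀ (w : List A) t0, ∃ i, i < B * (Nat.card A + 1) + 1 ∧
      ¬ Tie B rel p0 Wt w i t0 := by
    intro w t0
    obtain ⟨i, h1, h2⟩ := hW (nr B rel p0 w t0) (fun j => w[t0 + j]?) (fun x h => nr_lt h0 h)
    exact ⟨i, h1, not_not.2 h2⟩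
  let K := uw B rel p0 facc Wt (B * (Nat.card A + 1) + 1) (2 * B ^ 4) h0 (by omega) hM hW'
  have hX : Nat.card {s : K.T // K.Bd s} ≤
      52 * (NU B (B * (Nat.card A + 1) + 1) (2 * B ^ 4) + 1) ^ 15 := card_QU _
  have hQ : Nat.card (gM K).Q ≤
      52 * (NU B (B * (Nat.card A + 1) + 1) (2 * B ^ 4) + 1) ^ 15 + 1 := by
    have := K.finT
    have h3 : Nat.card (gM K).Q = Nat.card {s : K.T // K.Bd s} + 1 := by
      show Nat.card (Option {s : K.T // K.Bd s}) = _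
      rw [Finite.card_option]
    omega
  refine ⟨gM K, gR K, fun strict' => ⟨?_, ?_, ?_⟩, gM_disj K, gM_size K hQ⟩
  · ext w
    exact mem_gM strict' w
  · ext w
    rw [ends_gM strict' w]
    rfl
  · exact gM_unamb (ud B rel p0 facc Wt (B * (Nat.card A + 1) + 1) (2 * B ^ 4) h0 (by omega) hM
      hW') strict'

end machine

end Pool.Agent.U593.UA
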