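import Mathlib
import Pool.Agent.U593.UA.Size

set_option autoImplicit false

/-! The unambiguous simulation of 1-limited automata. -/

namespace Pool.Agent.U593.UA

open Pool.Agent.H630R2.LA Pool.Agent.U593.SV Pool.Agent.U593.TW Relation

variable {A : Type} {strict : Prop}

open Classical in
/-- The table automaton with numbered states. -/
theorem table_nfa (M : LimAut A) (strict : Prop) (B : ℕ)
    (hcard : Nat.card (Set (M.Q × M.Q) × M.Q) ≤ B) :
    ∃ (rel : A → ℕ → ℕ → Prop) (p0 : ℕ) (facc : ℕ → Prop), p0 < B ∧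
      ∀ w : List A, w ∈ M.language strict ↔ AccN B rel p0 facc w := by
  have := M.finQ
  obtain ⟨e⟩ : Nonempty (Set (M.Q × M.Q) × M.Q ↪ Fin B) := by
    have e1 := Finite.equivFin (Set (M.Q × M.Q) × M.Q)
    exact ⟨e1.toEmbedding.trans (Fin.castLEEmb hcard)⟩
  let rel : A → ℕ → ℕ → Prop := fun a i j =>
    ∃ x y, (e x).val = i ∧ (e y).val = j ∧ nstep strict M (.sym (M.inp a)) x y
  let p0 : ℕ := (e (ext strict M ∅ .lm, M.q0)).val
  let facc : ℕ → Prop := fun i => ∃ x y, (e x).val = i ∧ nstep strict M .rm x y ∧ y.2 ∈ M.F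
  have h0 : p0 < B := (e _).isLt
  have hval : ∀ x y, (e x).val = (e y).val → x = y := fun x y h => e.injective (Fin.ext h)
  refine ⟨rel, p0, facc, h0, ?_⟩
  intro w
  rw [mem_language]
  have key : ∀ t, t ≤ w.length → ∀ i, nr B rel p0 w t i ↔
      ∃ x, (e x).val = i ∧ nreach strict M (initTape M w) t x := by
    intro t
    induction t with
    | zero =>
      intro _ i
      constructor
      · intro h
        have h' : i = p0 := h
        exact ⟨_, h'.symm, rfl⟩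
      · rintro ⟨x, rfl, hx⟩
        have hx' : x = (ext strict M ∅ .lm, M.q0) := hx
        rw [hx']
        rfl
    | succ t ih =>
      intro ht i
      have hwt : w[t]? = some w[t] := List.getElem?_eq_getElem (by omega)
      have hcell : initTape M w (t + 1) = .sym (M.inp w[t]) := by
        simp only [initTape, hwt]
      constructor
      · rintro ⟨_, p, hp, a, ha, x', y, hx', hy, hs⟩
        rw [hwt] at ha
        cases ha
        obtain ⟨x, hx1, hx2⟩ := (ih (by omega) p).1 hp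
        have : x' = x := hval _ _ (by rw [hx', hx1])
        subst this
        refine ⟨y, hy, x', hx2, ?_⟩
        rw [hcell]
        exact hs
      · rintro ⟨y, hy, x, hx, hs⟩
        refine ⟨by rw [← hy]; exact (e y).isLt, (e x).val, (ih (by omega) _).2 ⟨x, rfl, hx⟩,
          w[t], hwt, ?_⟩
        rw [hcell] at hs
        exact ⟨x, y, rfl, hy, hs⟩
  have hlast : initTape M w (w.length + 1) = .rm := by
    simp only [initTape, List.getElem?_eq_none (le_refl w.length)]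
  constructor
  · rintro ⟨R, f, ⟨x, hx, hs⟩, hf⟩
    rw [hlast] at hs
    exact ⟨(e x).val, ⟨x, (R, f), rfl, hs, hf⟩, (key _ le_rfl _).2 ⟨x, rfl, hx⟩⟩
  · rintro ⟨f, ⟨x', y, hx', hs, hy⟩, hn⟩
    obtain ⟨x, hx1, hx2⟩ := (key _ le_rfl f).1 hn
    have : x' = x := hval _ _ (by rw [hx', hx1])
    subst this
    refine ⟨y.1, y.2, ⟨x', hx2, ?_⟩, hy⟩
    rw [hlast]
    exact hs

/-- The arithmetic. -/
theorem bound_arith {q a n : ℕ} (hq : q + a + 3 ≤ n) :
    110 * ((52 * (NU (2 ^ (q * q) * q) (2 ^ (q * q) * q * (a + 1) + 1)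
      (2 * (2 ^ (q * q) * q) ^ 4) + 1) ^ 15 + 1) ^ 2 * (a + 1) ^ 2) ≤ 2 ^ (180 * n ^ 2) := by
  unfold NU
  have h4 : 2 ^ (q * q) * q + 1 ≤ 2 ^ (q * q + q) := by
    rw [pow_add]
    have h4 : q + 1 ≤ 2 ^ q := Nat.lt_two_pow_self
    have h5 : 1 ≤ 2 ^ (q * q) := Nat.one_le_two_pow
    calc 2 ^ (q * q) * q + 1 ≤ 2 ^ (q * q) * q + 2 ^ (q * q) := by omega
      _ = 2 ^ (q * q) * (q + 1) := by ring
      _ ≤ 2 ^ (q * q) * 2 ^ q := Nat.mul_le_mul_left _ h4
  have h5 : a + 1 ≤ 2 ^ a := Nat.lt_two_pow_self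
  generalize 2 ^ (q * q) * q = B at *
  generalize hZ : 2 ^ (q * q + q) = Z at *
  have hZ1 : 1 ≤ Z := by omega
  have hB : B ≤ Z := by omega
  have h6 : 2 * B ^ 4 + 1 ≤ 2 * (B + 1) ^ 4 := by
    nlinarith [Nat.zero_le B, Nat.zero_le (B ^ 2), Nat.zero_le (B ^ 3)]
  have h7 : (B + 1) * (B + 1) * (2 * B ^ 4 + 1) ≤ 2 * Z ^ 6 := by
    calc (B + 1) * (B + 1) * (2 * B ^ 4 + 1) ≤ (B + 1) * (B + 1) * (2 * (B + 1) ^ 4) :=
          Nat.mul_le_mul_left _ h6
      _ = 2 * (B + 1) ^ 6 := by ring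
      _ ≤ 2 * Z ^ 6 := Nat.mul_le_mul_left _ (Nat.pow_le_pow_left h4 6)
  have h8 : Z ≤ Z ^ 6 := Nat.le_self_pow (by omega) Z
  have h9 : B * (a + 1) + 1 + 1 ≤ 2 * (Z ^ 6 * (a + 1)) := by
    have h10 : B * (a + 1) + 1 ≤ Z * (a + 1) := by
      calc B * (a + 1) + 1 ≤ B * (a + 1) + (a + 1) := by omega
        _ = (B + 1) * (a + 1) := by ring
        _ ≤ Z * (a + 1) := Nat.mul_le_mul_right _ h4
    have h11 : Z * (a + 1) ≤ Z ^ 6 * (a + 1) := Nat.mul_le_mul_right _ h8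
    have h12 : 1 ≤ Z ^ 6 * (a + 1) := Nat.mul_pos (by omega) (by omega)
    omega
  have h10 : B * (a + 1) + 1 + (B + 1) * (B + 1) * (2 * B ^ 4 + 1) + 1 ≤
      4 * (Z ^ 6 * (a + 1)) := by
    have h11 : 2 * Z ^ 6 ≤ 2 * (Z ^ 6 * (a + 1)) :=
      Nat.mul_le_mul_left _ (Nat.le_mul_of_pos_right _ (by omega))
    omega
  generalize B * (a + 1) + 1 + (B + 1) * (B + 1) * (2 * B ^ 4 + 1) + 1 = N at *
  have h11 : 52 * N ^ 15 + 1 ≤ 53 * (4 * (Z ^ 6 * (a + 1))) ^ 15 := by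
    have h12 : N ^ 15 ≤ (4 * (Z ^ 6 * (a + 1))) ^ 15 := Nat.pow_le_pow_left h10 15
    have h13 : 1 ≤ (4 * (Z ^ 6 * (a + 1))) ^ 15 := Nat.one_le_pow _ _ (by omega)
    omega
  calc 110 * ((52 * N ^ 15 + 1) ^ 2 * (a + 1) ^ 2)
      ≤ 110 * ((53 * (4 * (Z ^ 6 * (a + 1))) ^ 15) ^ 2 * (a + 1) ^ 2) := by gcongr
    _ = (110 * 53 ^ 2 * 4 ^ 30) * (Z ^ 180 * (a + 1) ^ 32) := by ring
    _ ≤ 2 ^ 79 * (Z ^ 180 * (2 ^ a) ^ 32) := by
      gcongr
      norm_num
    _ = 2 ^ (79 + ((q * q + q) * 180 + a * 32)) := by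
      rw [← hZ, ← pow_mul 2 (q * q + q) 180, ← pow_mul 2 a 32, ← pow_add, ← pow_add]
    _ ≤ 2 ^ (180 * n ^ 2) := by
      apply Nat.pow_le_pow_right (by omega)
      nlinarith [Nat.zero_le q, Nat.zero_le a, Nat.mul_self_le_mul_self hq]

/-- **The simulation.** -/
theorem upper_usv [Finite A] (M : LimAut A) (strict : Prop) :
    ∃ (M' : LimAut A) (R : Set M'.Q), (∀ strict' : Prop,
      M'.language strict' = M.language strict ∧
      ends strict' M' R = (M.language strict)ᶜ ∧ Unamb strict' M' (M'.F ∪ R)) ∧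
      Disjoint M'.F R ∧
      M'.size + R.ncard ≤ 2 ^ (180 * M.size ^ 2) := by
  have := M.finQ
  have hq : Nat.card M.Q + Nat.card A + 3 ≤ M.size := by
    unfold LimAut.size
    omega
  obtain ⟨rel, p0, facc, h0, hlang⟩ := table_nfa M strict _ le_rfl
  obtain ⟨M', R, h1, h2, h3⟩ := uw_spec _ rel p0 facc h0
  have hset : {w | AccN (Nat.card (Set (M.Q × M.Q) × M.Q)) rel p0 facc w} =
      M.language strict := by
    ext w
    exact (hlang w).symm
  rw [hset] at h1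
  refine ⟨M', R, h1, h2, h3.trans ?_⟩
  rw [card_table]
  exact bound_arith hq

end Pool.Agent.U593.UA
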